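import Pool.Agent.Lib.MP_bc6037_nt.FO.Defs

set_option autoImplicit false

/-!
# Module G1 (45 min): `FL s` extends to an entire function

PROOF. With `H = ZetaGrowth.H` (`H w = (w-1) ζ w` for `w ≠ 1`, `H 1 = 1`, entire: `differentiable_H`) and
`z1 = 1-s ≠ 0`, for `z ≠ 0, z1`: `FL s z = N z / (z1 z (z - z1))`,
`N z = z1 H(s+z) + H(s) (z - z1) - z` (as `ζ(s+z) = H(s+z)/(z-z1)`, `ζ(s) = -H(s)/z1`), and
`N 0 = N z1 = 0`. So `G z = dslope (dslope N 0) z1 z / z1`: for `z ≠ 0, z1`,
`dslope N 0 z = N z/z`, `dslope N 0 z1 = 0`, hence `dslope (dslope N 0) z1 z = N z/(z (z-z1))`; `dslope`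
of an entire function is entire (`Complex.differentiableOn_dslope` on `univ`, or the analytic
version).
-/

open MeasureTheory Complex Filter Set

namespace Pool.Agent.Lib.MP_bc6037_nt.FO

open ZetaGrowth in
theorem exists_entire {s : ℂ} (hs : s ≠ 1) :
    ∃ G : ℂ → ℂ, Differentiable ℂ G ∧ ∀ z : ℂ, z ≠ 0 → z ≠ 1 - s → G z = FL s z := by
  have hz1 : (1 - s) ≠ 0 := sub_ne_zero.mpr (Ne.symm hs)
  set N : ℂ → ℂ := fun z => (1 - s) * H (s + z) + H s * (z - (1 - s)) - z with hN
  have hdN : Differentiable ℂ N := by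
    have h1 : Differentiable ℂ fun z : ℂ => H (s + z) :=
      differentiable_H.comp (differentiable_const s |>.add differentiable_id)
    have h2 : Differentiable ℂ fun z : ℂ => H s * (z - (1 - s)) :=
      (differentiable_id.sub_const _).const_mul _
    exact ((h1.const_mul _).add h2).sub differentiable_id
  have hN0 : N 0 = 0 := by simp only [hN]; ring_nf
  have hN1 : N (1 - s) = 0 := by
    simp only [hN]
    have : s + (1 - s) = 1 := by ring
    rw [this, H_one]
    ring
  have hd : ∀ (f : ℂ → ℂ) (a : ℂ), Differentiable ℂ f → Differentiable ℂ (dslope f a) := by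
    intro f a hf
    have := (Complex.differentiableOn_dslope (f := f) (c := a) (s := univ) univ_mem).mpr
      hf.differentiableOn
    exact differentiableOn_univ.mp this
  refine ⟨fun z => dslope (dslope N 0) (1 - s) z / (1 - s),
    (hd _ _ (hd _ _ hdN)).div_const _, fun z hz hz' => ?_⟩
  have e1 : dslope N 0 z = N z / z := by
    rw [dslope_of_ne _ hz, slope_def_field, hN0]; simp
  have e2 : dslope N 0 (1 - s) = 0 := by
    rw [dslope_of_ne _ hz1, slope_def_field, hN0, hN1]; simp
  have hz2 : z - (1 - s) ≠ 0 := sub_ne_zero.mpr hz'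
  have hz3 : s + z ≠ 1 := by
    intro h
    exact hz' (by rw [← h]; ring)
  have hz4 : s + z - 1 ≠ 0 := sub_ne_zero.mpr hz3
  have hs1 : s - 1 ≠ 0 := sub_ne_zero.mpr hs
  show dslope (dslope N 0) (1 - s) z / (1 - s) = FL s z
  rw [dslope_of_ne _ hz', slope_def_field, e1, e2, FL]
  simp only [hN]
  rw [H_of_ne hz3, H_of_ne hs]
  field_simp
  ring

end Pool.Agent.Lib.MP_bc6037_nt.FO
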