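import Pool.Agent.Lib.MP_bc6037_nt.FO.Defs
import Pool.Agent.Lib.MP_bc6037_nt.Perron

set_option autoImplicit false

/-!
# Module G2 (50 min): polynomial growth of the entire extension in the strip

The constant may depend on `s`.

PROOF. `|ζ(w)| ≤ C (1+|Im w|)^3` for `-1 ≤ Re w ≤ 2`, `|Im w| ≥ 1`: `ZetaPL.H_interp` with the line `2`
(`σ₁ = 2`, `|H(2+it)| ≤ C(1+|t|)`, exponent at most `5/2`), divided by `|w-1| ≥ 1` (or `pl_poly` with
`H_neg_one_line` and `norm_zeta_two_line`). For `|Im z| ≥ |s|+2`: `|z|, |z-(1-s)| ≥ 1`,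
`|Im(s+z)| ≥ 1`, so `|FL s z| ≤ |ζ(s+z)| + |ζ(s)| + 1/|1-s| ≤ B (1+|Im z|)^3`. For
`|Im z| ≤ |s|+2` the strip is a compact rectangle and `G` is continuous.
-/

open MeasureTheory Complex Filter Set

namespace Pool.Agent.Lib.MP_bc6037_nt.FO

private lemma zeta_strip_growth : ∃ C : ℝ, 0 ≤ C ∧ ∀ w : ℂ, -1 ≤ w.re → w.re ≤ 2 → 1 ≤ |w.im| →
    ‖riemannZeta w‖ ≤ C * (1 + |w.im|) ^ (3 : ℝ) := by
  have hline : ∀ w : ℂ, w.re = 2 → ‖ZetaGrowth.H w‖ ≤
      (∑' n : ℕ, 1 / (n : ℝ) ^ (2 : ℝ)) * (1 + |w.im|) ^ (1 : ℝ) := by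
    intro w hw
    have hwe : w = 2 + w.im * I := by
      apply Complex.ext <;> simp [hw]
    have hw1 : w ≠ 1 := by
      intro h
      rw [h] at hw
      norm_num at hw
    have h1 : ‖w - 1‖ ≤ 1 + |w.im| := by
      have h6 : w - 1 = 1 + w.im * I := by linear_combination hwe
      calc ‖w - 1‖ = ‖(1 + w.im * I : ℂ)‖ := by rw [h6]
        _ ≤ ‖(1 : ℂ)‖ + ‖(w.im * I : ℂ)‖ := norm_add_le _ _
        _ = 1 + |w.im| := by simp
    have h2 := ZetaGrowth.norm_zeta_two_line w.im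
    rw [← hwe] at h2
    rw [ZetaGrowth.H_of_ne hw1, norm_mul, Real.rpow_one, mul_comm]
    have hS : 0 ≤ ∑' n : ℕ, 1 / (n : ℝ) ^ (2 : ℝ) := tsum_nonneg fun n => by positivity
    gcongr
  obtain ⟨C, hC⟩ := ZetaGrowth.H_interp (σ₁ := 2) (a₁ := 1) (by norm_num) le_rfl zero_le_one hline
  refine ⟨|C|, abs_nonneg _, fun w h1 h2 h3 => ?_⟩
  have hw1 : w ≠ 1 := by
    intro h
    rw [h] at h3
    norm_num at h3
  have h4 : 1 ≤ ‖w - 1‖ := by
    have := Complex.abs_im_le_norm (w - 1)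
    simp at this
    linarith
  have h5 := hC w h1 h2
  rw [ZetaGrowth.H_of_ne hw1, norm_mul] at h5
  have h6 : (1 : ℝ) ≤ 1 + |w.im| := by linarith
  calc ‖riemannZeta w‖ ≤ ‖w - 1‖ * ‖riemannZeta w‖ := le_mul_of_one_le_left (norm_nonneg _) h4
    _ ≤ C * (1 + |w.im|) ^ ((5 / 2 : ℝ) + (1 - 5 / 2) / (2 - (-1)) * (w.re - (-1))) := h5
    _ ≤ |C| * (1 + |w.im|) ^ ((5 / 2 : ℝ) + (1 - 5 / 2) / (2 - (-1)) * (w.re - (-1))) := by
        gcongr
        exact le_abs_self C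
    _ ≤ |C| * (1 + |w.im|) ^ (3 : ℝ) := by
        have h7 : (1 - 5 / 2 : ℝ) / (2 - (-1)) * (w.re - (-1)) ≤ 0 :=
          mul_nonpos_of_nonpos_of_nonneg (by norm_num) (by linarith)
        have h8 := Real.rpow_le_rpow_of_exponent_le h6
          (show (5 / 2 : ℝ) + (1 - 5 / 2) / (2 - (-1)) * (w.re - (-1)) ≤ 3 by linarith)
        exact mul_le_mul_of_nonneg_left h8 (abs_nonneg C)

theorem strip_growth {s : ℂ} (h0 : 1 / 2 ≤ s.re) (h1 : s.re < 1) (ht : 1 ≤ s.im) {G : ℂ → ℂ}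
    (hG : Differentiable ℂ G) (hG' : ∀ z : ℂ, z ≠ 0 → z ≠ 1 - s → G z = FL s z) :
    ∃ B : ℝ, 0 ≤ B ∧ ∀ z : ℂ, -1 - s.re ≤ z.re → z.re ≤ 2 - s.re →
      ‖G z‖ ≤ B * (1 + |z.im|) ^ (3 : ℝ) := by
  obtain ⟨C, hC, hz⟩ := zeta_strip_growth
  have hK : IsCompact (Icc (-1 - s.re) (2 - s.re) ×ℂ Icc (-(|s.im| + 1)) (|s.im| + 1)) :=
    isCompact_Icc.reProdIm isCompact_Icc
  obtain ⟨M, hM⟩ := hK.exists_bound_of_continuousOn hG.continuous.continuousOn
  set A : ℝ := C * (1 + |s.im|) ^ (3 : ℝ) + ‖riemannZeta s‖ + ‖1 / (1 - s)‖ with hA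
  have hAnn : 0 ≤ A := by positivity
  refine ⟨max A |M|, le_max_of_le_left hAnn, fun z hz1 hz2 => ?_⟩
  have hp1 : (1 : ℝ) ≤ (1 + |z.im|) ^ (3 : ℝ) :=
    Real.one_le_rpow (by linarith [abs_nonneg z.im]) (by norm_num)
  by_cases h : |s.im| + 1 ≤ |z.im|
  · have hs0 := abs_nonneg s.im
    have hnz : 1 ≤ ‖z‖ := by
      have := Complex.abs_im_le_norm z
      linarith
    have him : 1 ≤ |(s + z).im| := by
      rw [add_im]
      have : |z.im| ≤ |s.im + z.im| + |s.im| := by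
        have h2 := abs_sub (s.im + z.im) s.im
        simpa using h2
      linarith
    have hnd : 1 ≤ ‖z - (1 - s)‖ := by
      have h2 := Complex.abs_im_le_norm (z - (1 - s))
      have h3 : (z - (1 - s)).im = (s + z).im := by
        simp
        ring
      rw [h3] at h2
      linarith
    have hz0 : z ≠ 0 := by
      intro h2
      rw [h2] at hnz
      simp at hnz
      linarith
    have hz3 : z ≠ 1 - s := by
      intro h2
      rw [h2] at hnd
      simp at hnd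
      linarith
    rw [hG' z hz0 hz3, FL]
    have hb := hz (s + z) (by rw [add_re]; linarith) (by rw [add_re]; linarith) him
    have hb2 : (1 + |(s + z).im|) ^ (3 : ℝ) ≤ (1 + |s.im|) ^ (3 : ℝ) * (1 + |z.im|) ^ (3 : ℝ) := by
      rw [← Real.mul_rpow (by positivity) (by positivity)]
      apply Real.rpow_le_rpow (by positivity) _ (by norm_num)
      rw [add_im]
      nlinarith [abs_add_le s.im z.im, abs_nonneg s.im, abs_nonneg z.im]
    have hdiv : ∀ a b : ℂ, 1 ≤ ‖b‖ → ‖a / b‖ ≤ ‖a‖ := by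
      intro a b hb
      rw [norm_div]
      exact div_le_self (norm_nonneg _) hb
    have hD : ‖1 / ((1 - s) * (z - (1 - s)))‖ ≤ ‖1 / (1 - s)‖ := by
      have := hdiv (1 / (1 - s)) (z - (1 - s)) hnd
      rwa [div_div] at this
    have htri : ‖riemannZeta (s + z) / z - riemannZeta s / z - 1 / ((1 - s) * (z - (1 - s)))‖ ≤
        ‖riemannZeta (s + z) / z‖ + ‖riemannZeta s / z‖ + ‖1 / ((1 - s) * (z - (1 - s)))‖ :=
      (norm_sub_le _ _).trans (by gcongr; exact norm_sub_le _ _)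
    have h7 := hdiv (riemannZeta (s + z)) z hnz
    have h8 := hdiv (riemannZeta s) z hnz
    calc _ ≤ ‖riemannZeta (s + z)‖ + ‖riemannZeta s‖ + ‖1 / (1 - s)‖ := by linarith
      _ ≤ C * ((1 + |s.im|) ^ (3 : ℝ) * (1 + |z.im|) ^ (3 : ℝ)) +
          ‖riemannZeta s‖ * (1 + |z.im|) ^ (3 : ℝ) + ‖1 / (1 - s)‖ * (1 + |z.im|) ^ (3 : ℝ) := by
          gcongr
          · exact hb.trans (by gcongr)
          · exact le_mul_of_one_le_right (norm_nonneg _) hp1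
          · exact le_mul_of_one_le_right (norm_nonneg _) hp1
      _ = A * (1 + |z.im|) ^ (3 : ℝ) := by rw [hA]; ring
      _ ≤ _ := by gcongr; exact le_max_left _ _
  · push Not at h
    have h2 : ‖G z‖ ≤ M := hM z ⟨⟨hz1, hz2⟩,
      ⟨by linarith [neg_abs_le z.im], by linarith [le_abs_self z.im]⟩⟩
    calc ‖G z‖ ≤ |M| := h2.trans (le_abs_self M)
      _ ≤ max A |M| := le_max_right _ _
      _ = max A |M| * 1 := by ring
      _ ≤ _ := by gcongr

end Pool.Agent.Lib.MP_bc6037_nt.FO
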