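import Pool.Agent.Lib.MP_bc6037_nt.FO.Defs
import Pool.Agent.Lib.MP_bc6037_nt.Perron

set_option autoImplicit false

/-!
# Module G3 (35 min): the bound on the line `Re z = -1 - σ`

PROOF. `z = -1-σ+iu`: `|z| ≥ 1`, `|z - (1-s)| ≥ |Re| = 2`, `|1-s| ≥ t ≥ 1`, `Re(s+z) = -1`,
`|ζ(-1+iw)| ≤ C |w|^{3/2}` for `|w| ≥ 1` (`ZetaPL.zeta_neg_one_line`), bounded for `|w| ≤ 1` (continuity),
`w = t+u`, so `|ζ(s+z)| ≤ C (1+|t+u|)^{3/2} ≤ C (1+t)^{3/2}(1+|u|)^{3/2} ≤ C' t^{3/2} (1+|u|)^2`; and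
`|ζ(s)| ≤ C t ≤ C t^{3/2}` (`Perron.norm_zeta_le`).
-/

open MeasureTheory Complex Filter Set

namespace Pool.Agent.Lib.MP_bc6037_nt.FO

private lemma zeta_neg_one_all : ∃ C : ℝ, 0 ≤ C ∧ ∀ w : ℝ,
    ‖riemannZeta (-1 + w * I)‖ ≤ C * (1 + |w|) ^ (3 / 2 : ℝ) := by
  obtain ⟨C, hC⟩ := ZetaGrowth.zeta_neg_one_line
  have hcont : Continuous fun t : ℝ => riemannZeta (-1 + t * I) := by
    have := continuous_zeta_line (σ := -1) (by norm_num)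
    simpa using this
  obtain ⟨M, hM⟩ := (isCompact_Icc (a := (-1 : ℝ)) (b := 1)).exists_bound_of_continuousOn
    hcont.continuousOn
  refine ⟨max |C| |M|, le_max_of_le_left (abs_nonneg _), fun w => ?_⟩
  have hp1 : (1 : ℝ) ≤ (1 + |w|) ^ (3 / 2 : ℝ) :=
    Real.one_le_rpow (by linarith [abs_nonneg w]) (by norm_num)
  by_cases h : 1 ≤ |w|
  · refine (hC w h).trans ?_
    gcongr
    exact (le_abs_self C).trans (le_max_left _ _)
  · push Not at h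
    have h2 := hM w ⟨by linarith [neg_abs_le w], by linarith [le_abs_self w]⟩
    calc ‖riemannZeta (-1 + w * I)‖ ≤ |M| := h2.trans (le_abs_self M)
      _ ≤ max |C| |M| * 1 := by rw [mul_one]; exact le_max_right _ _
      _ ≤ _ := by gcongr

theorem line_bound {σ : ℝ} (h0 : 1 / 2 ≤ σ) (h1 : σ < 1) : ∃ C : ℝ, 0 ≤ C ∧ ∀ t : ℝ, 1 ≤ t →
    ∀ u : ℝ, ‖FL (σ + t * I) (((-1 - σ : ℝ) : ℂ) + u * I)‖ ≤
      C * t ^ (3 / 2 : ℝ) * (1 + |u|) ^ (2 : ℝ) := by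
  obtain ⟨C1, hC1, hz1⟩ := zeta_neg_one_all
  obtain ⟨C2, hC2, hz2⟩ := Perron.norm_zeta_le (σ₀ := 1 / 2) (by norm_num)
  refine ⟨4 * C1 + C2 + 1, by positivity, fun t ht u => ?_⟩
  set s : ℂ := σ + t * I with hs
  set z : ℂ := ((-1 - σ : ℝ) : ℂ) + u * I with hz
  have hsre : s.re = σ := by simp [hs]
  have hsim : s.im = t := by simp [hs]
  have hzre : z.re = -1 - σ := by simp [hz]
  have hzim : z.im = u := by simp [hz]
  have ht0 : 0 < t := by linarith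
  have hnz : 1 ≤ ‖z‖ := by
    have := Complex.abs_re_le_norm z
    rw [hzre] at this
    have h2 : |(-1 - σ)| = 1 + σ := by rw [abs_of_neg (by linarith)]; ring
    linarith
  have hn1s : 1 ≤ ‖1 - s‖ := by
    have := Complex.abs_im_le_norm (1 - s)
    have h2 : (1 - s).im = -t := by simp [hsim]
    rw [h2, abs_neg, abs_of_pos ht0] at this
    linarith
  have hnd : 1 ≤ ‖z - (1 - s)‖ := by
    have := Complex.abs_re_le_norm (z - (1 - s))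
    have h2 : (z - (1 - s)).re = -2 := by
      simp [hsre, hzre]
      ring
    rw [h2] at this
    have h3 : |(-2 : ℝ)| = 2 := by norm_num
    linarith
  have hsz : s + z = -1 + ((t + u : ℝ) : ℂ) * I := by
    rw [hs, hz]
    push_cast
    ring
  have hb1 := hz1 (t + u)
  rw [← hsz] at hb1
  have hb2 := hz2 s (by rw [hsre]; exact h0) (by rw [hsre]; linarith)
    (by rw [hsim, abs_of_pos ht0]; exact ht)
  rw [hsim, abs_of_pos ht0] at hb2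
  have hu1 : (1 : ℝ) ≤ 1 + |u| := by linarith [abs_nonneg u]
  have hp : (1 + |t + u|) ^ (3 / 2 : ℝ) ≤ 4 * (t ^ (3 / 2 : ℝ) * (1 + |u|) ^ (2 : ℝ)) := by
    have h3 : 1 + |t + u| ≤ 2 * t * (1 + |u|) := by
      have := abs_add_le t u
      rw [abs_of_pos ht0] at this
      nlinarith [abs_nonneg u]
    have h4 : (2 : ℝ) ^ (3 / 2 : ℝ) ≤ 4 := by
      calc (2 : ℝ) ^ (3 / 2 : ℝ) ≤ 2 ^ (2 : ℝ) :=
            Real.rpow_le_rpow_of_exponent_le (by norm_num) (by norm_num)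
        _ = 4 := by norm_num
    have h5 : (1 + |u|) ^ (3 / 2 : ℝ) ≤ (1 + |u|) ^ (2 : ℝ) :=
      Real.rpow_le_rpow_of_exponent_le hu1 (by norm_num)
    calc (1 + |t + u|) ^ (3 / 2 : ℝ) ≤ (2 * t * (1 + |u|)) ^ (3 / 2 : ℝ) := by gcongr
      _ = 2 ^ (3 / 2 : ℝ) * (t ^ (3 / 2 : ℝ) * (1 + |u|) ^ (3 / 2 : ℝ)) := by
          rw [Real.mul_rpow (by positivity) (by positivity),
            Real.mul_rpow (by positivity) (by positivity)]
          ring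
      _ ≤ 4 * (t ^ (3 / 2 : ℝ) * (1 + |u|) ^ (2 : ℝ)) := by gcongr
  have ht1 : 1 ≤ t ^ (3 / 2 : ℝ) := Real.one_le_rpow ht (by norm_num)
  have ht2 : t ≤ t ^ (3 / 2 : ℝ) := by
    calc t = t ^ (1 : ℝ) := (Real.rpow_one t).symm
      _ ≤ t ^ (3 / 2 : ℝ) := Real.rpow_le_rpow_of_exponent_le ht (by norm_num)
  have hu2 : 1 ≤ (1 + |u|) ^ (2 : ℝ) := Real.one_le_rpow hu1 (by norm_num)
  have hT : t ^ (3 / 2 : ℝ) ≤ t ^ (3 / 2 : ℝ) * (1 + |u|) ^ (2 : ℝ) :=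
    le_mul_of_one_le_right (by positivity) hu2
  have hdiv : ∀ a b : ℂ, 1 ≤ ‖b‖ → ‖a / b‖ ≤ ‖a‖ := by
    intro a b hb
    rw [norm_div]
    exact div_le_self (norm_nonneg _) hb
  have hA : ‖riemannZeta (s + z) / z‖ ≤ ‖riemannZeta (s + z)‖ := hdiv _ _ hnz
  have hB : ‖riemannZeta s / z‖ ≤ ‖riemannZeta s‖ := hdiv _ _ hnz
  have hD : ‖1 / ((1 - s) * (z - (1 - s)))‖ ≤ 1 := by
    have := hdiv 1 ((1 - s) * (z - (1 - s))) (by
      rw [norm_mul]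
      nlinarith)
    simpa using this
  have htri : ‖FL s z‖ ≤ ‖riemannZeta (s + z) / z‖ + ‖riemannZeta s / z‖ +
      ‖1 / ((1 - s) * (z - (1 - s)))‖ := by
    rw [FL]
    exact (norm_sub_le _ _).trans (by gcongr; exact norm_sub_le _ _)
  calc ‖FL s z‖ ≤ C1 * (1 + |t + u|) ^ (3 / 2 : ℝ) + C2 * t + 1 := by linarith
    _ ≤ C1 * (4 * (t ^ (3 / 2 : ℝ) * (1 + |u|) ^ (2 : ℝ))) +
        C2 * (t ^ (3 / 2 : ℝ) * (1 + |u|) ^ (2 : ℝ)) +
        1 * (t ^ (3 / 2 : ℝ) * (1 + |u|) ^ (2 : ℝ)) := by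
        gcongr
        · exact ht2.trans hT
        · linarith
    _ = (4 * C1 + C2 + 1) * t ^ (3 / 2 : ℝ) * (1 + |u|) ^ (2 : ℝ) := by ring

end Pool.Agent.Lib.MP_bc6037_nt.FO
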