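import Pool.Agent.Lib.MP_bc6037_nt.FO.Defs

set_option autoImplicit false

/-!
# Module Lap1 (25 min): integrability of `ff s y e^{-(2-Re s)y}`

PROOF. `ff` is measurable (`ps s (e^y)` is a finite-valued locally constant function; see
`DeltaMellin.measurable_D`: `fun x => ∑_{n ≤ ⌊x⌋₊}` composed with `Nat.floor` is measurable).
For `y > 0`: `‖ps s (e^y)‖ ≤ ⌊e^y⌋₊ ≤ e^y` (each term has norm `n^{-Re s} ≤ 1`), `‖ζ(s)‖ ≤ ‖ζ(s)‖ e^y`,
`‖e^{(1-s)y}/(1-s)‖ ≤ e^{(1-Re s)y} ≤ e^y` (`‖1-s‖ ≥ Im s ≥ 1`). So the norm is at most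
`(2 + ‖ζ(s)‖) e^{-(1-Re s)y}` on `(0,∞)`, integrable as `Re s < 1`.
-/

open MeasureTheory Complex Filter Set

namespace Pool.Agent.Lib.MP_bc6037_nt.FO

theorem measurable_ff (s : ℂ) : Measurable (ff s) := by
  refine Measurable.indicator ?_ measurableSet_Ioi
  have h1 : Measurable fun y : ℝ => ps s (Real.exp y) := by
    have h2 : Measurable fun n : ℕ => ∑ i ∈ Finset.Icc 1 n, (i : ℂ) ^ (-s) := measurable_from_nat
    exact (h2.comp Nat.measurable_floor).comp Real.measurable_exp
  refine (h1.sub measurable_const).sub ?_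
  exact (by fun_prop : Continuous fun y : ℝ => cexp ((1 - s) * y) / (1 - s)).measurable

theorem ff_bound {s : ℂ} (h0 : 1 / 2 ≤ s.re) (h1 : s.re < 1) (ht : 1 ≤ s.im) (y : ℝ) :
    ‖ff s y‖ ≤ (2 + ‖riemannZeta s‖) * Real.exp y := by
  unfold ff
  by_cases hy : y ∈ Ioi (0 : ℝ)
  · rw [indicator_of_mem hy]
    have hy0 : (0 : ℝ) < y := hy
    have e1 : ‖ps s (Real.exp y)‖ ≤ Real.exp y := by
      unfold ps
      refine (norm_sum_le _ _).trans ?_
      have h2 : ∀ n ∈ Finset.Icc 1 ⌊Real.exp y⌋₊, ‖(n : ℂ) ^ (-s)‖ ≤ 1 := by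
        intro n hn
        have hn1 : 1 ≤ n := (Finset.mem_Icc.1 hn).1
        rw [Complex.norm_natCast_cpow_of_pos (by omega)]
        apply Real.rpow_le_one_of_one_le_of_nonpos (by exact_mod_cast hn1)
        rw [Complex.neg_re]
        linarith
      refine (Finset.sum_le_sum h2).trans ?_
      simp only [Finset.sum_const, Nat.card_Icc, add_tsub_cancel_right, nsmul_eq_mul, mul_one]
      exact Nat.floor_le (Real.exp_pos y).le
    have e2 : ‖riemannZeta s‖ ≤ ‖riemannZeta s‖ * Real.exp y :=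
      le_mul_of_one_le_right (norm_nonneg _) (Real.one_le_exp hy0.le)
    have e3 : ‖cexp ((1 - s) * y) / (1 - s)‖ ≤ Real.exp y := by
      have h3 : 1 ≤ ‖1 - s‖ := by
        have := Complex.abs_im_le_norm (1 - s)
        simp only [Complex.sub_im, Complex.one_im, zero_sub, abs_neg] at this
        exact ht.trans ((le_abs_self _).trans this)
      rw [norm_div, Complex.norm_exp]
      refine (div_le_self (Real.exp_pos _).le h3).trans ?_
      apply Real.exp_le_exp.2
      have : ((1 - s) * (y : ℂ)).re = (1 - s.re) * y := by simp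
      rw [this]
      nlinarith
    have := norm_sub_le (ps s (Real.exp y) - riemannZeta s) (cexp ((1 - s) * y) / (1 - s))
    have h4 := norm_sub_le (ps s (Real.exp y)) (riemannZeta s)
    linarith
  · rw [indicator_of_notMem hy, norm_zero]
    positivity

theorem ff_integrable {s : ℂ} (h0 : 1 / 2 ≤ s.re) (h1 : s.re < 1) (ht : 1 ≤ s.im) :
    Integrable (fun y : ℝ => ff s y * Real.exp (-(2 - s.re) * y)) := by
  have i1 : IntegrableOn (fun y : ℝ => (2 + ‖riemannZeta s‖) * Real.exp (-(1 - s.re) * y))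
      (Ioi 0) := (integrableOn_exp_mul_Ioi (by linarith : -(1 - s.re) < 0) 0).const_mul _
  rw [← integrable_indicator_iff measurableSet_Ioi] at i1
  have hm : AEStronglyMeasurable (fun y : ℝ => ff s y * (Real.exp (-(2 - s.re) * y) : ℂ))
      volume := by
    refine ((measurable_ff s).mul ?_).aestronglyMeasurable
    exact (by fun_prop : Continuous fun y : ℝ => ((Real.exp (-(2 - s.re) * y) : ℝ) : ℂ)).measurable
  refine i1.mono' hm (ae_of_all _ fun y => ?_)
  by_cases hy : y ∈ Ioi (0 : ℝ)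
  · rw [indicator_of_mem hy, norm_mul, Complex.norm_real, Real.norm_of_nonneg (Real.exp_pos _).le]
    calc ‖ff s y‖ * Real.exp (-(2 - s.re) * y)
        ≤ ((2 + ‖riemannZeta s‖) * Real.exp y) * Real.exp (-(2 - s.re) * y) := by
          gcongr
          exact ff_bound h0 h1 ht y
      _ = (2 + ‖riemannZeta s‖) * Real.exp (-(1 - s.re) * y) := by
          rw [mul_assoc, ← Real.exp_add]
          congr 2
          ring
  · rw [indicator_of_notMem hy]
    unfold ff
    rw [indicator_of_notMem hy]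
    simp

end Pool.Agent.Lib.MP_bc6037_nt.FO
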