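import Pool.Agent.Lib.MP_bc6037_nt.FO.Defs
import Pool.Agent.Lib.MP_bc6037_nt.DeltaMellin

set_option autoImplicit false

/-!
# Module Lap2 (50 min): Laplace transform of `ff s`

For `1/2 ≤ Re s < 1`, `Im s ≥ 1` and `Re z = 2 - Re s` (so `Re z > 1`, `Re(s+z) = 2`):
`∫ ff s y e^{-zy} dy = FL s z`.

PROOF. `∫_0^∞ ps s (e^y) e^{-zy} dy = ∫_1^∞ ps s x x^{-z-1} dx = ζ(s+z)/z`: Mathlib's
`LSeries_eq_mul_integral` for the sequence `n ↦ n^{-s}` (partial sums `O(x)`, `Re z > 1`), whose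
L-series at `z` is `ζ(s+z)` (`zeta_eq_tsum_one_div_nat_cpow`); see `DeltaMellin.lean` (`mellin_D`,
`integral_Ioi_one`, `exp_cpow`) for the same computation with `D k`. The other two terms are
`∫_0^∞ e^{-zy} = 1/z` and `∫_0^∞ e^{(1-s-z)y} dy = 1/(z-(1-s))` (`Re z > 1/2 ≥ Re(1-s)`).
-/

open MeasureTheory Complex Filter Set

namespace Pool.Agent.Lib.MP_bc6037_nt.FO

namespace Lap2

lemma measurable_ps (s : ℂ) : Measurable (ps s) := by
  have h : ps s = (fun n : ℕ => ∑ k ∈ Finset.Icc 1 n, (k : ℂ) ^ (-s)) ∘ fun x : ℝ => ⌊x⌋₊ := rfl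
  rw [h]
  exact (measurable_from_nat).comp Nat.measurable_floor

lemma norm_term_le {s : ℂ} (hs : 0 ≤ s.re) {n : ℕ} (hn : 1 ≤ n) : ‖(n : ℂ) ^ (-s)‖ ≤ 1 := by
  rw [Complex.norm_natCast_cpow_of_pos (by omega)]
  exact Real.rpow_le_one_of_one_le_of_nonpos (by exact_mod_cast hn) (by simpa using hs)

lemma norm_ps_le {s : ℂ} (hs : 0 ≤ s.re) {x : ℝ} (hx : 0 ≤ x) : ‖ps s x‖ ≤ x := by
  unfold ps
  calc ‖∑ n ∈ Finset.Icc 1 ⌊x⌋₊, (n : ℂ) ^ (-s)‖
      ≤ ∑ n ∈ Finset.Icc 1 ⌊x⌋₊, ‖(n : ℂ) ^ (-s)‖ := norm_sum_le _ _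
    _ ≤ ∑ n ∈ Finset.Icc 1 ⌊x⌋₊, (1 : ℝ) :=
        Finset.sum_le_sum fun n hn => norm_term_le hs (Finset.mem_Icc.mp hn).1
    _ = (⌊x⌋₊ : ℝ) := by simp
    _ ≤ x := Nat.floor_le hx

lemma lseries_eq {s z : ℂ} (h : 1 < (s + z).re) :
    LSeries (fun n : ℕ => (n : ℂ) ^ (-s)) z = riemannZeta (s + z) := by
  rw [zeta_eq_tsum_one_div_nat_cpow h, LSeries]
  refine tsum_congr fun n => ?_
  rcases Nat.eq_zero_or_pos n with rfl | hn
  · have hsz : s + z ≠ 0 := by
      intro h0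
      rw [h0, Complex.zero_re] at h
      linarith
    rw [LSeries.term_zero, Nat.cast_zero, Complex.zero_cpow hsz, div_zero]
  · rw [LSeries.term_of_ne_zero hn.ne']
    have hn0 : (n : ℂ) ≠ 0 := by exact_mod_cast hn.ne'
    rw [Complex.cpow_neg, Complex.cpow_add _ _ hn0]
    field_simp

lemma mellin_ps {s z : ℂ} (h0 : 0 < s.re) (hz : 1 < z.re) :
    ∫ x in Ioi (1 : ℝ), ps s x * (x : ℂ) ^ (-(z + 1)) = riemannZeta (s + z) / z := by
  have hz0 : z ≠ 0 := by
    rintro rfl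
    simp only [Complex.zero_re] at hz
    linarith
  have hO : (fun n : ℕ => ∑ k ∈ Finset.Icc 1 n, ‖((k : ℂ) ^ (-s))‖) =O[atTop]
      fun n : ℕ => (n : ℝ) ^ (1 : ℝ) := by
    rw [Asymptotics.isBigO_iff]
    refine ⟨1, Eventually.of_forall fun n => ?_⟩
    rw [Real.norm_of_nonneg (Finset.sum_nonneg fun _ _ => norm_nonneg _), Real.rpow_one,
      Real.norm_of_nonneg (Nat.cast_nonneg _), one_mul]
    calc ∑ k ∈ Finset.Icc 1 n, ‖((k : ℂ) ^ (-s))‖ ≤ ∑ k ∈ Finset.Icc 1 n, (1 : ℝ) :=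
          Finset.sum_le_sum fun k hk => norm_term_le h0.le (Finset.mem_Icc.mp hk).1
      _ = n := by simp
  have h2 := LSeries_eq_mul_integral' (fun n : ℕ => (n : ℂ) ^ (-s)) zero_le_one hz hO
  rw [lseries_eq (by rw [Complex.add_re]; linarith)] at h2
  rw [h2, mul_div_cancel_left₀ _ hz0]
  rfl

lemma integrable_exp {a : ℂ} (ha : 0 < a.re) :
    IntegrableOn (fun y : ℝ => cexp (-a * y)) (Ioi 0) := by
  exact integrableOn_exp_mul_complex_Ioi (by simpa using ha) 0

lemma integral_exp {a : ℂ} (ha : 0 < a.re) :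
    ∫ y in Ioi (0 : ℝ), cexp (-a * y) = 1 / a := by
  have := integral_exp_mul_complex_Ioi (a := -a) (by simpa using ha) 0
  rw [this]
  simp

lemma integrable_ps {s z : ℂ} (h0 : 0 < s.re) (hz : 1 < z.re) :
    IntegrableOn (fun y : ℝ => ps s (Real.exp y) * cexp (-z * y)) (Ioi 0) := by
  have h1 : IntegrableOn (fun y : ℝ => Real.exp (-(z.re - 1) * y)) (Ioi 0) :=
    integrableOn_exp_mul_Ioi (by linarith) 0
  refine h1.mono' ?_ ?_
  · refine Measurable.aestronglyMeasurable ?_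
    refine ((measurable_ps s).comp Real.measurable_exp).mul ?_
    exact (Complex.continuous_exp.comp (continuous_const.mul Complex.continuous_ofReal)).measurable
  · filter_upwards with y
    rw [norm_mul, Complex.norm_exp]
    have e : (-z * (y : ℂ)).re = -z.re * y := by simp
    rw [e]
    calc ‖ps s (Real.exp y)‖ * Real.exp (-z.re * y)
        ≤ Real.exp y * Real.exp (-z.re * y) :=
          mul_le_mul_of_nonneg_right (norm_ps_le h0.le (Real.exp_pos y).le) (Real.exp_pos _).le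
      _ = Real.exp (-(z.re - 1) * y) := by
          rw [← Real.exp_add]; congr 1; ring

lemma integral_ps {s z : ℂ} (h0 : 0 < s.re) (hz : 1 < z.re) :
    ∫ y in Ioi (0 : ℝ), ps s (Real.exp y) * cexp (-z * y) = riemannZeta (s + z) / z := by
  rw [← mellin_ps h0 hz, DeltaMellin.integral_Ioi_one]
  refine setIntegral_congr_fun measurableSet_Ioi fun y _ => ?_
  change _ = Real.exp y • (ps s (Real.exp y) * ((Real.exp y : ℝ) : ℂ) ^ (-(z + 1)))
  rw [DeltaMellin.exp_cpow, Complex.real_smul, Complex.ofReal_exp]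
  have : cexp (-z * y) = cexp y * cexp (-(z + 1) * y) := by
    rw [← Complex.exp_add]; congr 1; ring
  rw [this]
  ring

end Lap2

open Lap2

theorem ff_laplace {s : ℂ} (h0 : 1 / 2 ≤ s.re) (h1 : s.re < 1) (ht : 1 ≤ s.im) {z : ℂ}
    (hz : z.re = 2 - s.re) :
    ∫ y : ℝ, ff s y * cexp (-z * y) = FL s z := by
  have hs : 0 < s.re := by linarith
  have hz1 : 1 < z.re := by linarith
  have hs1 : (1 : ℂ) - s ≠ 0 := by
    intro h
    have := congrArg Complex.im h
    simp at this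
    linarith
  have hd : 0 < (z - (1 - s)).re := by
    simp only [Complex.sub_re, Complex.one_re]
    linarith
  have e1 : ∀ y : ℝ, ff s y * cexp (-z * y) = (Ioi (0 : ℝ)).indicator
      (fun y : ℝ => (ps s (Real.exp y) - riemannZeta s - cexp ((1 - s) * y) / (1 - s))
        * cexp (-z * y)) y := by
    intro y
    unfold ff
    by_cases hy : y ∈ Ioi (0 : ℝ)
    · rw [indicator_of_mem hy, indicator_of_mem hy]
    · rw [indicator_of_notMem hy, indicator_of_notMem hy, zero_mul]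
  simp_rw [e1]
  rw [integral_indicator measurableSet_Ioi]
  have e2 : ∀ y : ℝ, (ps s (Real.exp y) - riemannZeta s - cexp ((1 - s) * y) / (1 - s))
        * cexp (-z * y) = ps s (Real.exp y) * cexp (-z * y)
          - riemannZeta s * cexp (-z * y) - (1 / (1 - s)) * cexp (-(z - (1 - s)) * y) := by
    intro y
    have : cexp (-(z - (1 - s)) * y) = cexp ((1 - s) * y) * cexp (-z * y) := by
      rw [← Complex.exp_add]; congr 1; ring
    rw [this]
    ring
  simp_rw [e2]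
  have i1 := integrable_ps (z := z) hs hz1
  have i2 : IntegrableOn (fun y : ℝ => riemannZeta s * cexp (-z * y)) (Ioi 0) :=
    (integrable_exp (by linarith : 0 < z.re)).const_mul _
  have i3 : IntegrableOn (fun y : ℝ => (1 / (1 - s)) * cexp (-(z - (1 - s)) * y)) (Ioi 0) :=
    (integrable_exp hd).const_mul _
  have i12 : IntegrableOn (fun y : ℝ => ps s (Real.exp y) * cexp (-z * y)
      - riemannZeta s * cexp (-z * y)) (Ioi 0) := i1.sub i2
  rw [integral_sub i12 i3, integral_sub i1 i2, integral_ps hs hz1,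
    integral_const_mul, integral_const_mul, integral_exp (by linarith : 0 < z.re), integral_exp hd]
  unfold FL
  have hz0 : z ≠ 0 := by
    rintro rfl
    simp only [Complex.zero_re] at hz1
    linarith
  have hd0 : z - (1 - s) ≠ 0 := by
    intro h
    rw [h] at hd
    simp at hd
  field_simp

end Pool.Agent.Lib.MP_bc6037_nt.FO
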