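import Pool.Agent.Lib.MP_bc6037_nt.Smooth

set_option autoImplicit false

/-!
# Module SmC (25 min): inversion formula for a smoothed complex function

PROOF. Copy `Perron.smooth_eq` (Smooth.lean) with `δ = 1`, a complex valued `f` and a general
abscissa `0 ≤ b ≤ 2` instead of `2` (`kd 1 v = psi v`, so use `psi` directly; the decay of `KK` on the
line `b` is `KK_decay 2`). `g y = f y * exp(-b y)`, `k v = psi v * exp(-b v)`, `h = g ⋆ k`,
Fourier inversion for `h` (its transform `F(b+2πiξ) KK(b+2πiξ)` is integrable since `F` is bounded by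
`∫ ‖g‖` and `KK` decays).
-/

open MeasureTheory Complex Filter Set

namespace Pool.Agent.Lib.MP_bc6037_nt.FO

open Perron

theorem smooth_complex {f : ℝ → ℂ} {F : ℂ → ℂ} {b : ℝ} (hb0 : 0 ≤ b) (hb2 : b ≤ 2)
    (hf : Integrable (fun y : ℝ => f y * Real.exp (-b * y)))
    (hF : ∀ u : ℝ, ∫ y : ℝ, f y * cexp (-(b + u * I) * y) = F (b + u * I)) (y : ℝ) :
    ∫ v : ℝ, f (y - v) * (psi v : ℂ) =
      (1 / (2 * Real.pi)) * ∫ u : ℝ, F (b + u * I) * KK (b + u * I) * cexp ((b + u * I) * y) := by
  set g : ℝ → ℂ := fun y => f y * Real.exp (-b * y) with hg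
  set k : ℝ → ℂ := fun v => ((psi v * Real.exp (-b * v) : ℝ) : ℂ) with hk
  have hgi : Integrable g := hf
  have hkc : Continuous k := by
    apply Complex.continuous_ofReal.comp
    exact psi_continuous.mul (by fun_prop)
  have hkcs : HasCompactSupport k := by
    refine HasCompactSupport.intro (isCompact_Icc (a := (-1 : ℝ)) (b := 0)) (fun v hv => ?_)
    simp only [hk]
    rw [psi_eq_zero hv]; simp
  have hki : Integrable k := hkc.integrable_of_hasCompactSupport hkcs
  set h : ℝ → ℂ := convolution g k (ContinuousLinearMap.mul ℂ ℂ) volume with hh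
  have hhi : Integrable h := hgi.integrable_convolution (ContinuousLinearMap.mul ℂ ℂ) hki
  have hhc : Continuous h :=
    hkcs.continuous_convolution_right (ContinuousLinearMap.mul ℂ ℂ) hgi.locallyIntegrable hkc
  have Fg : ∀ ξ : ℝ, FourierTransform.fourier g ξ = F (b + ((2 * Real.pi * ξ : ℝ) : ℂ) * I) := by
    intro ξ
    rw [← hF, Real.fourier_real_eq_integral_exp_smul]
    congr 1
    funext v
    simp only [hg, smul_eq_mul]
    push_cast
    rw [mul_comm, mul_assoc, ← Complex.exp_add]
    congr 2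
    ring
  have Fk : ∀ ξ : ℝ, FourierTransform.fourier k ξ =
      KK (b + ((2 * Real.pi * ξ : ℝ) : ℂ) * I) := by
    intro ξ
    rw [KK, Real.fourier_real_eq_integral_exp_smul]
    congr 1
    funext v
    simp only [hk, smul_eq_mul]
    push_cast
    rw [mul_comm, mul_assoc, ← Complex.exp_add]
    congr 2
    ring
  have Fh : ∀ ξ : ℝ, FourierTransform.fourier h ξ =
      F (b + ((2 * Real.pi * ξ : ℝ) : ℂ) * I) *
        KK (b + ((2 * Real.pi * ξ : ℝ) : ℂ) * I) := by
    intro ξ
    rw [hh, Real.fourier_mul_convolution_eq hgi hki, Fg, Fk]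
  have hFhi : Integrable (FourierTransform.fourier h) := by
    obtain ⟨C, hC, hCb⟩ := KK_decay 2
    have hbd : ∀ ξ : ℝ, ‖FourierTransform.fourier h ξ‖ ≤
        (∫ y, ‖g y‖) * C * (1 + ‖ξ‖) ^ (-2 : ℝ) := by
      intro ξ
      rw [Fh, norm_mul]
      have hassoc : (∫ y, ‖g y‖) * C * (1 + ‖ξ‖) ^ (-2 : ℝ) =
        (∫ y, ‖g y‖) * (C * (1 + ‖ξ‖) ^ (-2 : ℝ)) := mul_assoc _ _ _
      rw [hassoc]
      apply mul_le_mul _ _ (norm_nonneg _) (by positivity)
      · rw [← Fg ξ]
        exact VectorFourier.norm_fourierIntegral_le_integral_norm _ _ _ _ _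
      · have := hCb (b + ((2 * Real.pi * ξ : ℝ) : ℂ) * I) (by simpa using hb0)
          (by simpa using hb2)
        refine this.trans ?_
        apply mul_le_mul_of_nonneg_left _ hC.le
        have him : (b + ((2 * Real.pi * ξ : ℝ) : ℂ) * I).im = 2 * Real.pi * ξ := by simp
        have h1 := Complex.abs_im_le_norm (b + ((2 * Real.pi * ξ : ℝ) : ℂ) * I)
        rw [him, abs_mul, abs_of_pos (by positivity : (0:ℝ) < 2 * Real.pi)] at h1
        have hpi : (1 : ℝ) ≤ 2 * Real.pi := by linarith [Real.pi_gt_three]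
        norm_num only [Nat.cast_ofNat]
        apply Real.rpow_le_rpow_of_nonpos (by positivity) _ (by norm_num)
        rw [Real.norm_eq_abs]
        nlinarith [abs_nonneg ξ]
    have hdec : Integrable (fun ξ : ℝ => (∫ y, ‖g y‖) * C * (1 + ‖ξ‖) ^ (-2 : ℝ)) := by
      apply Integrable.const_mul
      exact integrable_one_add_norm (E := ℝ) (μ := volume) (r := 2) (by simp)
    refine hdec.mono' ?_ (ae_of_all _ hbd)
    exact (VectorFourier.fourierIntegral_continuous Real.continuous_fourierChar
      (by exact continuous_inner) hhi).aestronglyMeasurable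
  have hinv := hhi.fourierInv_fourier_eq hFhi hhc.continuousAt (v := y)
  have hsm : ∫ v : ℝ, f (y - v) * (psi v : ℂ) = cexp (b * y) * h y := by
    have e1 : h y = ∫ v, g (y - v) * k v := by
      rw [hh]
      rw [convolution_eq_swap]
      rfl
    rw [e1, ← integral_const_mul]
    congr 1
    funext v
    simp only [hg, hk]
    push_cast
    have e2 : cexp (b * y) * (f (y - v) * cexp (-b * (y - v)) * (↑(psi v) * cexp (-b * v))) =
        f (y - v) * ↑(psi v) * (cexp (b * y) * cexp (-b * (y - v)) * cexp (-b * v)) := by ring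
    rw [e2, ← Complex.exp_add, ← Complex.exp_add]
    have e3 : (b : ℂ) * (y : ℂ) + -b * (y - v) + -b * v = 0 := by ring
    rw [e3, Complex.exp_zero, mul_one]
  rw [hsm, ← hinv, Real.fourierInv_eq']
  have hchange := MeasureTheory.Measure.integral_comp_mul_left
    (fun t : ℝ => F (b + t * I) * KK (b + t * I) * cexp (t * I * y)) (2 * Real.pi)
  have e4 : ∫ v : ℝ, cexp (((2 * Real.pi * inner ℝ v y : ℝ) : ℂ) * I) •
      FourierTransform.fourier h v =
      ∫ v : ℝ, F (b + ((2 * Real.pi * v : ℝ) : ℂ) * I) *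
        KK (b + ((2 * Real.pi * v : ℝ) : ℂ) * I) *
        cexp (((2 * Real.pi * v : ℝ) : ℂ) * I * y) := by
    congr 1
    funext v
    rw [Fh, smul_eq_mul, mul_comm]
    congr 2
    have hin : (inner ℝ v y : ℝ) = v * y := by simp [mul_comm]
    rw [hin]
    push_cast
    ring
  rw [e4, hchange, ← integral_const_mul]
  have hpi : |(2 * Real.pi)⁻¹| = (2 * Real.pi)⁻¹ := abs_of_pos (by positivity)
  rw [hpi, Complex.real_smul, ← integral_const_mul, ← integral_const_mul]
  congr 1
  funext t
  have e5 : cexp ((b + t * I) * y) = cexp (b * y) * cexp (t * I * y) := by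
    rw [← Complex.exp_add]; congr 1; ring
  rw [e5]
  push_cast
  ring

end Pool.Agent.Lib.MP_bc6037_nt.FO
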