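import Pool.Agent.Lib.MP_bc6037_nt.FO.KKneg
import Pool.Agent.Lib.MP_bc6037_nt.FO.SmC
import Pool.Agent.Lib.MP_bc6037_nt.FO.Lap1
import Pool.Agent.Lib.MP_bc6037_nt.FO.Lap2
import Pool.Agent.Lib.MP_bc6037_nt.FO.G1
import Pool.Agent.Lib.MP_bc6037_nt.FO.G2
import Pool.Agent.Lib.MP_bc6037_nt.FO.G3

set_option autoImplicit false

/-!
# Module AF2 (45 min): bound for the smoothed error term

PROOF. `s = σ+it`, `b = 2-σ ∈ (1, 3/2]`, `a = -1-σ ∈ [-2,-3/2]`, `G` from `exists_entire`.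
`smooth_complex` (with `ff_integrable`, `ff_laplace`; on the line `b` one has `z ≠ 0`, `z ≠ 1-s` so
`FL s z = G z`): the left side is `(1/2π) ∫ G(b+iu) KK(b+iu) e^{(b+iu)y} du`. `Perron.shift_line` for
`z ↦ G z KK z e^{zy}` on `a ≤ Re z ≤ b` (`strip_growth`, `KK_decay_neg 5`, `KK_differentiable`,
`|e^{zy}| ≤ e^{2y}` as `y > 0`): it equals `(1/2π) ∫ G(a+iu) KK(a+iu) e^{(a+iu)y} du`, on the line `a`
again `G = FL s`, and `line_bound`, `KK_decay_neg 4` give
`≤ C t^{3/2} e^{-(1+σ)y} ∫ C' (1+|u|)^{2-4} du`.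
-/

open MeasureTheory Complex Filter Set

namespace Pool.Agent.Lib.MP_bc6037_nt.FO

open Perron

theorem smoothed_bound {σ : ℝ} (h0 : 1 / 2 ≤ σ) (h1 : σ < 1) : ∃ C : ℝ, 0 ≤ C ∧
    ∀ t : ℝ, 1 ≤ t → ∀ y : ℝ, 0 < y →
      ‖∫ v : ℝ, ff (σ + t * I) (y - v) * (psi v : ℂ)‖ ≤
        C * t ^ (3 / 2 : ℝ) * Real.exp (-(1 + σ) * y) := by
  obtain ⟨C1, hC1, hline⟩ := line_bound h0 h1
  obtain ⟨C4, hC4, hK4⟩ := KK_decay_neg 4
  obtain ⟨C5, hC5, hK5⟩ := KK_decay_neg 5
  have hint : Integrable (fun u : ℝ => (1 + |u|) ^ (-2 : ℝ)) := by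
    have := integrable_one_add_norm (E := ℝ) (μ := volume) (r := 2) (by simp)
    simpa using this
  have hJ : 0 ≤ ∫ u : ℝ, (1 + |u|) ^ (-2 : ℝ) := integral_nonneg fun u => by positivity
  refine ⟨1 / (2 * Real.pi) * (C1 * C4 * ∫ u : ℝ, (1 + |u|) ^ (-2 : ℝ)), by positivity,
    fun t ht y hy => ?_⟩
  set s : ℂ := (σ : ℂ) + t * I with hs
  have hsre : s.re = σ := by simp [hs]
  have hsim : s.im = t := by simp [hs]
  have hs1 : s ≠ 1 := by
    intro h
    have := congrArg Complex.im h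
    rw [hsim] at this
    simp at this
    linarith
  have hsr0 : 1 / 2 ≤ s.re := by rw [hsre]; exact h0
  have hsr1 : s.re < 1 := by rw [hsre]; exact h1
  have hsi : 1 ≤ s.im := by rw [hsim]; exact ht
  obtain ⟨G, hGd, hG⟩ := exists_entire hs1
  obtain ⟨B, hB, hgrow⟩ := strip_growth hsr0 hsr1 hsi hGd hG
  -- the line `b`
  have hbre : ∀ u : ℝ, (((2 - σ : ℝ) : ℂ) + u * I).re = 2 - σ := fun u => by simp
  have hare : ∀ u : ℝ, (((-1 - σ : ℝ) : ℂ) + u * I).re = -1 - σ := fun u => by simp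
  have haim : ∀ u : ℝ, (((-1 - σ : ℝ) : ℂ) + u * I).im = u := fun u => by simp
  have h1sre : (1 - s).re = 1 - σ := by
    rw [Complex.sub_re, hsre, Complex.one_re]
  have hGb : ∀ u : ℝ, G (((2 - σ : ℝ) : ℂ) + u * I) = FL s (((2 - σ : ℝ) : ℂ) + u * I) := by
    intro u
    apply hG
    · intro h
      have := congrArg Complex.re h
      rw [hbre, Complex.zero_re] at this
      linarith
    · intro h
      have := congrArg Complex.re h
      rw [hbre, h1sre] at this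
      linarith
  have hGa : ∀ u : ℝ, G (((-1 - σ : ℝ) : ℂ) + u * I) = FL s (((-1 - σ : ℝ) : ℂ) + u * I) := by
    intro u
    apply hG
    · intro h
      have := congrArg Complex.re h
      rw [hare, Complex.zero_re] at this
      linarith
    · intro h
      have := congrArg Complex.re h
      rw [hare, h1sre] at this
      linarith
  have hf : Integrable (fun y : ℝ => ff s y * Real.exp (-(2 - σ) * y)) := by
    have := ff_integrable hsr0 hsr1 hsi
    rw [hsre] at this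
    exact this
  have hF : ∀ u : ℝ, ∫ y : ℝ, ff s y * cexp (-(((2 - σ : ℝ) : ℂ) + u * I) * y) =
      G (((2 - σ : ℝ) : ℂ) + u * I) := by
    intro u
    rw [hGb u]
    exact ff_laplace hsr0 hsr1 hsi (by rw [hbre, hsre])
  have hsm := smooth_complex (f := ff s) (F := G) (b := 2 - σ) (by linarith) (by linarith) hf hF y
  have hshift := shift_line (G := fun z => G z * KK z * cexp (z * y)) (a := -1 - σ) (b := 2 - σ)
    (by linarith) (U := Set.univ) (fun _ _ _ => Set.mem_univ _)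
    (((hGd.mul KK_differentiable).mul (by fun_prop)).differentiableOn) isOpen_univ
    (C := B * C5 * Real.exp (2 * y)) (by
      intro z hz1 hz2
      have hz1' : -1 - s.re ≤ z.re := by rw [hsre]; exact hz1
      have hz2' : z.re ≤ 2 - s.re := by rw [hsre]; exact hz2
      have e1 := hgrow z hz1' hz2'
      have e2 := hK5 z (by linarith) (by linarith)
      have hpos : (0 : ℝ) < 1 + |z.im| := by positivity
      have e3 : (1 + ‖z‖) ^ (-((5 : ℕ) : ℝ)) ≤ (1 + |z.im|) ^ (-((5 : ℕ) : ℝ)) := by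
        refine Real.rpow_le_rpow_of_nonpos hpos ?_ (by norm_num)
        linarith [Complex.abs_im_le_norm z]
      have e4 : ‖cexp (z * y)‖ ≤ Real.exp (2 * y) := by
        rw [Complex.norm_exp]
        apply Real.exp_le_exp.mpr
        have : (z * (y : ℂ)).re = z.re * y := by simp
        rw [this]
        nlinarith
      rw [norm_mul, norm_mul]
      calc ‖G z‖ * ‖KK z‖ * ‖cexp (z * y)‖
          ≤ (B * (1 + |z.im|) ^ (3 : ℝ)) * (C5 * (1 + |z.im|) ^ (-((5 : ℕ) : ℝ))) *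
              Real.exp (2 * y) := by
            refine mul_le_mul (mul_le_mul e1 (e2.trans ?_) (norm_nonneg _) (by positivity)) e4
              (norm_nonneg _) (by positivity)
            exact mul_le_mul_of_nonneg_left e3 hC5.le
        _ = B * C5 * Real.exp (2 * y) *
              ((1 + |z.im|) ^ (3 : ℝ) * (1 + |z.im|) ^ (-((5 : ℕ) : ℝ))) := by ring
        _ = B * C5 * Real.exp (2 * y) * (1 + |z.im|) ^ (-2 : ℝ) := by
            rw [← Real.rpow_add hpos]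
            norm_num)
  rw [hsm, ← hshift, norm_mul]
  have hpre : ‖(1 / (2 * Real.pi) : ℂ)‖ = 1 / (2 * Real.pi) := by
    rw [norm_div, norm_mul, norm_one, Complex.norm_real, Real.norm_of_nonneg Real.pi_pos.le]
    simp
  rw [hpre]
  have hbound : ‖∫ u : ℝ, G (((-1 - σ : ℝ) : ℂ) + u * I) * KK (((-1 - σ : ℝ) : ℂ) + u * I) *
      cexp ((((-1 - σ : ℝ) : ℂ) + u * I) * y)‖ ≤
      ∫ u : ℝ, (C1 * C4 * t ^ (3 / 2 : ℝ) * Real.exp (-(1 + σ) * y)) * (1 + |u|) ^ (-2 : ℝ) := by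
    refine norm_integral_le_of_norm_le (hint.const_mul _) (Filter.Eventually.of_forall fun u => ?_)
    have hpos : (0 : ℝ) < 1 + |u| := by positivity
    have e1 : ‖G (((-1 - σ : ℝ) : ℂ) + u * I)‖ ≤ C1 * t ^ (3 / 2 : ℝ) * (1 + |u|) ^ (2 : ℝ) := by
      rw [hGa u]
      exact hline t ht u
    have e2 : ‖KK (((-1 - σ : ℝ) : ℂ) + u * I)‖ ≤ C4 * (1 + |u|) ^ (-((4 : ℕ) : ℝ)) := by
      refine (hK4 _ (by rw [hare]; linarith) (by rw [hare]; linarith)).trans ?_
      refine mul_le_mul_of_nonneg_left ?_ hC4.le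
      refine Real.rpow_le_rpow_of_nonpos hpos ?_ (by norm_num)
      have := Complex.abs_im_le_norm (((-1 - σ : ℝ) : ℂ) + u * I)
      rw [haim] at this
      linarith
    have e3 : ‖cexp ((((-1 - σ : ℝ) : ℂ) + u * I) * y)‖ = Real.exp (-(1 + σ) * y) := by
      rw [Complex.norm_exp]
      congr 1
      have : ((((-1 - σ : ℝ) : ℂ) + u * I) * (y : ℂ)).re = (-1 - σ) * y := by
        rw [Complex.mul_re, hare, haim]
        simp
      rw [this]
      ring
    rw [norm_mul, norm_mul, e3]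
    calc ‖G (((-1 - σ : ℝ) : ℂ) + u * I)‖ * ‖KK (((-1 - σ : ℝ) : ℂ) + u * I)‖ *
          Real.exp (-(1 + σ) * y)
        ≤ (C1 * t ^ (3 / 2 : ℝ) * (1 + |u|) ^ (2 : ℝ)) * (C4 * (1 + |u|) ^ (-((4 : ℕ) : ℝ))) *
            Real.exp (-(1 + σ) * y) := by
          refine mul_le_mul_of_nonneg_right ?_ (Real.exp_pos _).le
          exact mul_le_mul e1 e2 (norm_nonneg _) (by positivity)
      _ = (C1 * C4 * t ^ (3 / 2 : ℝ) * Real.exp (-(1 + σ) * y)) *
            ((1 + |u|) ^ (2 : ℝ) * (1 + |u|) ^ (-((4 : ℕ) : ℝ))) := by ring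
      _ = (C1 * C4 * t ^ (3 / 2 : ℝ) * Real.exp (-(1 + σ) * y)) * (1 + |u|) ^ (-2 : ℝ) := by
          rw [← Real.rpow_add hpos]
          norm_num
  rw [integral_const_mul] at hbound
  calc 1 / (2 * Real.pi) * ‖∫ u : ℝ, G (((-1 - σ : ℝ) : ℂ) + u * I) *
        KK (((-1 - σ : ℝ) : ℂ) + u * I) * cexp ((((-1 - σ : ℝ) : ℂ) + u * I) * y)‖
      ≤ 1 / (2 * Real.pi) * ((C1 * C4 * t ^ (3 / 2 : ℝ) * Real.exp (-(1 + σ) * y)) *
          ∫ u : ℝ, (1 + |u|) ^ (-2 : ℝ)) :=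
        mul_le_mul_of_nonneg_left hbound (by positivity)
    _ = 1 / (2 * Real.pi) * (C1 * C4 * ∫ u : ℝ, (1 + |u|) ^ (-2 : ℝ)) * t ^ (3 / 2 : ℝ) *
          Real.exp (-(1 + σ) * y) := by ring

end Pool.Agent.Lib.MP_bc6037_nt.FO
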