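import Pool.Agent.Lib.MP_bc6037_nt.FO.AF1
import Pool.Agent.Lib.MP_bc6037_nt.FO.AF2

set_option autoImplicit false

/-!
# Module AF (40 min): approximation of `ζ(σ+it)`, `T ≤ t ≤ 2T`, by a sum of length `T`

PROOF. For `T ≤ 3` take `φ = 0` (`Perron.norm_zeta_le`: `|ζ(σ+it)| ≤ C t ≤ 6C`). For `T > 3` put
`y = log T - 1 > 0`, so `e^{y+1} = T`, and take the weights of `weights`. Then
`|ζ(s) - ∑ φ n n^{-s}| ≤ |∫ ff s (y-v) psi v dv| + |e^{(1-s)y} KK(1-s)/(1-s)|`. The first term is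
`≤ C (2T)^{3/2} (T/e)^{-(1+σ)} ≤ C' T^{1/2-σ} ≤ C'`; the second one `≤ T^{1-σ} C (1+T)^{-1} ≤ C`
(`Perron.KK_decay 1` on `0 ≤ Re(1-s) ≤ 1/2`, `|Im| = t ≥ T`, `|1-s| ≥ 1`).
-/

open MeasureTheory Complex Filter Set

namespace Pool.Agent.Lib.MP_bc6037_nt.FO

open Perron

theorem approx {σ : ℝ} (h0 : 1 / 2 ≤ σ) (h1 : σ < 1) : ∃ C : ℝ, 0 ≤ C ∧ ∀ T : ℝ, 1 ≤ T →
    ∃ φ : ℕ → ℝ, (∀ n, 0 ≤ φ n) ∧ (∀ n, φ n ≤ 1) ∧ ∀ t : ℝ, T ≤ t → t ≤ 2 * T →
      ‖riemannZeta (σ + t * I) -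
        ∑ n ∈ Finset.Icc 1 ⌊T⌋₊, (φ n : ℂ) * (n : ℂ) ^ (-((σ : ℂ) + t * I))‖ ≤ C := by
  obtain ⟨C0, hC0, hz⟩ := norm_zeta_le (by norm_num : (0 : ℝ) < 1 / 2)
  obtain ⟨C1, hC1, hs⟩ := smoothed_bound h0 h1
  obtain ⟨C2, hC2, hk⟩ := KK_decay 1
  refine ⟨6 * C0 + (C1 * ((2 : ℝ) ^ (3 / 2 : ℝ) * Real.exp (3 / 2)) + C2), by positivity,
    fun T hT => ?_⟩
  rcases le_or_gt T 3 with hT3 | hT3
  · refine ⟨fun _ => 0, fun _ => le_rfl, fun _ => zero_le_one, fun t ht1 ht2 => ?_⟩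
    have hre : ((σ : ℂ) + t * I).re = σ := by simp
    have him : ((σ : ℂ) + t * I).im = t := by simp
    have ht0 : 1 ≤ t := by linarith
    have h := hz (σ + t * I) (by rw [hre]; exact h0) (by rw [hre]; linarith)
      (by rw [him, abs_of_pos (by linarith)]; exact ht0)
    rw [him, abs_of_pos (by linarith)] at h
    simp only [Complex.ofReal_zero, zero_mul, Finset.sum_const_zero, sub_zero]
    have h2 : C0 * t ≤ C0 * 6 := mul_le_mul_of_nonneg_left (by linarith) hC0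
    have h3 : 0 ≤ C1 * ((2 : ℝ) ^ (3 / 2 : ℝ) * Real.exp (3 / 2)) + C2 := by positivity
    linarith
  · have hT0 : 0 < T := by linarith
    set y : ℝ := Real.log T - 1 with hy
    have hy0 : 0 < y := by
      have : Real.log (Real.exp 1) < Real.log T :=
        Real.log_lt_log (Real.exp_pos 1) (by linarith [Real.exp_one_lt_d9])
      rw [Real.log_exp] at this
      linarith
    have hexp : Real.exp (y + 1) = T := by
      rw [hy, sub_add_cancel, Real.exp_log hT0]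
    obtain ⟨φ, hφ0, hφ1, hφ⟩ := weights hy0
    refine ⟨φ, hφ0, hφ1, fun t ht1 ht2 => ?_⟩
    have ht0 : 1 ≤ t := by linarith
    set s : ℂ := (σ : ℂ) + t * I with hsdef
    have hre : s.re = σ := by simp [hsdef]
    have him : s.im = t := by simp [hsdef]
    have h := hφ s (by rw [hre]; exact h0) (by rw [hre]; exact h1) (by rw [him]; exact ht0)
    rw [hexp] at h
    have hb := hs t ht0 y hy0
    rw [← hsdef] at hb
    have e : riemannZeta s - ∑ n ∈ Finset.Icc 1 ⌊T⌋₊, (φ n : ℂ) * (n : ℂ) ^ (-s)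
        = -(∫ v : ℝ, ff s (y - v) * (psi v : ℂ)) - cexp ((1 - s) * y) * KK (1 - s) / (1 - s) := by
      rw [h]; ring
    rw [e]
    -- first term
    have hb1 : C1 * t ^ (3 / 2 : ℝ) * Real.exp (-(1 + σ) * y) ≤
        C1 * ((2 : ℝ) ^ (3 / 2 : ℝ) * Real.exp (3 / 2)) := by
      have a1 : t ^ (3 / 2 : ℝ) ≤ (2 : ℝ) ^ (3 / 2 : ℝ) * T ^ (3 / 2 : ℝ) := by
        rw [← Real.mul_rpow (by norm_num) hT0.le]
        exact Real.rpow_le_rpow (by linarith) ht2 (by norm_num)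
      have a2 : Real.exp (-(1 + σ) * y) ≤ Real.exp (3 / 2) * T ^ (-(3 / 2) : ℝ) := by
        rw [Real.rpow_def_of_pos hT0, ← Real.exp_add]
        apply Real.exp_le_exp.mpr
        have : Real.log T = y + 1 := by rw [hy]; ring
        rw [this]
        nlinarith
      have a3 : T ^ (3 / 2 : ℝ) * T ^ (-(3 / 2) : ℝ) = 1 := by
        rw [← Real.rpow_add hT0]
        norm_num
      calc C1 * t ^ (3 / 2 : ℝ) * Real.exp (-(1 + σ) * y)
          ≤ C1 * ((2 : ℝ) ^ (3 / 2 : ℝ) * T ^ (3 / 2 : ℝ)) *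
            (Real.exp (3 / 2) * T ^ (-(3 / 2) : ℝ)) := by
            apply mul_le_mul (mul_le_mul_of_nonneg_left a1 hC1) a2 (Real.exp_pos _).le
            positivity
        _ = C1 * ((2 : ℝ) ^ (3 / 2 : ℝ) * Real.exp (3 / 2)) * (T ^ (3 / 2 : ℝ) * T ^ (-(3 / 2) : ℝ)) := by
            ring
        _ = C1 * ((2 : ℝ) ^ (3 / 2 : ℝ) * Real.exp (3 / 2)) := by rw [a3, mul_one]
    -- second term
    have hre1 : (1 - s).re = 1 - σ := by rw [Complex.sub_re, Complex.one_re, hre]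
    have him1 : (1 - s).im = -t := by rw [Complex.sub_im, Complex.one_im, him]; ring
    have hnorm : t ≤ ‖1 - s‖ := by
      have := Complex.abs_im_le_norm (1 - s)
      rw [him1, abs_neg, abs_of_pos (by linarith)] at this
      exact this
    have hk1 := hk (1 - s) (by rw [hre1]; linarith) (by rw [hre1]; linarith)
    have hb2 : ‖cexp ((1 - s) * y) * KK (1 - s) / (1 - s)‖ ≤ C2 := by
      rw [norm_div, norm_mul, Complex.norm_exp]
      have e1 : ((1 - s) * (y : ℂ)).re = (1 - σ) * y := by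
        rw [Complex.re_mul_ofReal, hre1]
      rw [e1]
      have a1 : Real.exp ((1 - σ) * y) ≤ T := by
        rw [← hexp]
        apply Real.exp_le_exp.mpr
        nlinarith
      have a2 : ‖KK (1 - s)‖ ≤ C2 / T := by
        refine hk1.trans ?_
        rw [Nat.cast_one, Real.rpow_neg_one, ← div_eq_mul_inv]
        exact div_le_div_of_nonneg_left hC2.le hT0 (by linarith)
      rw [div_le_iff₀ (by linarith)]
      calc Real.exp ((1 - σ) * y) * ‖KK (1 - s)‖ ≤ T * (C2 / T) :=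
            mul_le_mul a1 a2 (norm_nonneg _) hT0.le
        _ = C2 * 1 := by field_simp
        _ ≤ C2 * ‖1 - s‖ := mul_le_mul_of_nonneg_left (by linarith) hC2.le
    calc ‖-(∫ v : ℝ, ff s (y - v) * (psi v : ℂ)) - cexp ((1 - s) * y) * KK (1 - s) / (1 - s)‖
        ≤ ‖-(∫ v : ℝ, ff s (y - v) * (psi v : ℂ))‖ + ‖cexp ((1 - s) * y) * KK (1 - s) / (1 - s)‖ :=
          norm_sub_le _ _
      _ ≤ C1 * ((2 : ℝ) ^ (3 / 2 : ℝ) * Real.exp (3 / 2)) + C2 := by
          rw [norm_neg]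
          exact add_le_add (hb.trans hb1) hb2
      _ ≤ _ := by linarith [mul_nonneg (by norm_num : (0 : ℝ) ≤ 6) hC0]

end Pool.Agent.Lib.MP_bc6037_nt.FO
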