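import Pool.Agent.Lib.MP_bc6037_nt.FO.Lap1
import Pool.Agent.Lib.MP_bc6037_nt.Perron

set_option autoImplicit false

/-!
# Module AF1 (45 min): the smoothed error term is a smoothed sum minus zeta

For `y > 0` there are weights `φ n ∈ [0,1]` (depending only on `y`), `φ n = 0` for `n > e^{y+1}`, with
`∫ ff s (y-v) psi v dv = ∑_{n ≤ e^{y+1}} φ n n^{-s} - ζ(s) - e^{(1-s)y} KK(1-s)/(1-s)`.

PROOF. `φ n = ∫ 1[log n ≤ y - v] psi v dv` (`n ≥ 1`; `psi ≥ 0`, `∫ psi = 1`, `psi = 0` off `[-1,0]`: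
`Perron.psi_nonneg`, `psi_integral`, `psi_eq_zero`). On the support of `psi`: `y - v ∈ [y,y+1]` is
positive, so `ff s (y-v) = ps s (e^{y-v}) - ζ(s) - e^{(1-s)(y-v)}/(1-s)` and
`ps s (e^{y-v}) = ∑_{n ≤ e^{y+1}} 1[log n ≤ y-v] n^{-s}`; integrate the finite sum
(`∫ e^{(1-s)(y-v)} psi v dv = e^{(1-s)y} KK(1-s)`). (The exceptional case of the integral: all functions
are bounded measurable times `psi`, `Perron.psi_integrable`.)
-/

open MeasureTheory Complex Filter Set

namespace Pool.Agent.Lib.MP_bc6037_nt.FO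

open Perron

private noncomputable def af1Ind (y : ℝ) (n : ℕ) (v : ℝ) : ℝ :=
  if (n : ℝ) ≤ Real.exp (y - v) then 1 else 0

private lemma af1Ind_meas (y : ℝ) (n : ℕ) : Measurable (af1Ind y n) :=
  Measurable.ite (measurableSet_le measurable_const
    (by fun_prop : Continuous fun v : ℝ => Real.exp (y - v)).measurable) measurable_const
    measurable_const

private lemma af1Ind_nonneg (y : ℝ) (n : ℕ) (v : ℝ) : 0 ≤ af1Ind y n v := by
  unfold af1Ind
  split_ifs <;> norm_num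

private lemma af1Ind_le (y : ℝ) (n : ℕ) (v : ℝ) : af1Ind y n v ≤ 1 := by
  unfold af1Ind
  split_ifs <;> norm_num

private lemma af1Ind_int (y : ℝ) (n : ℕ) : Integrable fun v : ℝ => af1Ind y n v * psi v := by
  refine psi_integrable.mono' ((af1Ind_meas y n).mul psi_continuous.measurable).aestronglyMeasurable
    (ae_of_all _ fun v => ?_)
  rw [norm_mul, Real.norm_of_nonneg (af1Ind_nonneg y n v), Real.norm_of_nonneg (psi_nonneg v)]
  exact mul_le_of_le_one_left (psi_nonneg v) (af1Ind_le y n v)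

private lemma af1_ps {y v : ℝ} (hv : v ∈ Icc (-1 : ℝ) 0) (s : ℂ) :
    ps s (Real.exp (y - v)) =
      ∑ n ∈ Finset.Icc 1 ⌊Real.exp (y + 1)⌋₊, (af1Ind y n v : ℂ) * (n : ℂ) ^ (-s) := by
  unfold ps
  have hle : Real.exp (y - v) ≤ Real.exp (y + 1) := Real.exp_le_exp.2 (by linarith [hv.1])
  have hsub : Finset.Icc 1 ⌊Real.exp (y - v)⌋₊ ⊆ Finset.Icc 1 ⌊Real.exp (y + 1)⌋₊ :=
    Finset.Icc_subset_Icc_right (Nat.floor_mono hle)
  rw [← Finset.sum_subset hsub]
  · refine Finset.sum_congr rfl fun n hn => ?_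
    have h1 : (n : ℝ) ≤ Real.exp (y - v) :=
      (Nat.le_floor_iff (Real.exp_pos _).le).1 (Finset.mem_Icc.1 hn).2
    rw [af1Ind, if_pos h1, Complex.ofReal_one, one_mul]
  · intro n hn hn'
    have h1 : ¬ (n : ℝ) ≤ Real.exp (y - v) := by
      intro h
      apply hn'
      exact Finset.mem_Icc.2 ⟨(Finset.mem_Icc.1 hn).1, (Nat.le_floor_iff (Real.exp_pos _).le).2 h⟩
    rw [af1Ind, if_neg h1, Complex.ofReal_zero, zero_mul]

theorem weights {y : ℝ} (hy : 0 < y) : ∃ φ : ℕ → ℝ, (∀ n, 0 ≤ φ n) ∧ (∀ n, φ n ≤ 1) ∧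
    ∀ s : ℂ, 1 / 2 ≤ s.re → s.re < 1 → 1 ≤ s.im →
      ∫ v : ℝ, ff s (y - v) * (psi v : ℂ) =
        ∑ n ∈ Finset.Icc 1 ⌊Real.exp (y + 1)⌋₊, (φ n : ℂ) * (n : ℂ) ^ (-s) - riemannZeta s -
          cexp ((1 - s) * y) * KK (1 - s) / (1 - s) := by
  refine ⟨fun n => ∫ v : ℝ, af1Ind y n v * psi v, fun n => ?_, fun n => ?_, fun s h0 h1 ht => ?_⟩
  · exact integral_nonneg fun v => mul_nonneg (af1Ind_nonneg y n v) (psi_nonneg v)
  · rw [← psi_integral]
    exact integral_mono (af1Ind_int y n) psi_integrable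
      fun v => mul_le_of_le_one_left (psi_nonneg v) (af1Ind_le y n v)
  · have hpt : ∀ v : ℝ, ff s (y - v) * (psi v : ℂ) =
        (∑ n ∈ Finset.Icc 1 ⌊Real.exp (y + 1)⌋₊,
          ((af1Ind y n v * psi v : ℝ) : ℂ) * (n : ℂ) ^ (-s)) - riemannZeta s * (psi v : ℂ) -
          (cexp ((1 - s) * y) / (1 - s)) * ((psi v : ℂ) * cexp (-(1 - s) * v)) := by
      intro v
      by_cases hv : v ∈ Icc (-1 : ℝ) 0
      · have hyv : y - v ∈ Ioi (0 : ℝ) := by
          have := hv.2
          simp only [mem_Ioi]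
          linarith
        rw [ff, indicator_of_mem hyv, af1_ps hv s, sub_mul, sub_mul, Finset.sum_mul]
        have e1 : cexp ((1 - s) * ((y - v : ℝ) : ℂ)) =
            cexp ((1 - s) * y) * cexp (-(1 - s) * v) := by
          rw [← Complex.exp_add]
          congr 1
          push_cast
          ring
        rw [e1]
        have e2 : ∀ n ∈ Finset.Icc 1 ⌊Real.exp (y + 1)⌋₊,
            (af1Ind y n v : ℂ) * (n : ℂ) ^ (-s) * (psi v : ℂ) =
              ((af1Ind y n v * psi v : ℝ) : ℂ) * (n : ℂ) ^ (-s) := by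
          intro n _
          push_cast
          ring
        rw [Finset.sum_congr rfl e2]
        ring
      · rw [psi_eq_zero hv]
        simp
    have i1 : ∀ n ∈ Finset.Icc 1 ⌊Real.exp (y + 1)⌋₊,
        Integrable fun v : ℝ => ((af1Ind y n v * psi v : ℝ) : ℂ) * (n : ℂ) ^ (-s) :=
      fun n _ => (af1Ind_int y n).ofReal.mul_const _
    have i2 : Integrable fun v : ℝ => riemannZeta s * (psi v : ℂ) :=
      psi_integrable.ofReal.const_mul _
    have hc : Continuous fun v : ℝ => (psi v : ℂ) * cexp (-(1 - s) * v) :=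
      (Complex.continuous_ofReal.comp psi_continuous).mul (by fun_prop)
    have i3 : Integrable fun v : ℝ => (psi v : ℂ) * cexp (-(1 - s) * v) := by
      refine hc.integrable_of_hasCompactSupport ?_
      refine HasCompactSupport.mul_right ?_
      exact psi_compact.comp_left (g := fun x : ℝ => (x : ℂ)) (by simp)
    have i4 : Integrable fun v : ℝ =>
        (cexp ((1 - s) * y) / (1 - s)) * ((psi v : ℂ) * cexp (-(1 - s) * v)) := i3.const_mul _
    have i5 : Integrable fun v : ℝ => ∑ n ∈ Finset.Icc 1 ⌊Real.exp (y + 1)⌋₊,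
        ((af1Ind y n v * psi v : ℝ) : ℂ) * (n : ℂ) ^ (-s) := integrable_finset_sum _ i1
    have i6 : Integrable fun v : ℝ => (∑ n ∈ Finset.Icc 1 ⌊Real.exp (y + 1)⌋₊,
        ((af1Ind y n v * psi v : ℝ) : ℂ) * (n : ℂ) ^ (-s)) - riemannZeta s * (psi v : ℂ) :=
      i5.sub i2
    rw [integral_congr_ae (ae_of_all _ hpt), integral_sub i6 i4,
      integral_sub i5 i2, integral_finset_sum _ i1,
      integral_const_mul, integral_const_mul]
    have e3 : ∫ v : ℝ, (psi v : ℂ) = 1 := by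
      have := integral_ofReal (𝕜 := ℂ) (f := psi) (μ := volume)
      rw [psi_integral] at this
      simpa using this
    have e4 : ∀ n ∈ Finset.Icc 1 ⌊Real.exp (y + 1)⌋₊,
        ∫ v : ℝ, ((af1Ind y n v * psi v : ℝ) : ℂ) * (n : ℂ) ^ (-s) =
          ((∫ v : ℝ, af1Ind y n v * psi v : ℝ) : ℂ) * (n : ℂ) ^ (-s) := by
      intro n _
      rw [integral_mul_const]
      congr 1
      exact integral_ofReal
    rw [e3, Finset.sum_congr rfl e4, mul_one]
    have e5 : ∫ v : ℝ, (psi v : ℂ) * cexp (-(1 - s) * v) = KK (1 - s) := rfl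
    rw [e5]
    ring

end Pool.Agent.Lib.MP_bc6037_nt.FO
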