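import Pool.Agent.Lib.MP_bc6037_nt.Limit
import Pool.Agent.Lib.MP_bc6037_nt.RecFinal

set_option autoImplicit false

/-!
# First order comparison of the Piltz exponents: definitions

`rho s = min(1, 4(1-s)/(3-2s))` bounds the exponent of the measure of the set where `ζ(s+it)` is not
`O(|t|^ε)`; `growthPoint k` is the infimum of the `σ > 0` such that `ζ(σ+it)^k = O(|t|)`;
`ZB σ m` : `ζ(σ+it) = O(|t|^m)`; `Mom j σ M` : the `j`-th moment on the line `σ` has exponent at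
most `M`.
-/

open MeasureTheory Complex Filter Set
open scoped Topology

namespace Pool.Agent.Lib.MP_bc6037_nt.FO

open Limit

/-- `rho s = min(1, 4(1-s)/(3-2s))`. -/
noncomputable def rho (s : ℝ) : ℝ := min 1 (4 * (1 - s) / (3 - 2 * s))

/-- The infimum of the `σ > 0` such that `ζ(σ+it)^k = O(|t|)`, `|t| ≥ 1`. -/
noncomputable def growthPoint (k : ℕ) : ℝ :=
  sInf {σ : ℝ | 0 < σ ∧ ∃ C : ℝ, ∀ t : ℝ, 1 ≤ |t| → ‖riemannZeta (σ + t * I)‖ ^ k ≤ C * |t|}

/-- `ζ(σ+it) = O(|t|^m)` for `|t| ≥ 1`. -/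
def ZB (σ m : ℝ) : Prop :=
  ∃ C : ℝ, 0 ≤ C ∧ ∀ t : ℝ, 1 ≤ |t| → ‖riemannZeta (σ + t * I)‖ ≤ C * |t| ^ m

/-- The `j`-th moment of `ζ` on the line `σ` has exponent at most `M`. -/
def Mom (j : ℕ) (σ M : ℝ) : Prop :=
  ∀ ε : ℝ, 0 < ε → Integrable fun t : ℝ =>
    ‖riemannZeta (σ + t * I)‖ ^ j * (1 + |t|) ^ (-(M + ε))

lemma rho_le_one (s : ℝ) : rho s ≤ 1 := min_le_left _ _

lemma rho_nonneg {s : ℝ} (h : s ≤ 1) : 0 ≤ rho s :=
  le_min zero_le_one (div_nonneg (by linarith) (by linarith))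

lemma rho_le {s : ℝ} : rho s ≤ 4 * (1 - s) / (3 - 2 * s) := min_le_right _ _

lemma rho_eq_one {s : ℝ} (h : s ≤ 1 / 2) : rho s = 1 := by
  refine min_eq_left ?_
  rw [le_div_iff₀ (by linarith)]
  linarith

lemma rho_eq {s : ℝ} (h : 1 / 2 ≤ s) (h1 : s ≤ 1) : rho s = 4 * (1 - s) / (3 - 2 * s) := by
  refine min_eq_right ?_
  rw [div_le_iff₀ (by linarith)]
  linarith

lemma rho_anti {s s' : ℝ} (h : s ≤ s') (h1 : s' ≤ 1) : rho s' ≤ rho s := by
  refine le_min (rho_le_one _) (rho_le.trans ?_)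
  rw [div_le_div_iff₀ (by linarith) (by linarith)]
  nlinarith

lemma continuous_zeta_line {σ : ℝ} (h : σ ≠ 1) :
    Continuous fun t : ℝ => riemannZeta (σ + t * I) := by
  rw [continuous_iff_continuousAt]
  intro t
  have h1 : (σ : ℂ) + t * I ≠ 1 := by
    intro h2
    have := congrArg Complex.re h2
    simp at this
    exact h this
  exact ContinuousAt.comp (f := fun t : ℝ => (σ : ℂ) + t * I)
    (differentiableAt_riemannZeta h1).continuousAt (by fun_prop)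

end Pool.Agent.Lib.MP_bc6037_nt.FO
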