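import Pool.Agent.Lib.MP_bc6037_nt.DivBound

set_option autoImplicit false

/-!
# Module Pow (60 min): powers of a dyadic Dirichlet polynomial

PROOF. Induction on `m` of the statement: for every `η > 0` there is `C` such that for all `N ≥ 1` and
`c` with `‖c n‖ ≤ n^{-σ}` there is `b` with (1) the identity, (2) `‖b n‖ ≤ C n^{η-σ}` for `n ≥ 1`,
(3) `b n = 0` for `n < N^m`. `m = 0`: `b = 1_{n=1}`. Step: `b' n = ∑_{d e = n, d ≤ (2N)^m,
N < e ≤ 2N} b d c e`; products of sums: `Finset.sum_mul_sum`, and regroup by `n = d e`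
(`n ∈ [1,(2N)^{m+1}]`); `‖b' n‖ ≤ ∑_{d | n} C d^{η-σ} (n/d)^{-σ} ≤ C τ(n) n^{η} n^{-σ}`, and
`τ(n) ≤ C n^{η}` (`DivBound.card_divisors_le_rpow`); use `η/2` in the induction hypothesis.
Finally `∑_{N^m ≤ n ≤ (2N)^m} C² n^{2η-2σ} ≤ C² (2N)^m N^{m(2η-2σ)}` if `2η ≤ 2σ` (wlog), i.e.
`≤ C' N^{m(1-2σ)+2mη}`; start with `η/(2m+1)`.
-/

open Complex

namespace Pool.Agent.Lib.MP_bc6037_nt.FO

private lemma pow_core {σ : ℝ} (m : ℕ) : ∀ η : ℝ, 0 < η → ∃ C : ℝ, 0 ≤ C ∧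
    ∀ (N : ℕ), 1 ≤ N → ∀ c : ℕ → ℂ, (∀ n : ℕ, 1 ≤ n → ‖c n‖ ≤ (n : ℝ) ^ (-σ)) →
      ∃ b : ℕ → ℂ,
        (∀ t : ℝ, (∑ n ∈ Finset.Ioc N (2 * N), c n * (n : ℂ) ^ (-((t : ℂ) * I))) ^ m =
          ∑ n ∈ Finset.Icc 1 ((2 * N) ^ m), b n * (n : ℂ) ^ (-((t : ℂ) * I))) ∧
        (∀ n : ℕ, 1 ≤ n → ‖b n‖ ≤ C * (n : ℝ) ^ (η - σ)) ∧
        (∀ n : ℕ, n < N ^ m → b n = 0) := by
  induction m with
  | zero =>
    intro η hη
    refine ⟨1, zero_le_one, fun N hN c hc => ?_⟩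
    refine ⟨fun n => if n = 1 then 1 else 0, fun t => ?_, fun n hn => ?_, fun n hn => ?_⟩
    · rw [pow_zero, pow_zero, Finset.Icc_self, Finset.sum_singleton]
      simp
    · by_cases h : n = 1
      · subst h
        simp
      · simp only [if_neg h, norm_zero]
        positivity
    · rw [pow_zero] at hn
      have : n ≠ 1 := by omega
      simp only [if_neg this]
  | succ m ih =>
    intro η hη
    obtain ⟨C, hC, h⟩ := ih (η / 2) (by positivity)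
    obtain ⟨C', hC', hdiv⟩ := Pool.Agent.Lib.MP_bc6037_nt.card_divisors_le_rpow (η := η / 2) (by positivity)
    refine ⟨C * C', by positivity, fun N hN c hc => ?_⟩
    obtain ⟨b, hb1, hb2, hb3⟩ := h N hN c hc
    set S : Finset (ℕ × ℕ) := Finset.Icc 1 ((2 * N) ^ m) ×ˢ Finset.Ioc N (2 * N) with hS
    have hmem : ∀ p ∈ S, 1 ≤ p.1 ∧ p.1 ≤ (2 * N) ^ m ∧ N < p.2 ∧ p.2 ≤ 2 * N := by
      intro p hp
      rw [hS, Finset.mem_product, Finset.mem_Icc, Finset.mem_Ioc] at hp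
      exact ⟨hp.1.1, hp.1.2, hp.2.1, hp.2.2⟩
    refine ⟨fun n => ∑ p ∈ S with p.1 * p.2 = n, b p.1 * c p.2, fun t => ?_, fun n hn => ?_,
      fun n hn => ?_⟩
    · rw [pow_succ, hb1 t, Finset.sum_mul_sum, ← Finset.sum_product']
      have hmaps : ∀ p ∈ S, p.1 * p.2 ∈ Finset.Icc 1 ((2 * N) ^ (m + 1)) := by
        intro p hp
        obtain ⟨h1, h2, h3, h4⟩ := hmem p hp
        rw [Finset.mem_Icc, pow_succ]
        exact ⟨Nat.mul_pos h1 (by omega), Nat.mul_le_mul h2 h4⟩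
      rw [← Finset.sum_fiberwise_of_maps_to hmaps]
      refine Finset.sum_congr rfl fun n _ => ?_
      rw [Finset.sum_mul]
      refine Finset.sum_congr rfl fun p hp => ?_
      rw [Finset.mem_filter] at hp
      rw [← hp.2, Nat.cast_mul, Complex.natCast_mul_natCast_cpow]
      ring
    · have hnpos : (0 : ℝ) < n := by exact_mod_cast hn
      have hterm : ∀ p ∈ S.filter (fun p => p.1 * p.2 = n), ‖b p.1 * c p.2‖ ≤
          C * (n : ℝ) ^ (η / 2 - σ) := by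
        intro p hp
        rw [Finset.mem_filter] at hp
        obtain ⟨h1, h2, h3, h4⟩ := hmem p hp.1
        have hp1 : (0 : ℝ) < p.1 := by exact_mod_cast h1
        have hp2 : (0 : ℝ) < p.2 := by exact_mod_cast (by omega : 0 < p.2)
        have hp2' : (1 : ℝ) ≤ p.2 := by exact_mod_cast (by omega : 1 ≤ p.2)
        have hn' : (n : ℝ) = (p.1 : ℝ) * p.2 := by
          rw [← hp.2]
          push_cast
          ring
        rw [norm_mul]
        calc ‖b p.1‖ * ‖c p.2‖ ≤ (C * (p.1 : ℝ) ^ (η / 2 - σ)) * (p.2 : ℝ) ^ (-σ) :=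
              mul_le_mul (hb2 _ h1) (hc _ (by omega)) (norm_nonneg _) (by positivity)
          _ ≤ (C * (p.1 : ℝ) ^ (η / 2 - σ)) * (p.2 : ℝ) ^ (η / 2 - σ) := by
              refine mul_le_mul_of_nonneg_left ?_ (by positivity)
              exact Real.rpow_le_rpow_of_exponent_le hp2' (by linarith)
          _ = C * (n : ℝ) ^ (η / 2 - σ) := by
              rw [hn', Real.mul_rpow hp1.le hp2.le]
              ring
      have hcard : (((S.filter (fun p => p.1 * p.2 = n)).card : ℕ) : ℝ) ≤ C' * (n : ℝ) ^ (η / 2) := by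
        refine le_trans ?_ (hdiv n (by omega))
        have h1 : (S.filter (fun p => p.1 * p.2 = n)).card ≤ n.divisorsAntidiagonal.card := by
          refine Finset.card_le_card fun p hp => ?_
          rw [Finset.mem_filter] at hp
          rw [Nat.mem_divisorsAntidiagonal]
          exact ⟨hp.2, by omega⟩
        have h2 : n.divisorsAntidiagonal.card = n.divisors.card := by
          rw [← Nat.map_div_right_divisors, Finset.card_map]
        rw [← h2]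
        exact_mod_cast h1
      calc ‖∑ p ∈ S with p.1 * p.2 = n, b p.1 * c p.2‖
          ≤ ∑ p ∈ S with p.1 * p.2 = n, ‖b p.1 * c p.2‖ := norm_sum_le _ _
        _ ≤ ∑ p ∈ S with p.1 * p.2 = n, C * (n : ℝ) ^ (η / 2 - σ) := Finset.sum_le_sum hterm
        _ = ((S.filter (fun p => p.1 * p.2 = n)).card : ℝ) * (C * (n : ℝ) ^ (η / 2 - σ)) := by
            rw [Finset.sum_const, nsmul_eq_mul]
        _ ≤ (C' * (n : ℝ) ^ (η / 2)) * (C * (n : ℝ) ^ (η / 2 - σ)) :=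
            mul_le_mul_of_nonneg_right hcard (by positivity)
        _ = C * C' * (n : ℝ) ^ (η - σ) := by
            have : (n : ℝ) ^ (η - σ) = (n : ℝ) ^ (η / 2) * (n : ℝ) ^ (η / 2 - σ) := by
              rw [← Real.rpow_add hnpos]
              congr 1
              ring
            rw [this]
            ring
    · refine Finset.sum_eq_zero fun p hp => ?_
      rw [Finset.mem_filter] at hp
      obtain ⟨h1, h2, h3, h4⟩ := hmem p hp.1
      have h5 : p.1 < N ^ m := by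
        by_contra hcon
        rw [not_lt] at hcon
        have h6 : N ^ m * N ≤ p.1 * p.2 := Nat.mul_le_mul hcon h3.le
        rw [pow_succ] at hn
        omega
      rw [hb3 _ h5, zero_mul]

theorem pow_poly (m : ℕ) {σ η : ℝ} (hσ : 0 < σ) (hσ1 : σ ≤ 1) (hη : 0 < η) : ∃ C : ℝ, 0 ≤ C ∧
    ∀ (N : ℕ), 1 ≤ N → ∀ c : ℕ → ℂ, (∀ n : ℕ, 1 ≤ n → ‖c n‖ ≤ (n : ℝ) ^ (-σ)) →
      ∃ b : ℕ → ℂ,
        (∀ t : ℝ, (∑ n ∈ Finset.Ioc N (2 * N), c n * (n : ℂ) ^ (-((t : ℂ) * I))) ^ m =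
          ∑ n ∈ Finset.Icc 1 ((2 * N) ^ m), b n * (n : ℂ) ^ (-((t : ℂ) * I))) ∧
        ∑ n ∈ Finset.Icc 1 ((2 * N) ^ m), ‖b n‖ ^ 2 ≤ C * (N : ℝ) ^ (m * (1 - 2 * σ) + η) := by
  have _ := hσ1
  set e : ℝ := min σ (η / (2 * m + 1)) with he
  have he0 : 0 < e := lt_min hσ (by positivity)
  have heσ : e ≤ σ := min_le_left _ _
  have heη : 2 * m * e ≤ η := by
    have h1 : e ≤ η / (2 * m + 1) := min_le_right _ _
    have h2 : (2 * (m : ℝ) + 1) * e ≤ η := by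
      rw [le_div_iff₀ (by positivity)] at h1
      linarith
    nlinarith
  obtain ⟨C, hC, h⟩ := pow_core (σ := σ) m e he0
  refine ⟨C ^ 2 * 2 ^ m, by positivity, fun N hN c hc => ?_⟩
  obtain ⟨b, hb1, hb2, hb3⟩ := h N hN c hc
  refine ⟨b, hb1, ?_⟩
  have hN0 : (0 : ℝ) < N := by exact_mod_cast hN
  have hN1 : (1 : ℝ) ≤ N := by exact_mod_cast hN
  have hterm : ∀ n ∈ Finset.Icc 1 ((2 * N) ^ m), ‖b n‖ ^ 2 ≤
      C ^ 2 * (N : ℝ) ^ (m * (2 * (e - σ))) := by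
    intro n hn
    rw [Finset.mem_Icc] at hn
    have hpos : (0 : ℝ) ≤ C ^ 2 * (N : ℝ) ^ (m * (2 * (e - σ))) := by positivity
    by_cases hlt : n < N ^ m
    · rw [hb3 n hlt, norm_zero]
      simpa using hpos
    · rw [not_lt] at hlt
      have hnpos : (0 : ℝ) < n := by exact_mod_cast hn.1
      have h1 : ‖b n‖ ^ 2 ≤ (C * (n : ℝ) ^ (e - σ)) ^ 2 :=
        pow_le_pow_left₀ (norm_nonneg _) (hb2 n hn.1) 2
      have h2 : (n : ℝ) ^ (e - σ) ≤ ((N : ℝ) ^ m) ^ (e - σ) := by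
        refine Real.rpow_le_rpow_of_nonpos (by positivity) ?_ (by linarith)
        exact_mod_cast hlt
      have h3 : ((N : ℝ) ^ m) ^ (e - σ) = (N : ℝ) ^ (m * (e - σ)) := by
        rw [← Real.rpow_natCast, ← Real.rpow_mul hN0.le]
      have h4 : ((N : ℝ) ^ (m * (e - σ))) ^ 2 = (N : ℝ) ^ (m * (2 * (e - σ))) := by
        rw [← Real.rpow_natCast ((N : ℝ) ^ (m * (e - σ))) 2, ← Real.rpow_mul hN0.le]
        congr 1
        push_cast
        ring
      calc ‖b n‖ ^ 2 ≤ (C * (n : ℝ) ^ (e - σ)) ^ 2 := h1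
        _ = C ^ 2 * ((n : ℝ) ^ (e - σ)) ^ 2 := by ring
        _ ≤ C ^ 2 * (((N : ℝ) ^ m) ^ (e - σ)) ^ 2 := by
            refine mul_le_mul_of_nonneg_left ?_ (by positivity)
            exact pow_le_pow_left₀ (by positivity) h2 2
        _ = C ^ 2 * (N : ℝ) ^ (m * (2 * (e - σ))) := by rw [h3, h4]
  calc ∑ n ∈ Finset.Icc 1 ((2 * N) ^ m), ‖b n‖ ^ 2
      ≤ ∑ n ∈ Finset.Icc 1 ((2 * N) ^ m), C ^ 2 * (N : ℝ) ^ (m * (2 * (e - σ))) :=
        Finset.sum_le_sum hterm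
    _ = ((2 : ℝ) * N) ^ m * (C ^ 2 * (N : ℝ) ^ (m * (2 * (e - σ)))) := by
        rw [Finset.sum_const, nsmul_eq_mul, Nat.card_Icc, Nat.add_sub_cancel]
        push_cast
        ring
    _ = C ^ 2 * 2 ^ m * ((N : ℝ) ^ (m : ℝ) * (N : ℝ) ^ (m * (2 * (e - σ)))) := by
        rw [mul_pow, Real.rpow_natCast]
        ring
    _ = C ^ 2 * 2 ^ m * (N : ℝ) ^ ((m : ℝ) + m * (2 * (e - σ))) := by
        rw [Real.rpow_add hN0]
    _ ≤ C ^ 2 * 2 ^ m * (N : ℝ) ^ (m * (1 - 2 * σ) + η) := by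
        refine mul_le_mul_of_nonneg_left ?_ (by positivity)
        refine Real.rpow_le_rpow_of_exponent_le hN1 ?_
        linarith

end Pool.Agent.Lib.MP_bc6037_nt.FO
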