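import Pool.Agent.Lib.MP_bc6037_nt.FO.MV
import Pool.Agent.Lib.MP_bc6037_nt.FO.Pow

set_option autoImplicit false

/-!
# Module Block (45 min): measure of the set where a dyadic block is large

`meas{t ∈ [T,2T] : |D_N(t)| ≥ 1} ≤ C N^η (T N^{-m(2σ-1)} + N^{2m(1-σ)})`.

PROOF. `D_N^m = ∑_{n ≤ (2N)^m} b_n n^{-it}` (`pow_poly` with `η/2`); Chebyshev: the measure is
`≤ ∫_T^{2T} |D_N^m|² dt ≤ C (T + (2N)^m (1 + log((2N)^m))) C' N^{m(1-2σ)+η/2}` (`mean_value`), and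
`(2N)^m (1 + log (2N)^m) ≤ C'' N^{m+η/2}`. (`D_N` is continuous in `t`, so the set is closed; Mathlib:
`meas_ge_le_lintegral_div` / `mul_meas_ge_le_integral_of_nonneg`.)
-/

open MeasureTheory Complex Filter Set

namespace Pool.Agent.Lib.MP_bc6037_nt.FO

private lemma Block_cont {S : Finset ℕ} (hS : ∀ n ∈ S, 1 ≤ n) (c : ℕ → ℂ) :
    Continuous fun t : ℝ => ∑ n ∈ S, c n * (n : ℂ) ^ (-((t : ℂ) * I)) := by
  refine continuous_finsetSum _ fun n hn => ?_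
  refine continuous_const.mul ?_
  have h0 : (n : ℂ) ≠ 0 := by
    have := hS n hn
    exact_mod_cast (by omega : n ≠ 0)
  exact Continuous.const_cpow (by fun_prop) (Or.inl h0)

theorem block (m : ℕ) {σ η : ℝ} (hσ : 0 < σ) (hσ1 : σ ≤ 1) (hη : 0 < η) : ∃ C : ℝ, 0 ≤ C ∧
    ∀ (N : ℕ), 1 ≤ N → ∀ c : ℕ → ℂ, (∀ n : ℕ, 1 ≤ n → ‖c n‖ ≤ (n : ℝ) ^ (-σ)) →
      ∀ T : ℝ, 1 ≤ T →
        (volume {t : ℝ | t ∈ Icc T (2 * T) ∧
          1 ≤ ‖∑ n ∈ Finset.Ioc N (2 * N), c n * (n : ℂ) ^ (-((t : ℂ) * I))‖}).toReal ≤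
          C * (N : ℝ) ^ η * (T * (N : ℝ) ^ (-(m * (2 * σ - 1))) + (N : ℝ) ^ (2 * m * (1 - σ))) := by
  obtain ⟨C1, hC1, hMV⟩ := mean_value
  obtain ⟨C2, hC2, hP⟩ := pow_poly m hσ hσ1 (half_pos hη)
  have hC3 : (0 : ℝ) ≤ 2 ^ m * (1 + m + m * (2 / η)) := by positivity
  refine ⟨C1 * C2 * (1 + 2 ^ m * (1 + m + m * (2 / η))), by positivity, ?_⟩
  intro N hN c hc T hT
  obtain ⟨b, hb1, hb2⟩ := hP N hN c hc
  have hN1 : (1 : ℝ) ≤ N := by exact_mod_cast hN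
  have hN0 : (0 : ℝ) < N := by linarith
  set D : ℝ → ℂ := fun t => ∑ n ∈ Finset.Ioc N (2 * N), c n * (n : ℂ) ^ (-((t : ℂ) * I)) with hD
  set F : ℝ → ℝ := fun t => ‖∑ n ∈ Finset.Icc 1 ((2 * N) ^ m), b n * (n : ℂ) ^ (-((t : ℂ) * I))‖ ^ 2
    with hF
  have hDc : Continuous D := Block_cont (fun n hn => by have := (Finset.mem_Ioc.1 hn).1; omega) c
  have hFc : Continuous F :=
    ((Block_cont (fun n hn => (Finset.mem_Icc.1 hn).1) b).norm).pow 2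
  have hA : MeasurableSet {t : ℝ | t ∈ Icc T (2 * T) ∧ 1 ≤ ‖D t‖} := by
    have h1 : IsClosed {t : ℝ | t ∈ Icc T (2 * T) ∧ 1 ≤ ‖D t‖} :=
      isClosed_Icc.inter (isClosed_le continuous_const hDc.norm)
    exact h1.measurableSet
  have hAfin : volume {t : ℝ | t ∈ Icc T (2 * T) ∧ 1 ≤ ‖D t‖} ≠ ⊤ := by
    refine ne_top_of_le_ne_top ?_ (measure_mono (fun t ht => ht.1) :
      volume {t : ℝ | t ∈ Icc T (2 * T) ∧ 1 ≤ ‖D t‖} ≤ volume (Icc T (2 * T)))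
    rw [Real.volume_Icc]
    exact ENNReal.ofReal_ne_top
  have hFi : IntegrableOn F (Icc T (2 * T)) := hFc.continuousOn.integrableOn_Icc
  have h1 : (volume {t : ℝ | t ∈ Icc T (2 * T) ∧ 1 ≤ ‖D t‖}).toReal ≤ ∫ t in T..(2 * T), F t := by
    have h2 : (volume {t : ℝ | t ∈ Icc T (2 * T) ∧ 1 ≤ ‖D t‖}).toReal =
        ∫ t in {t : ℝ | t ∈ Icc T (2 * T) ∧ 1 ≤ ‖D t‖}, (1 : ℝ) := by
      rw [setIntegral_const, smul_eq_mul, mul_one]
      rfl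
    rw [h2, intervalIntegral.integral_of_le (by linarith), ← integral_Icc_eq_integral_Ioc]
    calc ∫ t in {t : ℝ | t ∈ Icc T (2 * T) ∧ 1 ≤ ‖D t‖}, (1 : ℝ)
        ≤ ∫ t in {t : ℝ | t ∈ Icc T (2 * T) ∧ 1 ≤ ‖D t‖}, F t := by
          refine setIntegral_mono_on ?_ (hFi.mono_set fun t ht => ht.1) hA ?_
          · exact integrableOn_const hAfin
          · intro t ht
            have h3 : 1 ≤ ‖D t‖ := ht.2
            have h4 : F t = (‖D t‖ ^ m) ^ 2 := by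
              simp only [hF, hD]
              rw [← hb1 t, norm_pow]
            rw [h4]
            exact one_le_pow₀ (one_le_pow₀ h3)
      _ ≤ ∫ t in Icc T (2 * T), F t := by
          refine setIntegral_mono_set hFi ?_ ?_
          · exact Filter.Eventually.of_forall fun t => by simp only [hF]; positivity
          · exact Filter.Eventually.of_forall fun t ht => ht.1
  refine h1.trans ?_
  have h5 := hMV ((2 * N) ^ m) b T hT
  refine h5.trans ?_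
  -- the elementary bound
  have hM : (((2 * N) ^ m : ℕ) : ℝ) * (1 + Real.log (((2 * N) ^ m : ℕ) : ℝ)) ≤
      2 ^ m * (1 + m + m * (2 / η)) * (N : ℝ) ^ ((m : ℝ) + η / 2) := by
    have h6 : (((2 * N) ^ m : ℕ) : ℝ) = 2 ^ m * (N : ℝ) ^ m := by
      push_cast
      rw [mul_pow]
    have h7 : Real.log (((2 * N) ^ m : ℕ) : ℝ) = m * (Real.log 2 + Real.log N) := by
      push_cast
      rw [Real.log_pow, Real.log_mul (by norm_num) hN0.ne']
    have h8 : Real.log N ≤ (N : ℝ) ^ (η / 2) * (2 / η) := by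
      have := Real.log_le_rpow_div hN0.le (half_pos hη)
      refine this.trans (le_of_eq ?_)
      field_simp
    have h9 : Real.log 2 ≤ 1 := by
      have := Real.log_two_lt_d9
      linarith
    have h10 : (1 : ℝ) ≤ (N : ℝ) ^ (η / 2) := Real.one_le_rpow hN1 (by positivity)
    have h11 : 1 + Real.log (((2 * N) ^ m : ℕ) : ℝ) ≤ (1 + m + m * (2 / η)) * (N : ℝ) ^ (η / 2) := by
      rw [h7]
      have hm0 : (0 : ℝ) ≤ m := Nat.cast_nonneg m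
      have h12 : (m : ℝ) * (Real.log 2 + Real.log N) ≤ m * (1 + (N : ℝ) ^ (η / 2) * (2 / η)) :=
        mul_le_mul_of_nonneg_left (by linarith) hm0
      nlinarith [mul_le_mul_of_nonneg_left h10 hm0]
    rw [h6, Real.rpow_add hN0, Real.rpow_natCast]
    rw [h6] at h11
    calc 2 ^ m * (N : ℝ) ^ m * (1 + Real.log (2 ^ m * (N : ℝ) ^ m))
        ≤ 2 ^ m * (N : ℝ) ^ m * ((1 + m + m * (2 / η)) * (N : ℝ) ^ (η / 2)) :=
          mul_le_mul_of_nonneg_left h11 (by positivity)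
      _ = 2 ^ m * (1 + m + m * (2 / η)) * ((N : ℝ) ^ m * (N : ℝ) ^ (η / 2)) := by ring
  have hX : T * (N : ℝ) ^ ((m : ℝ) * (1 - 2 * σ) + η / 2) ≤
      (N : ℝ) ^ η * (T * (N : ℝ) ^ (-((m : ℝ) * (2 * σ - 1)))) := by
    have h12 : (N : ℝ) ^ ((m : ℝ) * (1 - 2 * σ) + η / 2) ≤
        (N : ℝ) ^ (η + -((m : ℝ) * (2 * σ - 1))) :=
      Real.rpow_le_rpow_of_exponent_le hN1 (by linarith)
    rw [Real.rpow_add hN0 η] at h12
    calc T * (N : ℝ) ^ ((m : ℝ) * (1 - 2 * σ) + η / 2)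
        ≤ T * ((N : ℝ) ^ η * (N : ℝ) ^ (-((m : ℝ) * (2 * σ - 1)))) :=
          mul_le_mul_of_nonneg_left h12 (by linarith)
      _ = _ := by ring
  have hY : (N : ℝ) ^ ((m : ℝ) + η / 2) * (N : ℝ) ^ ((m : ℝ) * (1 - 2 * σ) + η / 2) =
      (N : ℝ) ^ η * (N : ℝ) ^ (2 * (m : ℝ) * (1 - σ)) := by
    rw [← Real.rpow_add hN0, ← Real.rpow_add hN0]
    congr 1
    ring
  have hT0 : 0 ≤ T := by linarith
  set P : ℝ := (N : ℝ) ^ ((m : ℝ) * (1 - 2 * σ) + η / 2) with hPdef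
  have hP0 : 0 ≤ P := Real.rpow_nonneg hN0.le _
  set Q : ℝ := 2 ^ m * (1 + m + m * (2 / η)) with hQdef
  set U : ℝ := T * (N : ℝ) ^ (-((m : ℝ) * (2 * σ - 1))) with hU
  set W : ℝ := (N : ℝ) ^ (2 * (m : ℝ) * (1 - σ)) with hW
  have hU0 : 0 ≤ U := mul_nonneg hT0 (Real.rpow_nonneg hN0.le _)
  have hW0 : 0 ≤ W := Real.rpow_nonneg hN0.le _
  have hE0 : 0 ≤ (N : ℝ) ^ η := Real.rpow_nonneg hN0.le _
  calc C1 * (T + (((2 * N) ^ m : ℕ) : ℝ) * (1 + Real.log (((2 * N) ^ m : ℕ) : ℝ))) *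
        ∑ n ∈ Finset.Icc 1 ((2 * N) ^ m), ‖b n‖ ^ 2
      ≤ C1 * (T + Q * (N : ℝ) ^ ((m : ℝ) + η / 2)) * (C2 * P) := by
        refine mul_le_mul ?_ hb2 (Finset.sum_nonneg fun n _ => by positivity) ?_
        · refine mul_le_mul_of_nonneg_left ?_ hC1
          linarith
        · positivity
    _ = C1 * C2 * (T * P + Q * ((N : ℝ) ^ ((m : ℝ) + η / 2) * P)) := by ring
    _ ≤ C1 * C2 * ((N : ℝ) ^ η * U + Q * ((N : ℝ) ^ η * W)) := by
        refine mul_le_mul_of_nonneg_left ?_ (mul_nonneg hC1 hC2)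
        rw [hY]
        linarith
    _ ≤ C1 * C2 * (1 + Q) * (N : ℝ) ^ η * (U + W) := by
        have h13 : 0 ≤ C1 * C2 * (N : ℝ) ^ η * (Q * U + W) :=
          mul_nonneg (mul_nonneg (mul_nonneg hC1 hC2) hE0) (add_nonneg (mul_nonneg hC3 hU0) hW0)
        nlinarith

end Pool.Agent.Lib.MP_bc6037_nt.FO
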