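import Pool.Agent.Lib.MP_bc6037_nt.FO.Core

set_option autoImplicit false

/-!
# Module Cor: consequences of the master inequalities

PROOFS. `cor_beta` (`j ≥ (2β-1)k`): `c = (2L-1)/(j/k + 2(L-β)) ∈ [0,1]`, `s = L - c(L-β)`, so that
`2s-1 = (j/k) c =: x`, `β ≤ s ≤ L`, `s < 1` (if `c = 0` then `L = 1/2`), `1/2 ≤ s`; `a = x/2 ≤ 1/2`
(as `x = 2s-1 ≤ 1`);
`rho s = 4(1-s)/(3-2s) = 2(1-x)/(2-x)`, so `2a + (1-a) rho s = x + (1-x/2) 2(1-x)/(2-x) = 1` and
`masterB` gives `alpha j ≤ s`, i.e. `L - alpha j ≥ c(L-β)`. `cor_beta_small`: `s = β`, `a = j/(2k)`,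
`x = j/k ≤ 2β-1`: `rho β = 4(1-β)/(3-2β) ≤ 2(1-x)/(2-x)`, the same computation with `≤ 1`.
`cor_growth`: `c = min(1,(k/j)(2A-1)/(3-2A))`, `s = L - c(L-A)`; trivial for `A ≤ 1/2` (`c ≤ 0`:
`alpha j ≤ L`); otherwise `(j/k) c + rho s ≤ (1 - rho A) + rho A = 1`. `cor_inv`: `masterA` with `s = A`,
`j = k`: `1 - alpha ≥ (1-A)/(1+rho A)`, `rho A/(1-A) ≤ 4/(3-2A) ≤ 4`. `cor_strict`: `cor_beta` with
`k = j`. `cor_cross`: `masterA` with `s = A`.
-/

open MeasureTheory Complex Filter Set

namespace Pool.Agent.Lib.MP_bc6037_nt.FO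

open Limit Rec

private lemma cor_rho_id {s : ℝ} (h : 1 / 2 ≤ s) (h1 : s ≤ 1) :
    (2 * s - 1) + (1 - (2 * s - 1) / 2) * rho s = 1 := by
  rw [rho_eq h h1]
  have : 3 - 2 * s ≠ 0 := by intro h2; linarith
  field_simp
  ring

theorem cor_beta {j k : ℕ} (hj : 1 ≤ j) (hk : 1 ≤ k) (h : (2 * beta k - 1) * k ≤ j) :
    (2 * lindelofAbscissa - 1) * (lindelofAbscissa - beta k) ≤
      (j / k + 2 * (lindelofAbscissa - beta k)) * (lindelofAbscissa - alpha j) := by
  have hβL := beta_lt_lindelof hk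
  have hL1 := lindelof_le_one
  have hL2 := half_le_lindelof
  have mB := @masterB j k hk
  set β := beta k with hβ
  set L := lindelofAbscissa with hL
  have hk0 : (0 : ℝ) < k := by exact_mod_cast hk
  have hj0 : (0 : ℝ) < j := by exact_mod_cast hj
  set x : ℝ := (j : ℝ) / k with hx
  have hx0 : 0 < x := div_pos hj0 hk0
  have hxβ : 2 * β - 1 ≤ x := by rw [hx, le_div_iff₀ hk0]; exact h
  have hD : 0 < L - β := by linarith
  have hE : 0 < x + 2 * (L - β) := by linarith
  set c := (2 * L - 1) / (x + 2 * (L - β)) with hc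
  have hc0 : 0 ≤ c := div_nonneg (by linarith) hE.le
  have hc1 : c ≤ 1 := by rw [hc, div_le_one hE]; linarith
  have hcE : c * (x + 2 * (L - β)) = 2 * L - 1 := div_mul_cancel₀ _ hE.ne'
  have hcD : 0 ≤ c * (L - β) := mul_nonneg hc0 hD.le
  have hcD1 : c * (L - β) ≤ L - β := by
    have := mul_le_mul_of_nonneg_right hc1 hD.le
    linarith
  have hcx : 0 ≤ c * x := mul_nonneg hc0 hx0.le
  have h2s : 2 * (L - c * (L - β)) - 1 = c * x := by
    have : c * (x + 2 * (L - β)) = c * x + 2 * (c * (L - β)) := by ring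
    linarith
  have hs1 : L - c * (L - β) < 1 := by
    rcases hc0.eq_or_lt with h0 | h0
    · rw [← h0] at h2s ⊢
      linarith
    · have := mul_pos h0 hD
      linarith
  have hq : (L - (L - c * (L - β))) / (L - β) = c := by
    rw [sub_sub_cancel, mul_div_assoc, div_self hD.ne', mul_one]
  have ha : (2 * (L - c * (L - β)) - 1) / 2 = (j / (2 * k) : ℝ) *
      ((L - (L - c * (L - β))) / (L - β)) := by
    rw [hq, h2s, hx]
    field_simp
  have key := mB (s := L - c * (L - β)) (by linarith) (by linarith) hs1 ha (by linarith)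
  have e : 2 * ((2 * (L - c * (L - β)) - 1) / 2) +
      (1 - (2 * (L - c * (L - β)) - 1) / 2) * rho (L - c * (L - β)) = 1 := by
    have := cor_rho_id (s := L - c * (L - β)) (by linarith) hs1.le
    linarith
  rw [e, max_self, div_one] at key
  have h3 : c * (L - β) ≤ L - alpha j := by linarith
  have h4 := mul_le_mul_of_nonneg_left h3 hE.le
  calc (2 * L - 1) * (L - β) = (x + 2 * (L - β)) * (c * (L - β)) := by rw [← hcE]; ring
    _ ≤ _ := h4

theorem cor_beta_small {j k : ℕ} (hk : 1 ≤ k) (h : (j : ℝ) ≤ (2 * beta k - 1) * k) :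
    alpha j ≤ beta k := by
  have hβL := beta_lt_lindelof hk
  have hβ1 : beta k < 1 := (beta_le_alpha k).trans_lt (alpha_lt_one k)
  have hk0 : (0 : ℝ) < k := by exact_mod_cast hk
  have hj0 : (0 : ℝ) ≤ j := by positivity
  have h1 : (j / k : ℝ) ≤ 2 * beta k - 1 := by rw [div_le_iff₀ hk0]; exact h
  have h2 : 0 ≤ (j / k : ℝ) := by positivity
  have h3 : (lindelofAbscissa - beta k) / (lindelofAbscissa - beta k) = 1 :=
    div_self (by linarith)
  have h4 : (j / (2 * k) : ℝ) = (j / k : ℝ) / 2 := by field_simp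
  have key := masterB (j := j) hk (s := beta k) (a := (j / k : ℝ) / 2) le_rfl hβL.le hβ1
    (by rw [h3, h4, mul_one]) (by linarith)
  have h5 : 2 * ((j / k : ℝ) / 2) + (1 - (j / k : ℝ) / 2) * rho (beta k) ≤ 1 := by
    have h6 := cor_rho_id (s := beta k) (by linarith) hβ1.le
    have h7 := rho_le_one (beta k)
    nlinarith
  rw [max_eq_left h5, div_one] at key
  linarith

theorem cor_cross {j k : ℕ} (hk : 1 ≤ k) :
    alpha j ≤ 1 - (1 - growthPoint k) / max 1 ((j / k : ℝ) + rho (growthPoint k)) := by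
  have h1 := growthPoint_lt_lindelof hk
  have h2 := lindelof_le_one
  have key := masterA (j := j) hk (s := growthPoint k) le_rfl h1.le (by linarith)
  rwa [div_self (by linarith : lindelofAbscissa - growthPoint k ≠ 0), mul_one] at key

theorem cor_growth {j k : ℕ} (hj : 1 ≤ j) (hk : 1 ≤ k) :
    min 1 ((k / j : ℝ) * ((2 * growthPoint k - 1) / (3 - 2 * growthPoint k))) *
      (lindelofAbscissa - growthPoint k) ≤ lindelofAbscissa - alpha j := by
  have hAL := growthPoint_lt_lindelof hk
  have hL1 := lindelof_le_one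
  have hαL := alpha_le_lindelof j
  have mA := @masterA j k hk
  set A := growthPoint k with hA
  set L := lindelofAbscissa with hL
  have hk0 : (0 : ℝ) < k := by exact_mod_cast hk
  have hj0 : (0 : ℝ) < j := by exact_mod_cast hj
  have hD : 0 < L - A := by linarith
  have h32 : 0 < 3 - 2 * A := by linarith
  rcases le_or_gt A (1 / 2) with h | h
  · have h3 : (k / j : ℝ) * ((2 * A - 1) / (3 - 2 * A)) ≤ 0 :=
      mul_nonpos_of_nonneg_of_nonpos (by positivity)
        (div_nonpos_of_nonpos_of_nonneg (by linarith) h32.le)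
    have h4 := mul_nonpos_of_nonpos_of_nonneg ((min_le_right (1 : ℝ) _).trans h3) hD.le
    linarith
  · set c := min 1 ((k / j : ℝ) * ((2 * A - 1) / (3 - 2 * A))) with hc
    have hc0 : 0 < c := lt_min one_pos
      (mul_pos (div_pos hk0 hj0) (div_pos (by linarith) h32))
    have hc1 : c ≤ 1 := min_le_left _ _
    have hcD : 0 < c * (L - A) := mul_pos hc0 hD
    have hcD1 : c * (L - A) ≤ L - A := by
      have := mul_le_mul_of_nonneg_right hc1 hD.le
      linarith
    have hq : (L - (L - c * (L - A))) / (L - A) = c := by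
      rw [sub_sub_cancel, mul_div_assoc, div_self hD.ne', mul_one]
    have key := mA (s := L - c * (L - A)) (by linarith) (by linarith) (by linarith)
    rw [hq] at key
    have h5 : (j / k : ℝ) * c ≤ (2 * A - 1) / (3 - 2 * A) := by
      have h6 : c ≤ (k / j : ℝ) * ((2 * A - 1) / (3 - 2 * A)) := min_le_right _ _
      have h7 := mul_le_mul_of_nonneg_left h6 (by positivity : (0 : ℝ) ≤ j / k)
      refine h7.trans (le_of_eq ?_)
      rw [← mul_assoc, div_mul_div_comm, mul_comm (j : ℝ) k, div_self (by positivity), one_mul]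
    have h8 : rho (L - c * (L - A)) ≤ 4 * (1 - A) / (3 - 2 * A) :=
      (rho_anti (by linarith) (by linarith)).trans rho_le
    have h9 : (2 * A - 1) / (3 - 2 * A) + 4 * (1 - A) / (3 - 2 * A) = 1 := by
      rw [← add_div, div_eq_one_iff_eq h32.ne']
      ring
    rw [max_eq_left (by linarith), div_one] at key
    linarith

theorem cor_inv {k : ℕ} (hk : 1 ≤ k) :
    1 / (1 - alpha k) ≤ 1 / (1 - growthPoint k) + 4 := by
  have hAL := growthPoint_lt_lindelof hk
  have hL1 := lindelof_le_one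
  have key := cor_cross (j := k) hk
  have hk0 : (0 : ℝ) < k := by exact_mod_cast hk
  have hα := alpha_lt_one k
  set A := growthPoint k with hA
  have hr := rho_nonneg (s := A) (by linarith)
  have hr2 : rho A ≤ 4 * (1 - A) := by
    refine rho_le.trans ?_
    rw [div_le_iff₀ (by linarith)]
    nlinarith
  rw [div_self hk0.ne', max_eq_right (by linarith)] at key
  have h1 : (1 - A) / (1 + rho A) ≤ 1 - alpha k := by linarith
  have hA1 : 0 < 1 - A := by linarith
  have h2 : 0 < (1 - A) / (1 + rho A) := div_pos hA1 (by linarith)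
  have h3 := one_div_le_one_div_of_le h2 h1
  refine h3.trans ?_
  rw [one_div_div, add_div]
  have h4 : rho A / (1 - A) ≤ 4 := by rw [div_le_iff₀ hA1]; exact hr2
  linarith

theorem cor_strict {j : ℕ} (hj : 1 ≤ j) (hL : 1 / 2 < lindelofAbscissa) :
    alpha j < lindelofAbscissa := by
  have hβL := beta_lt_lindelof hj
  have hβ1 : beta j < 1 := (beta_le_alpha j).trans_lt (alpha_lt_one j)
  have hj0 : (0 : ℝ) < j := by exact_mod_cast hj
  have key := cor_beta hj hj (by nlinarith)
  rw [div_self hj0.ne'] at key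
  have h1 : 0 < (2 * lindelofAbscissa - 1) * (lindelofAbscissa - beta j) :=
    mul_pos (by linarith) (by linarith)
  have h2 : 0 < (1 + 2 * (lindelofAbscissa - beta j)) * (lindelofAbscissa - alpha j) := by
    linarith
  have h3 := pos_of_mul_pos_right h2 (by linarith)
  linarith

end Pool.Agent.Lib.MP_bc6037_nt.FO
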