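import Pool.Agent.Lib.MP_bc6037_nt.FO.LE

set_option autoImplicit false

/-!
# Module MA (40 min): moments from a pointwise bound

PROOF. Let `M = max 1 (j m + rho σ)`, `ε > 0`. The function is continuous (`continuous_zeta_line`), so it
is enough to dominate it. For `|t| ≤ 1`: bounded. Let `ε' = ε/(2(j+1))`,
`E = {1 ≤ |t|, |t|^ε' ≤ |ζ|}`. On `E`: `|ζ|^j (1+|t|)^{-(M+ε)} ≤ C^j |t|^{jm} (1+|t|)^{-(M+ε)} ≤
C^j (1+|t|)^{-κ}` with `κ = M + ε - jm > rho σ`: integrable on `E` by `integrable_E`. For `|t| ≥ 1`,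
`t ∉ E`: `|ζ|^j (1+|t|)^{-(M+ε)} ≤ |t|^{jε'} (1+|t|)^{-(1+ε)} ≤ (1+|t|)^{-(1+ε/2)}`.
(Dominating function: sum of the three pieces, with indicators.)
-/

open MeasureTheory Complex Filter Set

namespace Pool.Agent.Lib.MP_bc6037_nt.FO

theorem mom_of_bound {j : ℕ} {σ m : ℝ} (h0 : 0 < σ) (h1 : σ < 1) (hm : 0 ≤ m) (hb : ZB σ m) :
    Mom j σ (max 1 (j * m + rho σ)) := by
  intro ε hε
  obtain ⟨C, hC0, hC⟩ := hb
  set M : ℝ := max 1 (j * m + rho σ) with hM
  have hM1 : 1 ≤ M := le_max_left _ _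
  have hM2 : j * m + rho σ ≤ M := le_max_right _ _
  have hj0 : (0 : ℝ) ≤ j := Nat.cast_nonneg j
  have hε' : 0 < ε / (2 * (j + 1)) := by positivity
  have hκ : rho σ < M + ε - j * m := by linarith
  have hzc : Continuous fun t : ℝ => riemannZeta (σ + t * I) := continuous_zeta_line h1.ne
  have hpc : ∀ a : ℝ, Continuous fun t : ℝ => (1 + |t|) ^ a := by
    intro a
    refine Continuous.rpow_const (by fun_prop) ?_
    intro t
    left
    positivity
  have hfc : Continuous fun t : ℝ =>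
      ‖riemannZeta (σ + t * I)‖ ^ j * (1 + |t|) ^ (-(M + ε)) := (hzc.norm.pow j).mul (hpc _)
  set E : Set ℝ := {t : ℝ | 1 ≤ |t| ∧ |t| ^ (ε / (2 * ((j : ℝ) + 1))) ≤ ‖riemannZeta (σ + t * I)‖}
    with hE
  have hEm : MeasurableSet E := by
    have hc : Continuous fun t : ℝ => |t| ^ (ε / (2 * ((j : ℝ) + 1))) :=
      Continuous.rpow_const (by fun_prop) fun t => Or.inr hε'.le
    have h2 : IsClosed E :=
      (isClosed_le (continuous_const (y := (1 : ℝ))) continuous_abs).inter (isClosed_le hc hzc.norm)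
    exact h2.measurableSet
  have hI1 : Integrable ((Icc (-1 : ℝ) 1).indicator fun t : ℝ =>
      ‖riemannZeta (σ + t * I)‖ ^ j * (1 + |t|) ^ (-(M + ε))) :=
    (integrable_indicator_iff measurableSet_Icc).2 hfc.continuousOn.integrableOn_Icc
  have hI2 : Integrable (E.indicator fun t : ℝ => C ^ j * (1 + |t|) ^ (-(M + ε - j * m))) :=
    (integrable_indicator_iff hEm).2 ((integrable_E h0 h1 hκ hε').const_mul _)
  have hI3 : Integrable fun t : ℝ => (1 + |t|) ^ (-(1 + ε / 2)) := by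
    have := integrable_one_add_norm (E := ℝ) (μ := volume) (r := 1 + ε / 2)
      (by rw [Module.finrank_self]; push_cast; linarith)
    simpa only [Real.norm_eq_abs] using this
  refine ((hI1.add hI2).add hI3).mono' hfc.aestronglyMeasurable ?_
  refine Filter.Eventually.of_forall fun t => ?_
  have hb1 : (1 : ℝ) ≤ 1 + |t| := by linarith [abs_nonneg t]
  have hb0 : (0 : ℝ) < 1 + |t| := by linarith
  have hp : ∀ a : ℝ, 0 ≤ (1 + |t|) ^ a := fun a => Real.rpow_nonneg hb0.le a
  rw [Real.norm_eq_abs, abs_of_nonneg (mul_nonneg (by positivity) (hp _))]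
  have hi1 : 0 ≤ (Icc (-1 : ℝ) 1).indicator (fun t : ℝ =>
      ‖riemannZeta (σ + t * I)‖ ^ j * (1 + |t|) ^ (-(M + ε))) t :=
    indicator_nonneg (fun t _ => mul_nonneg (by positivity) (Real.rpow_nonneg (by positivity) _)) t
  have hi2 : 0 ≤ E.indicator (fun t : ℝ => C ^ j * (1 + |t|) ^ (-(M + ε - j * m))) t :=
    indicator_nonneg (fun t _ => mul_nonneg (by positivity) (Real.rpow_nonneg (by positivity) _)) t
  change _ ≤ (Icc (-1 : ℝ) 1).indicator (fun t : ℝ =>
      ‖riemannZeta (σ + t * I)‖ ^ j * (1 + |t|) ^ (-(M + ε))) t +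
      E.indicator (fun t : ℝ => C ^ j * (1 + |t|) ^ (-(M + ε - j * m))) t +
      (1 + |t|) ^ (-(1 + ε / 2))
  by_cases ht : |t| < 1
  · have hmem : t ∈ Icc (-1 : ℝ) 1 := ⟨(abs_lt.1 ht).1.le, (abs_lt.1 ht).2.le⟩
    rw [indicator_of_mem hmem]
    have := hp (-(1 + ε / 2))
    linarith
  · have ht1 : 1 ≤ |t| := not_lt.1 ht
    by_cases htE : t ∈ E
    · rw [indicator_of_mem htE]
      have h3 : ‖riemannZeta (σ + t * I)‖ ^ j * (1 + |t|) ^ (-(M + ε)) ≤
          C ^ j * (1 + |t|) ^ (-(M + ε - j * m)) := by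
        have h4 : ‖riemannZeta (σ + t * I)‖ ^ j ≤ C ^ j * (1 + |t|) ^ (j * m) := by
          calc ‖riemannZeta (σ + t * I)‖ ^ j ≤ (C * |t| ^ m) ^ j :=
                pow_le_pow_left₀ (norm_nonneg _) (hC t ht1) j
            _ ≤ (C * (1 + |t|) ^ m) ^ j := by
                refine pow_le_pow_left₀ (by positivity) ?_ j
                exact mul_le_mul_of_nonneg_left
                  (Real.rpow_le_rpow (abs_nonneg t) (by linarith) hm) hC0
            _ = C ^ j * (1 + |t|) ^ (j * m) := by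
                rw [mul_pow, ← Real.rpow_natCast ((1 + |t|) ^ m), ← Real.rpow_mul hb0.le,
                  mul_comm m]
        calc ‖riemannZeta (σ + t * I)‖ ^ j * (1 + |t|) ^ (-(M + ε))
            ≤ C ^ j * (1 + |t|) ^ (j * m) * (1 + |t|) ^ (-(M + ε)) :=
              mul_le_mul_of_nonneg_right h4 (hp _)
          _ = C ^ j * (1 + |t|) ^ (-(M + ε - j * m)) := by
              rw [mul_assoc, ← Real.rpow_add hb0]
              congr 2
              ring
      have := hp (-(1 + ε / 2))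
      linarith
    · have hlt : ‖riemannZeta (σ + t * I)‖ < |t| ^ (ε / (2 * ((j : ℝ) + 1))) := by
        by_contra hcon
        exact htE ⟨ht1, not_lt.1 hcon⟩
      have h3 : ‖riemannZeta (σ + t * I)‖ ^ j * (1 + |t|) ^ (-(M + ε)) ≤
          (1 + |t|) ^ (-(1 + ε / 2)) := by
        have h4 : ‖riemannZeta (σ + t * I)‖ ^ j ≤ (1 + |t|) ^ (ε / 2) := by
          calc ‖riemannZeta (σ + t * I)‖ ^ j ≤ ((1 + |t|) ^ (ε / (2 * ((j : ℝ) + 1)))) ^ j := by
                refine pow_le_pow_left₀ (norm_nonneg _) (hlt.le.trans ?_) j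
                exact Real.rpow_le_rpow (abs_nonneg t) (by linarith) hε'.le
            _ = (1 + |t|) ^ (ε / (2 * ((j : ℝ) + 1)) * j) := by
                rw [← Real.rpow_natCast, ← Real.rpow_mul hb0.le]
            _ ≤ (1 + |t|) ^ (ε / 2) := by
                refine Real.rpow_le_rpow_of_exponent_le hb1 ?_
                rw [div_mul_eq_mul_div, div_le_div_iff₀ (by positivity) (by norm_num)]
                nlinarith
        calc ‖riemannZeta (σ + t * I)‖ ^ j * (1 + |t|) ^ (-(M + ε))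
            ≤ (1 + |t|) ^ (ε / 2) * (1 + |t|) ^ (-(M + ε)) :=
              mul_le_mul_of_nonneg_right h4 (hp _)
          _ = (1 + |t|) ^ (ε / 2 + -(M + ε)) := by rw [← Real.rpow_add hb0]
          _ ≤ (1 + |t|) ^ (-(1 + ε / 2)) :=
              Real.rpow_le_rpow_of_exponent_le hb1 (by linarith)
      linarith

end Pool.Agent.Lib.MP_bc6037_nt.FO
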