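import Pool.Agent.Lib.MP_bc6037_nt.FO.UZ

set_option autoImplicit false

/-!
# Module LG (45 min): to the right of the Lindelof abscissa and of the growth points

PROOF. `lind_spec`: take `σ' < σ` in the set defining `lindelofAbscissa` (`exists_lt_of_csInf_lt`,
nonempty: `Limit.two_mem_lindelof`); if `σ ≥ 2` use `zb_two`, otherwise `zb_interp` between `σ'`
(exponent `ε`) and `2` (exponent `0`) and `zb_mono`. (The constants in the two sets have no sign
condition: replace `C` by `|C|`.) `gp_spec`: the same with the set defining `growthPoint k`, where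
`|ζ|^k ≤ C|t|` means `|ζ| ≤ C^{1/k} |t|^{1/k}` (nonempty: it contains `2`).
`gp_strict`: between `σ' < σ` and `2`: exponent `(1-θ)/k < 1/k`.
-/

open MeasureTheory Complex Filter Set

namespace Pool.Agent.Lib.MP_bc6037_nt.FO

open Limit

private lemma lg_right {σ' σ m : ℝ} (h0 : 0 < σ') (h1 : σ' < σ) (hm : 0 < m) (b : ZB σ' m) :
    ∃ m' : ℝ, 0 ≤ m' ∧ m' < m ∧ ZB σ m' := by
  rcases le_or_gt 2 σ with h2 | h2
  · exact ⟨0, le_rfl, hm, zb_two h2⟩
  · have hd : 0 < 2 - σ' := by linarith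
    set θ : ℝ := (σ - σ') / (2 - σ') with hθ
    have hθ0 : 0 < θ := div_pos (by linarith) hd
    have hθ1 : θ ≤ 1 := by rw [hθ, div_le_one hd]; linarith
    have hθd : θ * (2 - σ') = σ - σ' := div_mul_cancel₀ _ hd.ne'
    have h3 := zb_interp (σ₁ := σ') (σ₂ := 2) (θ := θ) h0 (by norm_num) hθ0.le hθ1 hm.le le_rfl b
      (zb_two le_rfl)
    have e : (1 - θ) * σ' + θ * 2 = σ := by linarith
    rw [e] at h3
    refine ⟨_, ?_, ?_, h3⟩
    · have := mul_nonneg (by linarith : 0 ≤ 1 - θ) hm.le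
      linarith
    · have := mul_pos hθ0 hm
      linarith

theorem lind_spec {σ ε : ℝ} (h : lindelofAbscissa < σ) (hε : 0 < ε) : ZB σ ε := by
  obtain ⟨σ', ⟨h0, hs⟩, h1⟩ := exists_lt_of_csInf_lt ⟨2, two_mem_lindelof⟩ h
  obtain ⟨C, hC⟩ := hs ε hε
  have b : ZB σ' ε := by
    refine ⟨|C|, abs_nonneg C, fun t ht => (hC t ht).trans ?_⟩
    exact mul_le_mul_of_nonneg_right (le_abs_self C) (by positivity)
  obtain ⟨m', _, h2, h3⟩ := lg_right h0 h1 hε b
  exact zb_mono h2.le h3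

theorem gp_strict {k : ℕ} (hk : 1 ≤ k) {σ : ℝ} (h : growthPoint k < σ) :
    ∃ m : ℝ, 0 ≤ m ∧ m < 1 / k ∧ ZB σ m := by
  have hk0 : (0 : ℝ) < k := by exact_mod_cast hk
  have hne : {σ : ℝ | 0 < σ ∧ ∃ C : ℝ, ∀ t : ℝ, 1 ≤ |t| →
      ‖riemannZeta (σ + t * I)‖ ^ k ≤ C * |t|}.Nonempty := by
    obtain ⟨C, hC, b⟩ := zb_two (σ := 2) le_rfl
    refine ⟨2, by norm_num, C ^ k, fun t ht => ?_⟩
    have h1 := b t ht
    rw [Real.rpow_zero, mul_one] at h1
    calc _ ≤ C ^ k := pow_le_pow_left₀ (norm_nonneg _) h1 k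
      _ = C ^ k * 1 := (mul_one _).symm
      _ ≤ C ^ k * |t| := by gcongr
  obtain ⟨σ', ⟨h0, C, hC⟩, h1⟩ := exists_lt_of_csInf_lt hne h
  have b : ZB σ' (1 / k) := by
    refine ⟨|C| ^ (1 / k : ℝ), by positivity, fun t ht => ?_⟩
    have h2 : ‖riemannZeta (σ' + t * I)‖ ^ k ≤ |C| * |t| :=
      (hC t ht).trans (mul_le_mul_of_nonneg_right (le_abs_self C) (abs_nonneg t))
    have h3 := Real.rpow_le_rpow (by positivity) h2 (by positivity : (0 : ℝ) ≤ 1 / k)
    rw [Real.mul_rpow (abs_nonneg C) (abs_nonneg t), ← Real.rpow_natCast, ← Real.rpow_mul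
      (norm_nonneg _), mul_one_div_cancel hk0.ne', Real.rpow_one] at h3
    exact h3
  exact lg_right h0 h1 (by positivity) b

theorem gp_spec {k : ℕ} (hk : 1 ≤ k) {σ : ℝ} (h : growthPoint k < σ) : ZB σ (1 / k) := by
  obtain ⟨m, _, h1, h2⟩ := gp_strict hk h
  exact zb_mono h1.le h2

end Pool.Agent.Lib.MP_bc6037_nt.FO
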