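import Pool.Agent.Lib.MP_bc6037_nt.FO.LE
import Pool.Agent.Lib.MP_bc6037_nt.FO.LG

set_option autoImplicit false

/-!
# Module MB (60 min): moments from the mean-square exponent

`beta k < σ₁`, `lindelofAbscissa < σ₂`, `σ = (1-θ)σ₁ + θσ₂ < 1`, `a = (1-θ) j/(2k) ≤ 1`:
`Mom j σ (max 1 (2a + (1-a) rho σ))`.

PROOF. Write `w = 1+|t|`, `M` for the maximum, `ε > 0`, `ε₁ > 0` small (`j ε₁ ≤ ε/4` is enough).
`U σ t ≤ K (U σ₁ t)^{1-θ} (U σ₂ t)^θ` (`Rec.U_interp'`), `U σ₂ t ≤ C w^{1+ε₁}` (`U_of_ZB`, `lind_spec`),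
`|ζ(σ+it)| ≤ U σ t/|t| ≤ 2 U σ t/w` for `|t| ≥ 1`. Hence, with `X = U σ₁ t^{2k}/w^{2k+2}` (integrable:
`Rec.fin_of_beta`), `|ζ|^j ≤ C w^{jε₁} (U σ₁ t/w)^{(1-θ)j} = C w^{jε₁} (X w²)^a`
(as `(1-θ) j = 2k a`). On `E = {1 ≤ |t|, |t|^{ε'} ≤ |ζ|}`, with `κ = rho σ + ε/4` and `Y = w^{-κ}`
(integrable on `E` by `integrable_E`):
`|ζ|^j w^{-(M+ε)} ≤ C X^a w^{jε₁+2a-M-ε} ≤ C X^a Y^{1-a}` since
`M + ε ≥ 2a + (1-a)(rho σ) + ε ≥ jε₁ + 2a + (1-a) κ`; and `X^a Y^{1-a} ≤ X + Y`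
(`Real.geom_mean_le_arith_mean2_weighted`, see `Fin.interp` in RecCompare.lean). Off `E`: as in
module MA (`|ζ|^j ≤ |t|^{jε'}`), for `|t| ≤ 1` bounded.
-/

open MeasureTheory Complex Filter Set

namespace Pool.Agent.Lib.MP_bc6037_nt.FO

open Limit Rec

private lemma MB_lind_nonneg : 0 ≤ lindelofAbscissa :=
  Real.sInf_nonneg fun _ h => h.1.le

/-- the bound for `ζ` in terms of `U` on the line `σ₁` -/
private lemma MB_zeta_le {σ₁ σ₂ θ ε₁ : ℝ} (h1 : 0 < σ₁)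
    (h2 : lindelofAbscissa < σ₂) (hθ0 : 0 ≤ θ) (hθ1 : θ ≤ 1)
    (hσ0 : 0 < (1 - θ) * σ₁ + θ * σ₂) (hε : 0 < ε₁) :
    ∃ C : ℝ, 0 ≤ C ∧ ∀ t : ℝ, 1 ≤ |t| →
      ‖riemannZeta (((1 - θ) * σ₁ + θ * σ₂ : ℝ) + t * I)‖ ≤
        C * ((U σ₁ t / (1 + |t|)) ^ (1 - θ) * (1 + |t|) ^ ε₁) := by
  have h20 : 0 < σ₂ := MB_lind_nonneg.trans_lt h2
  obtain ⟨C, hC0, hC⟩ := U_of_ZB h20 hε.le (lind_spec h2 hε)
  set K := Real.exp ((σ₂ - σ₁) ^ 2 + 1) with hK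
  refine ⟨2 * K * C ^ θ, by positivity, fun t ht => ?_⟩
  have hw : 0 < 1 + |t| := by positivity
  have hw1 : 1 ≤ 1 + |t| := by linarith [abs_nonneg t]
  have a1 := zeta_le_U hσ0 ht
  have a2 := U_interp' h1 h20 hθ0 hθ1 t
  rw [← hK] at a2
  have a3 : U σ₂ t ^ θ ≤ (C * (1 + |t|) ^ (1 + ε₁)) ^ θ :=
    Real.rpow_le_rpow (U_nonneg _) (hC t) hθ0
  have hU1 : 0 ≤ U σ₁ t ^ (1 - θ) := Real.rpow_nonneg (U_nonneg _) _
  have a4 : U ((1 - θ) * σ₁ + θ * σ₂) t ≤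
      K * (U σ₁ t ^ (1 - θ) * (C * (1 + |t|) ^ (1 + ε₁)) ^ θ) := by
    refine a2.trans ?_
    gcongr
  have a5 : U ((1 - θ) * σ₁ + θ * σ₂) t / |t| ≤
      2 * U ((1 - θ) * σ₁ + θ * σ₂) t / (1 + |t|) := by
    rw [div_le_div_iff₀ (by linarith) hw]
    have := U_nonneg (σ := (1 - θ) * σ₁ + θ * σ₂) t
    nlinarith
  have e1 : (C * (1 + |t|) ^ (1 + ε₁)) ^ θ = C ^ θ * (1 + |t|) ^ ((1 + ε₁) * θ) := by
    rw [Real.mul_rpow hC0 (by positivity), ← Real.rpow_mul hw.le]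
  have e2 : (U σ₁ t / (1 + |t|)) ^ (1 - θ) = U σ₁ t ^ (1 - θ) * (1 + |t|) ^ (-(1 - θ)) := by
    rw [Real.div_rpow (U_nonneg _) hw.le, Real.rpow_neg hw.le, div_eq_mul_inv]
  have e3 : (1 + |t|) ^ ((1 + ε₁) * θ) / (1 + |t|) ≤ (1 + |t|) ^ (-(1 - θ)) * (1 + |t|) ^ ε₁ := by
    rw [← Real.rpow_add hw, ← Real.rpow_sub_one hw.ne']
    refine Real.rpow_le_rpow_of_exponent_le hw1 ?_
    nlinarith
  calc ‖riemannZeta (((1 - θ) * σ₁ + θ * σ₂ : ℝ) + t * I)‖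
      ≤ U ((1 - θ) * σ₁ + θ * σ₂) t / |t| := a1
    _ ≤ 2 * U ((1 - θ) * σ₁ + θ * σ₂) t / (1 + |t|) := a5
    _ ≤ 2 * (K * (U σ₁ t ^ (1 - θ) * (C * (1 + |t|) ^ (1 + ε₁)) ^ θ)) / (1 + |t|) := by
        gcongr
    _ = 2 * K * C ^ θ * (U σ₁ t ^ (1 - θ) * ((1 + |t|) ^ ((1 + ε₁) * θ) / (1 + |t|))) := by
        rw [e1]; ring
    _ ≤ 2 * K * C ^ θ * (U σ₁ t ^ (1 - θ) * ((1 + |t|) ^ (-(1 - θ)) * (1 + |t|) ^ ε₁)) := by
        gcongr
    _ = 2 * K * C ^ θ * ((U σ₁ t / (1 + |t|)) ^ (1 - θ) * (1 + |t|) ^ ε₁) := by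
        rw [e2]; ring

theorem mom_of_beta {j k : ℕ} (hk : 1 ≤ k) {σ₁ σ₂ θ : ℝ} (h1 : beta k < σ₁)
    (h2 : lindelofAbscissa < σ₂) (hθ0 : 0 ≤ θ) (hθ1 : θ ≤ 1)
    (hσ0 : 0 < (1 - θ) * σ₁ + θ * σ₂) (hσ1 : (1 - θ) * σ₁ + θ * σ₂ < 1)
    (ha : (1 - θ) * j / (2 * k) ≤ 1) :
    Mom j ((1 - θ) * σ₁ + θ * σ₂) (max 1 (2 * ((1 - θ) * j / (2 * k)) +
      (1 - (1 - θ) * j / (2 * k)) * rho ((1 - θ) * σ₁ + θ * σ₂))) := by
  intro ε hε
  have h10 : 0 < σ₁ := (beta_nonneg k).trans_lt h1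
  have hk0 : (0 : ℝ) < k := by exact_mod_cast hk
  have hj0 : (0 : ℝ) ≤ j := Nat.cast_nonneg j
  set a : ℝ := (1 - θ) * j / (2 * k) with hadef
  have ha0 : 0 ≤ a := by
    rw [hadef]
    have : 0 ≤ 1 - θ := by linarith
    positivity
  have hka : (2 * k : ℝ) * a = (1 - θ) * j := by
    rw [hadef]; field_simp
  set ε₁ : ℝ := ε / (4 * (j + 1)) with hε1
  set ε' : ℝ := ε / (2 * (j + 1)) with hε'
  have hε1p : 0 < ε₁ := by positivity
  have hε'p : 0 < ε' := by positivity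
  have hjε1 : j * ε₁ ≤ ε / 4 := by
    rw [hε1, mul_div_assoc', div_le_div_iff₀ (by positivity) (by positivity)]
    nlinarith
  have hjε' : j * ε' ≤ ε / 2 := by
    rw [hε', mul_div_assoc', div_le_div_iff₀ (by positivity) (by positivity)]
    nlinarith
  obtain ⟨C, hC0, hC⟩ := MB_zeta_le h10 h2 hθ0 hθ1 hσ0 hε1p
  set σ : ℝ := (1 - θ) * σ₁ + θ * σ₂ with hσ
  set M : ℝ := max 1 (2 * a + (1 - a) * rho σ) with hM
  have hM1 : 1 ≤ M := le_max_left _ _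
  have hM2 : 2 * a + (1 - a) * rho σ ≤ M := le_max_right _ _
  have hrho0 : 0 ≤ rho σ := rho_nonneg hσ1.le
  have hcont : Continuous fun t : ℝ => ‖riemannZeta ((σ : ℂ) + t * I)‖ :=
    (continuous_zeta_line hσ1.ne).norm
  have hwcont : ∀ r : ℝ, Continuous fun t : ℝ => (1 + |t|) ^ r := fun r =>
    Continuous.rpow_const (by fun_prop) fun t => Or.inl (by positivity)
  have hfcont : Continuous fun t : ℝ =>
      ‖riemannZeta ((σ : ℂ) + t * I)‖ ^ j * (1 + |t|) ^ (-(M + ε)) :=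
    (hcont.pow j).mul (hwcont _)
  -- the three pieces
  set E : Set ℝ := {t : ℝ | 1 ≤ |t| ∧ |t| ^ ε' ≤ ‖riemannZeta (σ + t * I)‖} with hE
  have hEm : MeasurableSet E := by
    have c1 : IsClosed {t : ℝ | 1 ≤ |t|} := isClosed_le continuous_const continuous_abs
    have c2 : IsClosed {t : ℝ | |t| ^ ε' ≤ ‖riemannZeta ((σ : ℂ) + t * I)‖} :=
      isClosed_le (continuous_abs.rpow_const fun _ => Or.inr hε'p.le) hcont
    exact (c1.inter c2).measurableSet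
  have hκ : rho σ < rho σ + ε / 4 := by linarith
  have hY : Integrable (E.indicator fun t : ℝ => (1 + |t|) ^ (-(rho σ + ε / 4))) :=
    (integrable_indicator_iff hEm).mpr (integrable_E hσ0 hσ1 hκ hε'p)
  have hX : Integrable fun t : ℝ => U σ₁ t ^ (2 * k) / (1 + |t|) ^ (2 * k + 2) :=
    fin_of_beta hk h1
  have hZ : Integrable fun t : ℝ => (1 + |t|) ^ (-(1 + ε / 2)) := by
    have := integrable_one_add_norm (E := ℝ) (μ := volume) (r := 1 + ε / 2) (by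
      rw [Module.finrank_self]; push_cast; linarith)
    simpa only [Real.norm_eq_abs] using this
  obtain ⟨B, hB⟩ := (isCompact_Icc (a := (-1 : ℝ)) (b := 1)).exists_bound_of_continuousOn
    hfcont.continuousOn
  have hW : Integrable ((Icc (-1 : ℝ) 1).indicator fun _ : ℝ => |B|) := by
    refine (integrable_indicator_iff measurableSet_Icc).mpr ?_
    exact integrableOn_const (by simp)
  refine Integrable.mono' (((hX.add hY).const_mul (C ^ j)).add (hZ.add hW))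
    hfcont.aestronglyMeasurable (ae_of_all _ fun t => ?_)
  have hw : 0 < 1 + |t| := by positivity
  have hw1 : 1 ≤ 1 + |t| := by linarith [abs_nonneg t]
  have hnn : 0 ≤ ‖riemannZeta ((σ : ℂ) + t * I)‖ ^ j * (1 + |t|) ^ (-(M + ε)) := by positivity
  rw [Real.norm_of_nonneg hnn]
  simp only [Pi.add_apply]
  have hX0 : 0 ≤ U σ₁ t ^ (2 * k) / (1 + |t|) ^ (2 * k + 2) :=
    div_nonneg (pow_nonneg (U_nonneg _) _) (by positivity)
  have hY0 : 0 ≤ E.indicator (fun t : ℝ => (1 + |t|) ^ (-(rho σ + ε / 4))) t :=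
    indicator_nonneg (fun x _ => by positivity) _
  have hZ0 : 0 ≤ (1 + |t|) ^ (-(1 + ε / 2)) := by positivity
  have hW0 : 0 ≤ (Icc (-1 : ℝ) 1).indicator (fun _ : ℝ => |B|) t :=
    indicator_nonneg (fun x _ => abs_nonneg _) _
  have hXY0 : 0 ≤ C ^ j * (U σ₁ t ^ (2 * k) / (1 + |t|) ^ (2 * k + 2) +
      E.indicator (fun t : ℝ => (1 + |t|) ^ (-(rho σ + ε / 4))) t) := by positivity
  by_cases ht : 1 ≤ |t|
  · by_cases hEt : t ∈ E
    · -- on `E`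
      set X := U σ₁ t ^ (2 * k) / (1 + |t|) ^ (2 * k + 2) with hXdef
      set Y := (1 + |t|) ^ (-(rho σ + ε / 4)) with hYdef
      have hYp : 0 ≤ Y := by positivity
      have hXa : (U σ₁ t / (1 + |t|)) ^ ((1 - θ) * j) = X ^ a * (1 + |t|) ^ (2 * a) := by
        have hV0 : 0 ≤ U σ₁ t / (1 + |t|) := div_nonneg (U_nonneg _) hw.le
        have e1 : (U σ₁ t / (1 + |t|)) ^ (2 * k) = X * (1 + |t|) ^ 2 := by
          rw [hXdef, div_pow, pow_add]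
          field_simp
        rw [← hka]
        rw [Real.rpow_mul hV0]
        have e2 : (U σ₁ t / (1 + |t|)) ^ (2 * (k : ℝ)) = X * (1 + |t|) ^ 2 := by
          rw [← e1, ← Real.rpow_natCast]
          push_cast
          rfl
        rw [e2, Real.mul_rpow hX0 (by positivity), ← Real.rpow_natCast, ← Real.rpow_mul hw.le]
        norm_num
      have hζ := hC t ht
      have b1 : ‖riemannZeta ((σ : ℂ) + t * I)‖ ^ j ≤
          C ^ j * (X ^ a * (1 + |t|) ^ (2 * a + j * ε₁)) := by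
        have hV0 : 0 ≤ U σ₁ t / (1 + |t|) := div_nonneg (U_nonneg _) hw.le
        calc ‖riemannZeta ((σ : ℂ) + t * I)‖ ^ j
            ≤ (C * ((U σ₁ t / (1 + |t|)) ^ (1 - θ) * (1 + |t|) ^ ε₁)) ^ j :=
              pow_le_pow_left₀ (norm_nonneg _) hζ j
          _ = C ^ j * (((U σ₁ t / (1 + |t|)) ^ (1 - θ)) ^ j * ((1 + |t|) ^ ε₁) ^ j) := by
              rw [mul_pow, mul_pow]
          _ = C ^ j * ((U σ₁ t / (1 + |t|)) ^ ((1 - θ) * j) * (1 + |t|) ^ (ε₁ * j)) := by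
              rw [← Real.rpow_natCast, ← Real.rpow_natCast, ← Real.rpow_natCast,
                ← Real.rpow_mul hV0, ← Real.rpow_mul hw.le]
          _ = C ^ j * (X ^ a * (1 + |t|) ^ (2 * a + j * ε₁)) := by
              rw [hXa, Real.rpow_add hw, mul_comm ε₁]
              ring
      have b2 : (1 + |t|) ^ (2 * a + j * ε₁) * (1 + |t|) ^ (-(M + ε)) ≤ Y ^ (1 - a) := by
        rw [← Real.rpow_add hw, hYdef, ← Real.rpow_mul hw.le]
        refine Real.rpow_le_rpow_of_exponent_le hw1 ?_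
        nlinarith
      have b3 : X ^ a * Y ^ (1 - a) ≤ X + Y := by
        have := Real.geom_mean_le_arith_mean2_weighted ha0 (by linarith : 0 ≤ 1 - a) hX0 hYp
          (by ring)
        refine this.trans ?_
        nlinarith
      have hXa0 : 0 ≤ X ^ a := by positivity
      rw [indicator_of_mem hEt] at hXY0 ⊢
      calc ‖riemannZeta ((σ : ℂ) + t * I)‖ ^ j * (1 + |t|) ^ (-(M + ε))
          ≤ C ^ j * (X ^ a * (1 + |t|) ^ (2 * a + j * ε₁)) * (1 + |t|) ^ (-(M + ε)) := by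
            gcongr
        _ = C ^ j * (X ^ a * ((1 + |t|) ^ (2 * a + j * ε₁) * (1 + |t|) ^ (-(M + ε)))) := by
            ring
        _ ≤ C ^ j * (X ^ a * Y ^ (1 - a)) := by gcongr
        _ ≤ C ^ j * (X + Y) := by gcongr
        _ ≤ _ := by linarith
    · -- off `E`
      have hlt : ‖riemannZeta ((σ : ℂ) + t * I)‖ ≤ |t| ^ ε' := by
        by_contra hcon
        push Not at hcon
        exact hEt ⟨ht, hcon.le⟩
      have b1 : ‖riemannZeta ((σ : ℂ) + t * I)‖ ^ j * (1 + |t|) ^ (-(M + ε)) ≤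
          (1 + |t|) ^ (-(1 + ε / 2)) := by
        calc ‖riemannZeta ((σ : ℂ) + t * I)‖ ^ j * (1 + |t|) ^ (-(M + ε))
            ≤ ((1 + |t|) ^ ε') ^ j * (1 + |t|) ^ (-(M + ε)) := by
              gcongr
              exact hlt.trans (Real.rpow_le_rpow (abs_nonneg _) (by linarith) hε'p.le)
          _ = (1 + |t|) ^ (ε' * j + -(M + ε)) := by
              rw [← Real.rpow_natCast, ← Real.rpow_mul hw.le, ← Real.rpow_add hw]
          _ ≤ _ := by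
              refine Real.rpow_le_rpow_of_exponent_le hw1 ?_
              linarith [mul_comm ε' (j : ℝ)]
      linarith
  · -- `|t| ≤ 1`
    have htI : t ∈ Icc (-1 : ℝ) 1 := by
      push Not at ht
      exact ⟨(abs_lt.mp ht).1.le, (abs_lt.mp ht).2.le⟩
    have b1 := hB t htI
    rw [Real.norm_of_nonneg hnn] at b1
    rw [indicator_of_mem htI] at hW0 ⊢
    have b2 := le_abs_self B
    linarith

end Pool.Agent.Lib.MP_bc6037_nt.FO
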