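import Pool.Agent.Lib.MP_bc6037_nt.FO.Per1

set_option autoImplicit false

/-!
# Module Per (35 min): Perron bound from a moment on a line

If the `j`-th moment of `ζ` on the line `σ` has exponent `M ≥ 1` then `alpha j ≤ 1 - (1-σ)/M`.

PROOF. Copy the proof of `Perron.perron_bound` (Perron.lean) with `m = M - 1 ≥ 0` and
`smooth_bound_of_mom` instead of `smooth_bound` (nothing else changes), with the `Z` and `P` of
`Exponents.mainPoly_data j`; then conclude as in `Limit.alpha_le_of_growth`.
-/

open MeasureTheory Complex Filter Set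

namespace Pool.Agent.Lib.MP_bc6037_nt.FO

open Perron DeltaMellin MainPoly Limit Exponents

private theorem per_bound {j : ℕ} {P : Polynomial ℝ} {Z : ℂ → ℂ}
    (hZ : DifferentiableOn ℂ Z {s : ℂ | 0 < s.re})
    (hZe : ∀ s : ℂ, 0 < s.re → s ≠ 1 → Z s = riemannZeta s ^ j / s - Q P s)
    {σ₀ m : ℝ} (h0 : 0 < σ₀) (h1' : σ₀ < 1) (hm : 0 ≤ m) (hz : Mom j σ₀ (1 + m))
    {ε : ℝ} (hε : 0 < ε) :
    ∃ C : ℝ, ∀ x : ℝ, 1 ≤ x → |Err j P x| ≤ C * x ^ (1 - (1 - σ₀) / (1 + m) + ε) := by
  obtain ⟨C1, hC1, h1⟩ := smooth_bound_of_mom hZ hZe h0 h1' (by linarith) hz hε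
  rw [add_sub_cancel_left] at h1
  obtain ⟨L, hL, h2⟩ := fE_diff j P hε
  obtain ⟨C3, hC3, h3⟩ := fE_bound j P
  set κ : ℝ := (1 - σ₀) / (1 + m) with hκ
  have hm1 : 0 < 1 + m := by linarith
  have hκ0 : 0 < κ := div_pos (by linarith) hm1
  have hκ1 : κ ≤ 1 := by
    rw [hκ, div_le_one hm1]
    linarith
  have hκm : σ₀ + κ * m = 1 - κ := by
    rw [hκ]
    field_simp
    ring
  set e : ℝ := 1 - κ + ε with he
  have he0 : 0 < e := by rw [he]; linarith
  -- bound in the logarithmic variable for y > 1
  have hlog : ∀ y : ℝ, 1 < y → |fE j P y| ≤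
      (C1 + L * Real.exp (1 + ε)) * Real.exp (e * y) := by
    intro y hy
    set δ : ℝ := Real.exp (-(κ * y)) with hδ
    have hδ0 : 0 < δ := Real.exp_pos _
    have hδ1 : δ ≤ 1 := by
      rw [hδ, Real.exp_le_one_iff]
      nlinarith
    have hδm : δ ^ (-(m + ε)) * Real.exp (σ₀ * y) ≤ Real.exp (e * y) := by
      rw [hδ, ← Real.exp_mul, ← Real.exp_add]
      apply Real.exp_le_exp.mpr
      have : -(κ * y) * -(m + ε) + σ₀ * y = (σ₀ + κ * m) * y + κ * ε * y := by ring
      rw [this, hκm, he]
      have : κ * ε ≤ ε := by nlinarith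
      nlinarith
    have hδL : L * δ * Real.exp ((1 + ε) * y) = L * Real.exp (e * y) := by
      rw [hδ, mul_assoc, ← Real.exp_add]
      congr 2
      rw [he]
      ring
    have hsm1 := h1 δ hδ0 hδ1 y
    have hsm2 := h1 δ hδ0 hδ1 (y - δ)
    have hsm1' : |smooth δ (fE j P) y| ≤ C1 * Real.exp (e * y) := by
      calc _ ≤ C1 * δ ^ (-(m + ε)) * Real.exp (σ₀ * y) := hsm1
        _ = C1 * (δ ^ (-(m + ε)) * Real.exp (σ₀ * y)) := by ring
        _ ≤ _ := by gcongr
    have hsm2' : |smooth δ (fE j P) (y - δ)| ≤ C1 * Real.exp (e * y) := by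
      calc _ ≤ C1 * δ ^ (-(m + ε)) * Real.exp (σ₀ * (y - δ)) := hsm2
        _ ≤ C1 * δ ^ (-(m + ε)) * Real.exp (σ₀ * y) := by
          gcongr
          linarith
        _ = C1 * (δ ^ (-(m + ε)) * Real.exp (σ₀ * y)) := by ring
        _ ≤ _ := by gcongr
    have hmeas : ∀ z : ℝ, Measurable (fun v => fE j P (z - v)) := fun z =>
      (measurable_fE j P).comp (measurable_const.sub measurable_id)
    have hint : ∀ z : ℝ, Integrable (fun v => fE j P (z - v) * kd δ v) := by
      intro z
      apply integrable_mul_kd (hmeas z) hδ0 (B := C3 * Real.exp (2 * (|z| + 1)))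
      intro v hv
      refine (h3 _).trans ?_
      gcongr
      calc |z - v| ≤ |z| + |v| := abs_sub _ _
        _ ≤ |z| + 1 := by
          have : |v| ≤ 1 := by
            rw [abs_le]
            constructor <;> linarith [hv.1, hv.2]
          linarith
    have hki : Integrable (kd δ) :=
      (kd_continuous δ).integrable_of_hasCompactSupport (kd_compact hδ0)
    -- upper bound
    have hup : fE j P y - smooth δ (fE j P) y ≤ L * Real.exp (e * y + (1 + ε)) := by
      have e1 : fE j P y - smooth δ (fE j P) y =
          ∫ v, (fE j P y - fE j P (y - v)) * kd δ v := by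
        have e2 : (fun v => (fE j P y - fE j P (y - v)) * kd δ v) =
            fun v => fE j P y * kd δ v - fE j P (y - v) * kd δ v := by
          funext v; ring
        rw [e2, integral_sub (hki.const_mul _) (hint y), integral_const_mul, kd_integral hδ0,
          mul_one, smooth]
      rw [e1]
      calc ∫ v, (fE j P y - fE j P (y - v)) * kd δ v
          ≤ ∫ v, (L * Real.exp (e * y + (1 + ε))) * kd δ v := by
            apply integral_mono
            · have e2 : (fun v => (fE j P y - fE j P (y - v)) * kd δ v) =
                  fun v => fE j P y * kd δ v - fE j P (y - v) * kd δ v := by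
                funext v; ring
              rw [e2]
              exact (hki.const_mul _).sub (hint y)
            · exact hki.const_mul _
            · intro v
              simp only
              by_cases hv : v ∈ Icc (-δ) 0
              · apply mul_le_mul_of_nonneg_right _ (kd_nonneg hδ0 v)
                have := h2 y (y - v) (by linarith) (by linarith [hv.2]) (by linarith [hv.1])
                refine this.trans ?_
                have hv1 : y - v - y ≤ δ := by linarith [hv.1]
                calc L * (y - v - y) * Real.exp ((1 + ε) * (y - v))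
                    ≤ L * δ * Real.exp ((1 + ε) * (y + 1)) := by
                      gcongr
                      linarith [hv.1]
                  _ = (L * δ * Real.exp ((1 + ε) * y)) * Real.exp (1 + ε) := by
                      have e5 : Real.exp ((1 + ε) * (y + 1)) =
                          Real.exp ((1 + ε) * y) * Real.exp (1 + ε) := by
                        rw [← Real.exp_add]; congr 1; ring
                      rw [e5]; ring
                  _ = (L * Real.exp (e * y)) * Real.exp (1 + ε) := by rw [hδL]
                  _ = _ := by rw [mul_assoc, ← Real.exp_add]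
              · rw [kd_eq_zero hδ0 hv]; simp
        _ = _ := by rw [integral_const_mul, kd_integral hδ0, mul_one]
    have hlow : smooth δ (fE j P) (y - δ) - fE j P y ≤ L * Real.exp (e * y + (1 + ε)) := by
      have e1 : smooth δ (fE j P) (y - δ) - fE j P y =
          ∫ v, (fE j P (y - δ - v) - fE j P y) * kd δ v := by
        have e2 : (fun v => (fE j P (y - δ - v) - fE j P y) * kd δ v) =
            fun v => fE j P (y - δ - v) * kd δ v - fE j P y * kd δ v := by
          funext v; ring
        rw [e2, integral_sub (hint _) (hki.const_mul _), integral_const_mul, kd_integral hδ0,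
          mul_one, smooth]
      rw [e1]
      calc ∫ v, (fE j P (y - δ - v) - fE j P y) * kd δ v
          ≤ ∫ v, (L * Real.exp (e * y + (1 + ε))) * kd δ v := by
            apply integral_mono
            · have e2 : (fun v => (fE j P (y - δ - v) - fE j P y) * kd δ v) =
                  fun v => fE j P (y - δ - v) * kd δ v - fE j P y * kd δ v := by
                funext v; ring
              rw [e2]
              exact (hint _).sub (hki.const_mul _)
            · exact hki.const_mul _
            · intro v
              simp only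
              by_cases hv : v ∈ Icc (-δ) 0
              · apply mul_le_mul_of_nonneg_right _ (kd_nonneg hδ0 v)
                have := h2 (y - δ - v) y (by linarith [hv.2]) (by linarith [hv.1])
                  (by linarith [hv.2])
                refine this.trans ?_
                have hv1 : y - (y - δ - v) ≤ δ := by linarith [hv.2]
                have hv2 : 0 ≤ y - (y - δ - v) := by linarith [hv.1]
                calc L * (y - (y - δ - v)) * Real.exp ((1 + ε) * y)
                    ≤ L * δ * Real.exp ((1 + ε) * y) := by gcongr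
                  _ = L * Real.exp (e * y) := hδL
                  _ ≤ _ := by
                      gcongr
                      linarith
              · rw [kd_eq_zero hδ0 hv]; simp
        _ = _ := by rw [integral_const_mul, kd_integral hδ0, mul_one]
    rw [Real.exp_add] at hup hlow
    rw [abs_le] at hsm1' hsm2' ⊢
    constructor
    · linarith [hsm2'.1]
    · linarith [hsm1'.2]
  obtain ⟨C5, hC5, h5⟩ := Err_le j P (by norm_num : (1 : ℝ) < 2)
  refine ⟨(C1 + L * Real.exp (1 + ε)) + C5 * Real.exp 2, fun x hx => ?_⟩
  have hx0 : 0 < x := by linarith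
  have hxe : 1 ≤ x ^ e := Real.one_le_rpow hx he0.le
  rcases le_or_gt (Real.log x) 1 with hy | hy
  · have hx1 : x ≤ Real.exp 1 := (Real.log_le_iff_le_exp hx0).mp hy
    calc |Err j P x| ≤ C5 * x ^ (2 : ℝ) := h5 x hx
      _ ≤ C5 * (Real.exp 1) ^ (2 : ℝ) := by gcongr
      _ = C5 * Real.exp 2 * 1 := by rw [← Real.exp_mul]; norm_num
      _ ≤ C5 * Real.exp 2 * x ^ e := by gcongr
      _ ≤ _ := by
        have : 0 ≤ (C1 + L * Real.exp (1 + ε)) * x ^ e := by positivity
        linarith
  · have h6 := hlog (Real.log x) hy
    have h7 : fE j P (Real.log x) = Err j P x := by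
      unfold fE
      rw [indicator_of_mem (show Real.log x ∈ Ioi (0 : ℝ) by
        show 0 < Real.log x; linarith), Real.exp_log hx0]
    have h8 : Real.exp (e * Real.log x) = x ^ e := by
      rw [Real.rpow_def_of_pos hx0, mul_comm]
    rw [h7, h8] at h6
    refine h6.trans ?_
    have : 0 ≤ C5 * Real.exp 2 * x ^ e := by positivity
    linarith

theorem alpha_le_of_mom {j : ℕ} {σ M : ℝ} (h0 : 0 < σ) (h1 : σ < 1) (hM : 1 ≤ M)
    (h : Mom j σ M) : alpha j ≤ 1 - (1 - σ) / M := by
  obtain ⟨Z, hZ, hZ', _⟩ := mainPoly_data j
  apply le_of_forall_pos_le_add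
  intro ε hε
  have e : 1 + (M - 1) = M := by ring
  obtain ⟨C, hC⟩ := per_bound hZ hZ' h0 h1 (m := M - 1) (by linarith) (by rw [e]; exact h) hε
  rw [e] at hC
  exact csInf_le (alpha_set_bdd j) ⟨C, hC⟩

end Pool.Agent.Lib.MP_bc6037_nt.FO
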