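import Pool.Agent.Lib.MP_bc6037_nt.FO.GP
import Pool.Agent.Lib.MP_bc6037_nt.FO.MA
import Pool.Agent.Lib.MP_bc6037_nt.FO.MB
import Pool.Agent.Lib.MP_bc6037_nt.FO.Per

set_option autoImplicit false

/-!
# Module Core: the two master inequalities

`masterA` (from growth), `masterB` (from the mean square exponent).

PROOF. Let `δ > 0` be small, `σ₁ = A_k + δ` (resp. `β_k + δ`), `σ₂ = L + δ`, `σ = s + δ < 1`; then
`σ = (1-θ)σ₁ + θσ₂` with `1-θ = (L-s)/(L-A_k)` (independent of `δ`). `masterA`: `zb_interp` with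
`gp_spec`, `lind_spec` (exponent `ε`): `ZB σ ((1-θ)/k + θε)`; `mom_of_bound`, `alpha_le_of_mom`:
`alpha j ≤ 1 - (1-s-δ)/max 1 (j((1-θ)/k+θε) + rho(s+δ))`, and `rho(s+δ) ≤ rho s` (`rho_anti`);
`δ, ε → 0`. `masterB`: `mom_of_beta` and `rho_anti` (`2a + (1-a) rho` is nondecreasing in rho as
`a ≤ 1`), `δ → 0`.
-/

open MeasureTheory Complex Filter Set

namespace Pool.Agent.Lib.MP_bc6037_nt.FO

open Limit Rec

private lemma core_limit {x y C : ℝ} (g : ℝ → ℝ) (hg : Continuous g) (hC : 0 < C)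
    (h : ∀ δ : ℝ, 0 < δ → δ < C → x ≤ g δ) (hy : g 0 = y) : x ≤ y := by
  have h1 : Tendsto g (nhdsWithin 0 (Ioi 0)) (nhds (g 0)) :=
    (hg.tendsto 0).mono_left nhdsWithin_le_nhds
  rw [← hy]
  refine ge_of_tendsto h1 ?_
  filter_upwards [Ioo_mem_nhdsGT hC] with δ hδ
  exact h δ hδ.1 hδ.2

theorem masterA {j k : ℕ} (hk : 1 ≤ k) {s : ℝ} (hs0 : growthPoint k ≤ s)
    (hsL : s ≤ lindelofAbscissa) (hs1 : s < 1) :
    alpha j ≤ 1 - (1 - s) / max 1 ((j / k : ℝ) * ((lindelofAbscissa - s) /
      (lindelofAbscissa - growthPoint k)) + rho s) := by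
  have hA0 := growthPoint_nonneg k
  have hAL := growthPoint_lt_lindelof hk
  set A := growthPoint k with hA
  set L := lindelofAbscissa with hL
  have hk0 : (0 : ℝ) < k := by exact_mod_cast hk
  set q := (L - s) / (L - A) with hq
  have hLA : 0 < L - A := by linarith
  have hq0 : 0 ≤ q := div_nonneg (by linarith) hLA.le
  have hq1 : q ≤ 1 := by rw [hq, div_le_one hLA]; linarith
  have hqm : q * (L - A) = L - s := div_mul_cancel₀ _ hLA.ne'
  have key : ∀ δ : ℝ, 0 < δ → δ < 1 - s →
      alpha j ≤ 1 - (1 - (s + δ)) / max 1 (j * (q * (1 / k) + (1 - q) * δ) + rho s) := by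
    intro δ h0 h1
    have e1 : (1 - (1 - q)) * (A + δ) + (1 - q) * (L + δ) = s + δ := by linarith
    have b := zb_interp (σ₁ := A + δ) (σ₂ := L + δ) (θ := 1 - q) (m₁ := 1 / k) (m₂ := δ)
      (by linarith) (by linarith) (by linarith) (by linarith) (by positivity) h0.le
      (gp_spec hk (by linarith)) (lind_spec (by linarith) h0)
    rw [e1] at b
    have hm : 0 ≤ (1 - (1 - q)) * (1 / (k : ℝ)) + (1 - q) * δ :=
      add_nonneg (mul_nonneg (by linarith) (by positivity)) (mul_nonneg (by linarith) h0.le)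
    have h2 := alpha_le_of_mom (by linarith) (by linarith) (le_max_left _ _)
      (mom_of_bound (j := j) (by linarith) (by linarith) hm b)
    refine h2.trans ?_
    have h3 : rho (s + δ) ≤ rho s := rho_anti (by linarith) (by linarith)
    have h4 : max 1 ((j : ℝ) * ((1 - (1 - q)) * (1 / k) + (1 - q) * δ) + rho (s + δ)) ≤
        max 1 (j * (q * (1 / k) + (1 - q) * δ) + rho s) := by
      refine max_le_max le_rfl ?_
      rw [sub_sub_cancel]
      linarith
    have h5 := div_le_div_of_nonneg_left (by linarith : 0 ≤ 1 - (s + δ))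
      (lt_of_lt_of_le one_pos (le_max_left _ _)) h4
    linarith
  refine core_limit (fun δ => 1 - (1 - (s + δ)) /
    max 1 (j * (q * (1 / k) + (1 - q) * δ) + rho s)) ?_ (by linarith : 0 < 1 - s) key ?_
  · refine Continuous.sub continuous_const (Continuous.div (by fun_prop) (by fun_prop) ?_)
    intro δ
    exact (lt_of_lt_of_le one_pos (le_max_left _ _)).ne'
  · have : (j : ℝ) * (q * (1 / k) + (1 - q) * 0) = (j / k : ℝ) * q := by ring
    simp only [this, add_zero]

theorem masterB {j k : ℕ} (hk : 1 ≤ k) {s a : ℝ} (hs0 : beta k ≤ s)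
    (hsL : s ≤ lindelofAbscissa) (hs1 : s < 1)
    (ha : a = (j / (2 * k) : ℝ) * ((lindelofAbscissa - s) / (lindelofAbscissa - beta k)))
    (ha1 : a ≤ 1) :
    alpha j ≤ 1 - (1 - s) / max 1 (2 * a + (1 - a) * rho s) := by
  have hA0 := beta_nonneg k
  have hAL := beta_lt_lindelof hk
  set A := beta k with hA
  set L := lindelofAbscissa with hL
  have hk0 : (0 : ℝ) < k := by exact_mod_cast hk
  set q := (L - s) / (L - A) with hq
  have hLA : 0 < L - A := by linarith
  have hq0 : 0 ≤ q := div_nonneg (by linarith) hLA.le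
  have hq1 : q ≤ 1 := by rw [hq, div_le_one hLA]; linarith
  have hqm : q * (L - A) = L - s := div_mul_cancel₀ _ hLA.ne'
  have ha' : (1 - (1 - q)) * j / (2 * k) = a := by rw [ha]; ring
  have key : ∀ δ : ℝ, 0 < δ → δ < 1 - s →
      alpha j ≤ 1 - (1 - (s + δ)) / max 1 (2 * a + (1 - a) * rho s) := by
    intro δ h0 h1
    have e1 : (1 - (1 - q)) * (A + δ) + (1 - q) * (L + δ) = s + δ := by linarith
    have b := mom_of_beta (j := j) hk (σ₁ := A + δ) (σ₂ := L + δ) (θ := 1 - q)
      (by linarith) (by linarith) (by linarith) (by linarith) (by linarith) (by linarith)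
      (by rw [ha']; exact ha1)
    rw [e1, ha'] at b
    have h2 := alpha_le_of_mom (by linarith) (by linarith) (le_max_left _ _) b
    refine h2.trans ?_
    have h3 : rho (s + δ) ≤ rho s := rho_anti (by linarith) (by linarith)
    have h4 : max 1 (2 * a + (1 - a) * rho (s + δ)) ≤ max 1 (2 * a + (1 - a) * rho s) := by
      refine max_le_max le_rfl ?_
      have := mul_le_mul_of_nonneg_left h3 (by linarith : 0 ≤ 1 - a)
      linarith
    have h5 := div_le_div_of_nonneg_left (by linarith : 0 ≤ 1 - (s + δ))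
      (lt_of_lt_of_le one_pos (le_max_left _ _)) h4
    linarith
  refine core_limit (fun δ => 1 - (1 - (s + δ)) /
    max 1 (2 * a + (1 - a) * rho s)) (by fun_prop) (by linarith : 0 < 1 - s) key ?_
  simp only [add_zero]

end Pool.Agent.Lib.MP_bc6037_nt.FO
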