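import Pool.Agent.Lib.MP_bc6037_nt.FO.Base

set_option autoImplicit false

/-!
# Definitions for the approximation of zeta by smoothed partial sums

`ps s x = ∑_{n ≤ x} n^{-s}`, `ff s y = ps s (e^y) - ζ(s) - e^{(1-s)y}/(1-s)` for `y > 0`, `0` for
`y ≤ 0`; `FL s z = ζ(s+z)/z - ζ(s)/z - 1/((1-s)(z-(1-s)))` is its Laplace transform for large `Re z`.
-/

open MeasureTheory Complex Filter Set

namespace Pool.Agent.Lib.MP_bc6037_nt.FO

/-- Partial sums of the zeta series. -/
noncomputable def ps (s : ℂ) (x : ℝ) : ℂ := ∑ n ∈ Finset.Icc 1 ⌊x⌋₊, (n : ℂ) ^ (-s)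

/-- The error term in the logarithmic variable. -/
noncomputable def ff (s : ℂ) (y : ℝ) : ℂ :=
  (Ioi (0 : ℝ)).indicator
    (fun y : ℝ => ps s (Real.exp y) - riemannZeta s - cexp ((1 - s) * y) / (1 - s)) y

/-- Its Laplace transform. -/
noncomputable def FL (s z : ℂ) : ℂ :=
  riemannZeta (s + z) / z - riemannZeta s / z - 1 / ((1 - s) * (z - (1 - s)))

end Pool.Agent.Lib.MP_bc6037_nt.FO
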