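import Pool.Agent.Lib.MP_bc6037_nt.FO.LG

set_option autoImplicit false

/-!
# Module GP (50 min): the growth points and the exponents

PROOF. `growthPoint_le_meanExp`: every `σ > meanExp |Delta k|` is in the set
(`Limit.zeta_of_meanExp`; `meanExp ≥ 0`), `csInf_le` and `le_of_forall_gt`.
`beta_le_growthPoint`: for `σ > growthPoint (2k)` there is `m < 1/(2k)` with `ZB σ m` (`gp_strict`), so
`U σ t ≤ C (1+|t|)^{1+m}` and `U^{2k}/(1+|t|)^{2k+2} ≤ C (1+|t|)^{2km-2}` is integrable, `2km < 1`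
(`integrable_one_add_norm`): `Fin k σ`; then `Rec.beta_le_of_fin` (`U` is continuous: `continuous_U`).
`tendsto_growthPoint`: `growthPoint k ≤ meanExp |Delta k| ≤ L` (tendsto upper bound; or directly
`meanExp_le_beta`, `beta_le_alpha`, `alpha_le_lindelof`). Lower bound: let `0 < a < L` (if `L ≤ a`
nothing to prove; `growthPoint ≥ 0`). `a` is not in the set defining `L` so there is `ε > 0` such that no
`C` works; if `growthPoint k < a` and `1/k ≤ ε` then `gp_spec` and `zb_mono` give `ZB a ε`, a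
contradiction. So `growthPoint k ≥ a` for all large `k`.
`beta_lt_lindelof`: `RecFinal.beta_le_lindelof` with `i = 1`, `beta_one`: `β_k ≤ (1-1/k) L`, `L > 0`.
`half_le_lindelof`: `beta_ge` and `beta k ≤ L` for all `k`, `k → ∞`. `lindelof_le_one`:
`Limit.lindelof_le` with `alpha_lt_one`.
-/

open MeasureTheory Complex Filter Set
open scoped Topology

namespace Pool.Agent.Lib.MP_bc6037_nt.FO

open Limit Rec

theorem growthPoint_nonneg (k : ℕ) : 0 ≤ growthPoint k := Real.sInf_nonneg fun _ h => h.1.le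

theorem growthPoint_le_meanExp (k : ℕ) : growthPoint k ≤ meanExp (fun y => |Delta k y|) := by
  apply le_of_forall_gt_imp_ge_of_dense
  intro σ hσ
  obtain ⟨C, -, hC⟩ := zeta_of_meanExp hσ
  exact csInf_le ⟨0, fun _ h => h.1.le⟩ ⟨(meanExp_nonneg _).trans_lt hσ, C, hC⟩

theorem beta_le_growthPoint {k : ℕ} (hk : 1 ≤ k) : beta k ≤ growthPoint (2 * k) := by
  refine beta_le_of_fin (growthPoint_nonneg _) fun σ hσ => ?_
  have h0 : 0 < σ := (growthPoint_nonneg _).trans_lt hσ
  obtain ⟨m, hm0, hm, hzb⟩ := gp_strict (by omega : 1 ≤ 2 * k) hσ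
  obtain ⟨C, hC0, hC⟩ := U_of_ZB h0 hm0 hzb
  have hk0 : (0 : ℝ) < k := by exact_mod_cast hk
  have hm' : 2 * (k : ℝ) * m < 1 := by
    push_cast at hm
    rw [lt_div_iff₀ (by positivity)] at hm
    linarith
  have hint : Integrable fun t : ℝ => (1 + ‖t‖) ^ (-(2 - 2 * (k : ℝ) * m)) := by
    apply integrable_one_add_norm
    simp only [Module.finrank_self, Nat.cast_one]
    linarith
  have hcont : Continuous fun t : ℝ => U σ t ^ (2 * k) / (1 + |t|) ^ (2 * k + 2) := by
    apply Continuous.div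
    · exact (continuous_U h0).pow _
    · fun_prop
    · intro t
      positivity
  refine (hint.const_mul (C ^ (2 * k))).mono' hcont.aestronglyMeasurable
    (Eventually.of_forall fun t => ?_)
  have ht : 0 < 1 + |t| := by positivity
  have hU0 : 0 ≤ U σ t := U_nonneg t
  rw [Real.norm_eq_abs, Real.norm_eq_abs, abs_of_nonneg (by positivity)]
  have e1 : ((1 + |t|) ^ (1 + m)) ^ (2 * k) = (1 + |t|) ^ ((1 + m) * ((2 * k : ℕ) : ℝ)) := by
    rw [← Real.rpow_natCast, ← Real.rpow_mul ht.le]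
  have e2 : (1 + |t|) ^ (2 * k + 2) = (1 + |t|) ^ (((2 * k + 2 : ℕ) : ℝ)) := by
    rw [Real.rpow_natCast]
  calc U σ t ^ (2 * k) / (1 + |t|) ^ (2 * k + 2)
      ≤ (C * (1 + |t|) ^ (1 + m)) ^ (2 * k) / (1 + |t|) ^ (2 * k + 2) := by
        apply div_le_div_of_nonneg_right _ (by positivity)
        exact pow_le_pow_left₀ hU0 (hC t) _
    _ = C ^ (2 * k) * (1 + |t|) ^ (-(2 - 2 * (k : ℝ) * m)) := by
        rw [mul_pow, e1, e2, mul_div_assoc, ← Real.rpow_sub ht]
        congr 2
        push_cast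
        ring

theorem half_le_lindelof : 1 / 2 ≤ lindelofAbscissa := by
  have h1 : ∀ k : ℕ, 2 ≤ k → 1 / 2 - 1 / (2 * (k : ℝ)) ≤ lindelofAbscissa := by
    intro k hk
    have h2 := (beta_ge hk).trans ((beta_le_alpha k).trans (alpha_le_lindelof k))
    have hk0 : (0 : ℝ) < k := by
      have : 0 < k := by omega
      exact_mod_cast this
    have e : ((k : ℝ) - 1) / (2 * k) = 1 / 2 - 1 / (2 * (k : ℝ)) := by
      field_simp
    rwa [e] at h2
  apply le_of_forall_pos_le_add
  intro ε hε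
  obtain ⟨k, hk⟩ := exists_nat_gt (1 / ε)
  have h3 := h1 (max k 2) (le_max_right _ _)
  have hk2 : 1 / ε < ((max k 2 : ℕ) : ℝ) := by
    refine hk.trans_le ?_
    exact_mod_cast le_max_left k 2
  have hpos : (0 : ℝ) < ((max k 2 : ℕ) : ℝ) := lt_trans (by positivity) hk2
  have h4 : 1 / (2 * ((max k 2 : ℕ) : ℝ)) ≤ ε := by
    rw [div_le_iff₀ (by positivity)]
    rw [div_lt_iff₀ hε] at hk2
    nlinarith
  linarith

theorem lindelof_le_one : lindelofAbscissa ≤ 1 := lindelof_le fun j => (alpha_lt_one j).le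

theorem beta_lt_lindelof {k : ℕ} (hk : 1 ≤ k) : beta k < lindelofAbscissa := by
  have h := beta_le_lindelof (i := 1) le_rfl hk
  rw [beta_one, mul_zero, zero_add] at h
  have hL : 0 < lindelofAbscissa := lt_of_lt_of_le (by norm_num) half_le_lindelof
  have hk0 : (0 : ℝ) < k := by exact_mod_cast hk
  have h2 : 0 < ((1 : ℕ) : ℝ) / k * lindelofAbscissa := by
    push_cast
    positivity
  nlinarith

theorem growthPoint_lt_lindelof {k : ℕ} (hk : 1 ≤ k) : growthPoint k < lindelofAbscissa :=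
  ((growthPoint_le_meanExp k).trans (meanExp_le_beta k)).trans_lt (beta_lt_lindelof hk)

theorem tendsto_growthPoint : Tendsto growthPoint atTop (𝓝 lindelofAbscissa) := by
  apply tendsto_order.2
  constructor
  · intro a ha
    -- take `b` with `max a 0 < b < L`
    have hL : 0 < lindelofAbscissa := lt_of_lt_of_le (by norm_num) half_le_lindelof
    obtain ⟨b, hb1, hb2⟩ := exists_between (max_lt ha hL)
    have hab : a < b := (le_max_left _ _).trans_lt hb1
    have hb0 : 0 < b := (le_max_right _ _).trans_lt hb1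
    have hnot : b ∉ {σ : ℝ | 0 < σ ∧ ∀ ε : ℝ, 0 < ε → ∃ C : ℝ, ∀ t : ℝ, 1 ≤ |t| →
        ‖riemannZeta (σ + t * I)‖ ≤ C * |t| ^ ε} := fun hmem =>
      absurd (csInf_le lindelof_set_bdd hmem) (not_le.2 hb2)
    have hex : ∃ ε : ℝ, 0 < ε ∧ ¬ ∃ C : ℝ, ∀ t : ℝ, 1 ≤ |t| →
        ‖riemannZeta (b + t * I)‖ ≤ C * |t| ^ ε := by
      by_contra hcon
      push Not at hcon
      exact hnot ⟨hb0, hcon⟩
    obtain ⟨ε, hε, hno⟩ := hex
    obtain ⟨K, hK⟩ := exists_nat_gt (1 / ε)
    filter_upwards [eventually_ge_atTop (max K 1)] with k hk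
    by_contra hcon
    rw [not_lt] at hcon
    have hk1 : 1 ≤ k := (le_max_right _ _).trans hk
    have hKk : (K : ℝ) ≤ k := by exact_mod_cast (le_max_left K 1).trans hk
    have hk0 : (0 : ℝ) < k := by exact_mod_cast hk1
    have hzb := gp_spec hk1 (hcon.trans_lt hab)
    have hle : 1 / (k : ℝ) ≤ ε := by
      rw [div_le_iff₀ hk0]
      rw [div_lt_iff₀ hε] at hK
      nlinarith
    obtain ⟨C, -, hC⟩ := zb_mono hle hzb
    exact hno ⟨C, hC⟩
  · intro a ha
    filter_upwards [eventually_ge_atTop 1] with k hk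
    exact (growthPoint_lt_lindelof hk).trans ha

end Pool.Agent.Lib.MP_bc6037_nt.FO
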