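import Pool.Agent.Lib.MP_bc6037_nt.Smooth

set_option autoImplicit false

/-!
# Module KKneg (15 min): rapid decay of the kernel transform in `-2 ≤ Re w ≤ 2`

PROOF. Copy `Perron.KK_decay` (Smooth.lean): the only change is the bound
`‖cexp (-w v)‖ ≤ exp 2` for `v ∈ [-1,0]`, which holds for `|Re w| ≤ 2` (`Perron.norm_exp_le` is the
case `0 ≤ Re w`).
-/

open MeasureTheory Complex Filter Set

namespace Pool.Agent.Lib.MP_bc6037_nt.FO

open Perron

private lemma kkneg_norm_exp_le {w : ℂ} (h0 : -2 ≤ w.re) (h2 : w.re ≤ 2) {v : ℝ}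
    (hv : v ∈ Icc (-1 : ℝ) 0) : ‖cexp (-w * v)‖ ≤ Real.exp 2 := by
  rw [Complex.norm_exp]
  apply Real.exp_le_exp.mpr
  have : (-w * (v : ℂ)).re = -w.re * v := by simp
  rw [this]
  nlinarith [hv.1, hv.2]

theorem KK_decay_neg (n : ℕ) : ∃ C : ℝ, 0 < C ∧ ∀ w : ℂ, -2 ≤ w.re → w.re ≤ 2 →
    ‖KK w‖ ≤ C * (1 + ‖w‖) ^ (-(n : ℝ)) := by
  have hbound : ∀ m : ℕ, ∃ C : ℝ, 0 ≤ C ∧ ∀ w : ℂ, -2 ≤ w.re → w.re ≤ 2 →
      ‖w‖ ^ m * ‖KK w‖ ≤ C := by
    intro m
    set g : ℝ → ℂ := fun v => (psi v : ℂ) with hg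
    have hgm : Continuous (iteratedDeriv m g) :=
      psiC_smooth.continuous_iteratedDeriv m (by exact_mod_cast le_top)
    have hgi : Integrable (iteratedDeriv m g) := by
      apply hgm.integrable_of_hasCompactSupport
      exact HasCompactSupport.intro isCompact_Icc (fun v hv => iteratedDeriv_psi_zero m hv)
    refine ⟨Real.exp 2 * ∫ v, ‖iteratedDeriv m g v‖, by positivity, ?_⟩
    intro w h0 h2
    rw [← norm_pow, ← norm_mul, KK, ← laplace_deriv m g psiC_smooth psiC_compact w]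
    calc ‖∫ v, iteratedDeriv m g v * cexp (-w * v)‖
        ≤ ∫ v, ‖iteratedDeriv m g v * cexp (-w * v)‖ := norm_integral_le_integral_norm _
      _ ≤ ∫ v, Real.exp 2 * ‖iteratedDeriv m g v‖ := by
          apply integral_mono_of_nonneg
          · exact ae_of_all _ (fun v => norm_nonneg _)
          · exact hgi.norm.const_mul _
          · refine ae_of_all _ (fun v => ?_)
            simp only
            rw [norm_mul]
            by_cases hv : v ∈ Icc (-1 : ℝ) 0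
            · rw [mul_comm]
              exact mul_le_mul_of_nonneg_right (kkneg_norm_exp_le h0 h2 hv) (norm_nonneg _)
            · rw [iteratedDeriv_psi_zero m hv]; simp
      _ = _ := by rw [integral_const_mul]
  obtain ⟨C0, hC0, h0⟩ := hbound 0
  obtain ⟨C1, hC1, h1⟩ := hbound n
  refine ⟨2 ^ n * (C0 + C1) + 1, by positivity, ?_⟩
  intro w hw0 hw2
  have e0 := h0 w hw0 hw2
  have e1 := h1 w hw0 hw2
  simp only [pow_zero, one_mul] at e0
  rw [Real.rpow_neg (by positivity), Real.rpow_natCast, ← div_eq_mul_inv, le_div_iff₀ (by positivity)]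
  have hle : (1 + ‖w‖) ^ n ≤ 2 ^ n * (1 + ‖w‖ ^ n) := by
    rcases le_total ‖w‖ 1 with h | h
    · calc (1 + ‖w‖) ^ n ≤ 2 ^ n := by
            apply pow_le_pow_left₀ (by positivity); linarith
        _ = 2 ^ n * 1 := by ring
        _ ≤ 2 ^ n * (1 + ‖w‖ ^ n) := by gcongr; linarith [pow_nonneg (norm_nonneg w) n]
    · calc (1 + ‖w‖) ^ n ≤ (2 * ‖w‖) ^ n := by
            apply pow_le_pow_left₀ (by positivity); linarith
        _ = 2 ^ n * ‖w‖ ^ n := by rw [mul_pow]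
        _ ≤ 2 ^ n * (1 + ‖w‖ ^ n) := by gcongr; linarith
  calc ‖KK w‖ * (1 + ‖w‖) ^ n ≤ ‖KK w‖ * (2 ^ n * (1 + ‖w‖ ^ n)) := by gcongr
    _ = 2 ^ n * (‖KK w‖ + ‖w‖ ^ n * ‖KK w‖) := by ring
    _ ≤ 2 ^ n * (C0 + C1) := by gcongr
    _ ≤ _ := by linarith

end Pool.Agent.Lib.MP_bc6037_nt.FO
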