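import Pool.Agent.Lib.MP_bc6037_nt.FO.LZ

set_option autoImplicit false

/-!
# Module LE (45 min): integrability over the set where `ζ` is large

PROOF. Let `E = {t : 1 ≤ |t|, |t|^ε ≤ |ζ(σ+it)|}` (measurable: `continuous_zeta_line`). Since
`ζ(conj s) = conj ζ(s)` (Mathlib: `riemannZeta_conj`, or grep in the library), `E = -E`, so it is
enough to integrate over `E ∩ (0,∞) ⊆ ⋃_i {t ∈ [2^i, 2^{i+1}] : (2^i)^ε ≤ |ζ(σ+it)|}`. On the `i`-th
piece `(1+|t|)^{-κ} ≤ 2^{-iκ}` (`κ > rho σ ≥ 0`) and the measure is `≤ C 2^{i(rho σ + η)}`, with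
`η = (κ - rho σ)/2`; `∑_i 2^{-iη} < ∞`. (Mathlib: `integrableOn_iUnion_of_summable_integral_norm` or
lintegral over a countable union.)
-/

open MeasureTheory Complex Filter Set

namespace Pool.Agent.Lib.MP_bc6037_nt.FO

private lemma LE_symm {σ : ℝ} (t : ℝ) :
    ‖riemannZeta (σ + ((-t : ℝ) : ℂ) * I)‖ = ‖riemannZeta (σ + t * I)‖ := by
  have h := riemannZeta_conj (σ + t * I)
  have h2 : (starRingEnd ℂ) ((σ : ℂ) + t * I) = (σ : ℂ) + ((-t : ℝ) : ℂ) * I := by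
    rw [map_add, map_mul, Complex.conj_ofReal, Complex.conj_ofReal, Complex.conj_I]
    push_cast
    ring
  rw [h2] at h
  rw [h, RCLike.norm_conj]

private lemma LE_pos {σ κ ε : ℝ} (h0 : 0 < σ) (h1 : σ < 1) (hκ : rho σ < κ) (hε : 0 < ε) :
    IntegrableOn (fun t : ℝ => (1 + |t|) ^ (-κ))
      {t : ℝ | 1 ≤ t ∧ t ^ ε ≤ ‖riemannZeta (σ + t * I)‖} := by
  have hρ0 := rho_nonneg (s := σ) h1.le
  have hκ0 : 0 < κ := lt_of_le_of_lt hρ0 hκ
  have hη : 0 < (κ - rho σ) / 2 := by linarith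
  obtain ⟨C, hC, hCb⟩ := large_values h0 h1 hε hη
  have hzc : Continuous fun t : ℝ => riemannZeta (σ + t * I) := continuous_zeta_line h1.ne
  set s : ℕ → Set ℝ := fun i =>
    {t : ℝ | t ∈ Icc ((2 : ℝ) ^ i) (2 * (2 : ℝ) ^ i) ∧ ((2 : ℝ) ^ i) ^ ε ≤ ‖riemannZeta (σ + t * I)‖}
    with hs
  have hsm : ∀ i, MeasurableSet (s i) := by
    intro i
    have h2 : IsClosed (s i) := isClosed_Icc.inter (isClosed_le continuous_const hzc.norm)
    exact h2.measurableSet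
  have hfc : Continuous fun t : ℝ => (1 + |t|) ^ (-κ) := by
    refine Continuous.rpow_const (by fun_prop) ?_
    intro t
    left
    positivity
  have hi : ∀ i, IntegrableOn (fun t : ℝ => (1 + |t|) ^ (-κ)) (s i) := by
    intro i
    exact (hfc.continuousOn.integrableOn_Icc (a := (2 : ℝ) ^ i) (b := 2 * (2 : ℝ) ^ i)).mono_set
      fun t ht => ht.1
  have hb : ∀ i : ℕ, ∫ t in s i, ‖(1 + |t|) ^ (-κ)‖ ≤ C * ((2 : ℝ) ^ (-((κ - rho σ) / 2))) ^ i := by
    intro i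
    have hT1 : (1 : ℝ) ≤ 2 ^ i := one_le_pow₀ (by norm_num)
    have hT0 : (0 : ℝ) < 2 ^ i := by linarith
    have hfin : volume (s i) ≠ ⊤ := by
      refine ne_top_of_le_ne_top ?_ (measure_mono (fun t ht => ht.1) :
        volume (s i) ≤ volume (Icc ((2 : ℝ) ^ i) (2 * (2 : ℝ) ^ i)))
      rw [Real.volume_Icc]
      exact ENNReal.ofReal_ne_top
    have h3 : ∫ t in s i, ‖(1 + |t|) ^ (-κ)‖ ≤ ∫ t in s i, ((2 : ℝ) ^ i) ^ (-κ) := by
      refine setIntegral_mono_on (hi i).norm (integrableOn_const hfin) (hsm i) ?_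
      intro t ht
      have ht1 : (2 : ℝ) ^ i ≤ t := ht.1.1
      have ht0 : 0 ≤ t := by linarith
      rw [Real.norm_eq_abs, abs_of_nonneg (Real.rpow_nonneg (by positivity) _), abs_of_nonneg ht0]
      exact Real.rpow_le_rpow_of_nonpos hT0 (by linarith) (by linarith)
    have h4 := hCb ((2 : ℝ) ^ i) hT1
    rw [setIntegral_const, smul_eq_mul] at h3
    refine h3.trans ?_
    have h5 : volume.real (s i) ≤ C * ((2 : ℝ) ^ i) ^ (rho σ + (κ - rho σ) / 2) := h4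
    calc volume.real (s i) * ((2 : ℝ) ^ i) ^ (-κ)
        ≤ C * ((2 : ℝ) ^ i) ^ (rho σ + (κ - rho σ) / 2) * ((2 : ℝ) ^ i) ^ (-κ) :=
          mul_le_mul_of_nonneg_right h5 (Real.rpow_nonneg hT0.le _)
      _ = C * ((2 : ℝ) ^ i) ^ (-((κ - rho σ) / 2)) := by
          rw [mul_assoc, ← Real.rpow_add hT0]
          congr 2
          ring
      _ = C * ((2 : ℝ) ^ (-((κ - rho σ) / 2))) ^ i := by
          rw [← Real.rpow_natCast, ← Real.rpow_natCast, ← Real.rpow_mul (by norm_num),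
            ← Real.rpow_mul (by norm_num), mul_comm (i : ℝ)]
  have hr : (2 : ℝ) ^ (-((κ - rho σ) / 2)) < 1 :=
    Real.rpow_lt_one_of_one_lt_of_neg (by norm_num) (by linarith)
  have hr0 : 0 ≤ (2 : ℝ) ^ (-((κ - rho σ) / 2)) := Real.rpow_nonneg (by norm_num) _
  have hsum : Summable fun i : ℕ => ∫ t in s i, ‖(1 + |t|) ^ (-κ)‖ := by
    refine Summable.of_nonneg_of_le (fun i => ?_) hb ((summable_geometric_of_lt_one hr0 hr).mul_left C)
    exact integral_nonneg fun t => norm_nonneg _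
  have hU := integrableOn_iUnion_of_summable_integral_norm hi hsum
  refine hU.mono_set ?_
  intro t ht
  obtain ⟨ht1, ht2⟩ := ht
  obtain ⟨i, hi1, hi2⟩ := exists_nat_pow_near ht1 (by norm_num : (1 : ℝ) < 2)
  rw [mem_iUnion]
  refine ⟨i, ⟨hi1, ?_⟩, ?_⟩
  · rw [pow_succ, mul_comm] at hi2
    exact hi2.le
  · exact (Real.rpow_le_rpow (by positivity) hi1 hε.le).trans ht2

theorem integrable_E {σ κ ε : ℝ} (h0 : 0 < σ) (h1 : σ < 1) (hκ : rho σ < κ) (hε : 0 < ε) :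
    IntegrableOn (fun t : ℝ => (1 + |t|) ^ (-κ))
      {t : ℝ | 1 ≤ |t| ∧ |t| ^ ε ≤ ‖riemannZeta (σ + t * I)‖} := by
  have hpos := LE_pos h0 h1 hκ hε
  have hzc : Continuous fun t : ℝ => riemannZeta (σ + t * I) := continuous_zeta_line h1.ne
  have hm : MeasurableSet {t : ℝ | 1 ≤ t ∧ t ^ ε ≤ ‖riemannZeta (σ + t * I)‖} := by
    have hc : Continuous fun t : ℝ => t ^ ε := Real.continuous_rpow_const hε.le
    have h2 : IsClosed {t : ℝ | 1 ≤ t ∧ t ^ ε ≤ ‖riemannZeta (σ + t * I)‖} :=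
      isClosed_Ici.inter (isClosed_le hc hzc.norm)
    exact h2.measurableSet
  have hneg : IntegrableOn (fun t : ℝ => (1 + |t|) ^ (-κ))
      (Neg.neg ⁻¹' {t : ℝ | 1 ≤ t ∧ t ^ ε ≤ ‖riemannZeta (σ + t * I)‖}) := by
    rw [← integrable_indicator_iff (measurable_neg hm)]
    have h3 := ((integrable_indicator_iff hm).2 hpos).comp_neg
    refine h3.congr (Filter.Eventually.of_forall fun t => ?_)
    simp only [indicator, mem_preimage, abs_neg]
  refine (hpos.union hneg).mono_set ?_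
  intro t ht
  obtain ⟨ht1, ht2⟩ := ht
  rcases le_total 0 t with h | h
  · left
    rw [abs_of_nonneg h] at ht1 ht2
    exact ⟨ht1, ht2⟩
  · right
    rw [abs_of_nonpos h] at ht1 ht2
    refine ⟨ht1, ?_⟩
    rw [LE_symm]
    exact ht2

end Pool.Agent.Lib.MP_bc6037_nt.FO
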