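import Pool.Agent.Lib.MP_bc6037_nt.FO.Base
import Pool.Agent.Lib.MP_bc6037_nt.FO.Block

set_option autoImplicit false

/-!
# Module Opt (50 min): optimisation of the power

For `1/2 ≤ σ < 1` and `T^δ ≤ N ≤ T`: `meas{t ∈ [T,2T] : |D_N(t)| ≥ 1} ≤ C T^{rho σ + η}`.

PROOF. Let `y = 1-σ ≤ 1/2` and let `m ≥ 1` be maximal with `N^m ≤ T` (`m ≤ 1/δ`; if `N = 1` then
`T = 1` and the measure is `≤ 1`). Use `block m` and `block (m+1)` with `η` replaced by `η/2` (take the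
maximum of the constants over `m ≤ 1/δ + 1`). With `N = T^ν`, `mν ≤ 1 < (m+1)ν`:
`T N^{-m(2σ-1)} = T^{1-mν(1-2y)}` and `N^{2m y} ≤ T^{1 - mν(1-2y)}` since `mν ≤ 1`; so `block m` gives
`2C T^{1-mν(1-2y)+η/2}`. For `m+1`: `T N^{-(m+1)(2σ-1)} ≤ N^{2(m+1)y}` since `T ≤ N^{m+1}`; so
`block (m+1)` gives `2C T^{2(m+1)νy+η/2}`. Claim `min(1-mν(1-2y), 2(m+1)νy) ≤ w := 2(m+1)y/(m+2y)`:
if `ν ≥ 1/(m+2y)` the first one is `≤ 1 - m(1-2y)/(m+2y) = w`, otherwise the second one is `≤ w`.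
And `w ≤ 4y/(1+2y)`: `(m+1)(1+2y) ≤ 2(m+2y) ⟺ (m-1)(1-2y) ≥ 0`. Finally `4y/(1+2y) = 4(1-σ)/(3-2σ)`
`= rho σ` (`rho_eq`).
-/

open MeasureTheory Complex Filter Set

namespace Pool.Agent.Lib.MP_bc6037_nt.FO

/-- The alternative behind the optimisation of the power. -/
lemma opt_alt {σ τ x : ℝ} {m : ℕ} (hσ : 1 / 2 ≤ σ) (hσ1 : σ < 1) (hm : 1 ≤ m) (hx : 0 < x) :
    τ - m * (2 * σ - 1) * x ≤ rho σ * τ ∨ 2 * (m + 1) * (1 - σ) * x ≤ rho σ * τ := by
  have hm1 : (1 : ℝ) ≤ m := by exact_mod_cast hm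
  rw [rho_eq hσ hσ1.le]
  set y : ℝ := 1 - σ with hy
  have e1 : (3 : ℝ) - 2 * σ = 1 + 2 * y := by rw [hy]; ring
  have e2 : 2 * σ - 1 = 1 - 2 * y := by rw [hy]; ring
  have hy0 : 0 < y := by rw [hy]; linarith
  have hy1 : y ≤ 1 / 2 := by rw [hy]; linarith
  rw [e1, e2]
  by_contra hcon
  push Not at hcon
  obtain ⟨h1, h2⟩ := hcon
  have hd : 0 < 1 + 2 * y := by linarith
  have h3 : 4 * y / (1 + 2 * y) * τ * (1 + 2 * y) = 4 * y * τ := by field_simp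
  have h4 : 4 * y * τ < (τ - m * (1 - 2 * y) * x) * (1 + 2 * y) := by
    rw [← h3]
    exact mul_lt_mul_of_pos_right h1 hd
  have h5 : 4 * y * τ < (2 * (m + 1) * y * x) * (1 + 2 * y) := by
    rw [← h3]
    exact mul_lt_mul_of_pos_right h2 hd
  -- first: (1-2y) (τ - m (1+2y) x) > 0
  have h6 : 0 < (1 - 2 * y) * (τ - m * (1 + 2 * y) * x) := by nlinarith
  have h7 : 0 < τ - m * (1 + 2 * y) * x := by
    by_contra h
    push Not at h
    nlinarith [mul_nonneg (by linarith : (0 : ℝ) ≤ 1 - 2 * y) (by linarith : (0:ℝ) ≤ -(τ - m * (1 + 2 * y) * x))]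
  have h8 : 0 < 2 * y * ((m + 1) * x * (1 + 2 * y) - 2 * τ) := by nlinarith
  have h9 : 0 < (m + 1) * x * (1 + 2 * y) - 2 * τ := pos_of_mul_pos_right h8 (by linarith)
  have h10 : 0 < (m + 1) * x * (1 + 2 * y) - 2 * (m * (1 + 2 * y) * x) := by linarith
  have h11 : (m + 1) * x * (1 + 2 * y) - 2 * (m * (1 + 2 * y) * x) =
      -((m - 1) * (x * (1 + 2 * y))) := by ring
  rw [h11] at h10
  have h12 : 0 ≤ (m - 1 : ℝ) * (x * (1 + 2 * y)) := mul_nonneg (by linarith) (by positivity)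
  linarith

theorem opt {σ η δ : ℝ} (hσ : 1 / 2 ≤ σ) (hσ1 : σ < 1) (hη : 0 < η) (hδ : 0 < δ) :
    ∃ C : ℝ, 0 ≤ C ∧
    ∀ (N : ℕ) (T : ℝ), 1 ≤ T → T ^ δ ≤ N → (N : ℝ) ≤ T →
      ∀ c : ℕ → ℂ, (∀ n : ℕ, 1 ≤ n → ‖c n‖ ≤ (n : ℝ) ^ (-σ)) →
        (volume {t : ℝ | t ∈ Icc T (2 * T) ∧
          1 ≤ ‖∑ n ∈ Finset.Ioc N (2 * N), c n * (n : ℂ) ^ (-((t : ℂ) * I))‖}).toReal ≤
          C * T ^ (rho σ + η) := by
  choose C hC0 hC using fun m : ℕ => block m (by linarith : 0 < σ) hσ1.le (half_pos hη)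
  have hsum0 : 0 ≤ ∑ m ∈ Finset.range (⌊1 / δ⌋₊ + 2), C m := Finset.sum_nonneg fun m _ => hC0 m
  refine ⟨1 + 2 * ∑ m ∈ Finset.range (⌊1 / δ⌋₊ + 2), C m, by positivity, ?_⟩
  intro N T hT hN hNT c hc
  set S : Set ℝ := {t : ℝ | t ∈ Icc T (2 * T) ∧
          1 ≤ ‖∑ n ∈ Finset.Ioc N (2 * N), c n * (n : ℂ) ^ (-((t : ℂ) * I))‖} with hS
  have hT0 : 0 < T := by linarith
  have hrho0 : 0 ≤ rho σ := rho_nonneg hσ1.le
  have hTpow : 1 ≤ T ^ (rho σ + η) := Real.one_le_rpow hT (by linarith)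
  rcases eq_or_lt_of_le hT with h1 | h1
  · -- T = 1
    have h2 : (volume S).toReal ≤ (volume (Icc T (2 * T))).toReal :=
      ENNReal.toReal_mono (by rw [Real.volume_Icc]; exact ENNReal.ofReal_ne_top)
        (measure_mono fun t ht => ht.1)
    rw [Real.volume_Icc, ENNReal.toReal_ofReal (by linarith)] at h2
    have h3 : 2 * T - T = 1 := by rw [← h1]; norm_num
    rw [h3] at h2
    refine h2.trans ?_
    nlinarith
  · have hTd : 1 < T ^ δ := Real.one_lt_rpow h1 hδ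
    have hN1 : (1 : ℝ) < N := lt_of_lt_of_le hTd hN
    have hN2 : 1 < N := by exact_mod_cast hN1
    have hN0 : (0 : ℝ) < N := by linarith
    set m : ℕ := Nat.log N ⌊T⌋₊ with hm
    have hfl : N ≤ ⌊T⌋₊ := Nat.le_floor hNT
    have hm1 : 1 ≤ m := by
      rw [hm]
      exact Nat.log_pos hN2 hfl
    have hpm : (N : ℝ) ^ m ≤ T := by
      have h2 : N ^ m ≤ ⌊T⌋₊ := Nat.pow_log_le_self N (by omega)
      have h3 : ((N ^ m : ℕ) : ℝ) ≤ (⌊T⌋₊ : ℝ) := by exact_mod_cast h2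
      push_cast at h3
      exact h3.trans (Nat.floor_le hT0.le)
    have hpm1 : T ≤ (N : ℝ) ^ (m + 1) := by
      have h2 : ⌊T⌋₊ < N ^ (m + 1) := Nat.lt_pow_succ_log_self hN2 _
      have h3 : ((⌊T⌋₊ + 1 : ℕ) : ℝ) ≤ ((N ^ (m + 1) : ℕ) : ℝ) := by exact_mod_cast h2
      push_cast at h3
      exact (Nat.lt_floor_add_one T).le.trans h3
    set x : ℝ := Real.log N with hx
    set τ : ℝ := Real.log T with hτ
    have hx0 : 0 < x := Real.log_pos hN1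
    have hτ0 : 0 < τ := Real.log_pos h1
    have hmx : m * x ≤ τ := by
      have := Real.log_le_log (by positivity) hpm
      rwa [Real.log_pow] at this
    have hmx1 : τ ≤ (m + 1) * x := by
      have := Real.log_le_log hT0 hpm1
      rw [Real.log_pow] at this
      push_cast at this
      exact this
    have hmδ : (m : ℝ) ≤ 1 / δ := by
      have h2 : δ * τ ≤ x := by
        have := Real.log_le_log (by positivity) hN
        rwa [Real.log_rpow hT0] at this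
      rw [le_div_iff₀ hδ]
      have h3 : (m * δ) * τ ≤ 1 * τ := by nlinarith [mul_le_mul_of_nonneg_left h2 (Nat.cast_nonneg (α := ℝ) m)]
      exact le_of_mul_le_mul_right h3 hτ0
    have hmfl : m ≤ ⌊1 / δ⌋₊ := Nat.le_floor hmδ
    have hCm : C m ≤ ∑ m ∈ Finset.range (⌊1 / δ⌋₊ + 2), C m :=
      Finset.single_le_sum (f := C) (fun i _ => hC0 i) (Finset.mem_range.2 (by omega))
    have hCm1 : C (m + 1) ≤ ∑ m ∈ Finset.range (⌊1 / δ⌋₊ + 2), C m :=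
      Finset.single_le_sum (f := C) (fun i _ => hC0 i) (Finset.mem_range.2 (by omega))
    have hNexp : ∀ r : ℝ, (N : ℝ) ^ r = Real.exp (x * r) := fun r => Real.rpow_def_of_pos hN0 r
    have hTexp : ∀ r : ℝ, T ^ r = Real.exp (τ * r) := fun r => Real.rpow_def_of_pos hT0 r
    have hTe : T = Real.exp τ := (Real.exp_log hT0).symm
    have hNη : (N : ℝ) ^ (η / 2) ≤ T ^ (η / 2) := Real.rpow_le_rpow hN0.le hNT (by linarith)
    have hfin : ∀ K : ℝ, 0 ≤ K → K ≤ ∑ m ∈ Finset.range (⌊1 / δ⌋₊ + 2), C m → ∀ B : ℝ, 0 ≤ B →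
        B ≤ T ^ (rho σ) → K * (N : ℝ) ^ (η / 2) * (B + B) ≤
          (1 + 2 * ∑ m ∈ Finset.range (⌊1 / δ⌋₊ + 2), C m) * T ^ (rho σ + η) := by
      intro K hK0 hK B hB0 hB
      have h2 : T ^ (rho σ + η) = T ^ (rho σ) * T ^ (η / 2) * T ^ (η / 2) := by
        rw [← Real.rpow_add hT0, ← Real.rpow_add hT0]
        congr 1
        ring
      have h3 : 1 ≤ T ^ (η / 2) := Real.one_le_rpow hT (by linarith)
      have h4 : K * (N : ℝ) ^ (η / 2) * (B + B) ≤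
          (∑ m ∈ Finset.range (⌊1 / δ⌋₊ + 2), C m) * T ^ (η / 2) * (T ^ (rho σ) + T ^ (rho σ)) := by
        gcongr
      refine h4.trans ?_
      have h5 : (∑ m ∈ Finset.range (⌊1 / δ⌋₊ + 2), C m) * T ^ (η / 2) * (T ^ (rho σ) + T ^ (rho σ)) =
          (2 * ∑ m ∈ Finset.range (⌊1 / δ⌋₊ + 2), C m) * (T ^ (rho σ) * T ^ (η / 2)) := by ring
      rw [h5]
      have h6 : T ^ (rho σ) * T ^ (η / 2) ≤ T ^ (rho σ + η) := by
        rw [h2]
        exact le_mul_of_one_le_right (by positivity) h3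
      have h7 : 0 ≤ T ^ (rho σ + η) := by positivity
      calc (2 * ∑ m ∈ Finset.range (⌊1 / δ⌋₊ + 2), C m) * (T ^ (rho σ) * T ^ (η / 2))
          ≤ (2 * ∑ m ∈ Finset.range (⌊1 / δ⌋₊ + 2), C m) * T ^ (rho σ + η) := by gcongr
        _ ≤ _ := by nlinarith
    rcases opt_alt (σ := σ) (τ := τ) (x := x) hσ hσ1 hm1 hx0 with h | h
    · -- power m
      have hb := hC m N (by omega) c hc T hT
      have hA : T * (N : ℝ) ^ (-(m * (2 * σ - 1))) ≤ T ^ (rho σ) := by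
        rw [hNexp, hTexp]
        nth_rewrite 1 [hTe]
        rw [← Real.exp_add]
        apply Real.exp_le_exp.2
        nlinarith
      have hB : (N : ℝ) ^ (2 * m * (1 - σ)) ≤ T * (N : ℝ) ^ (-(m * (2 * σ - 1))) := by
        rw [hNexp, hNexp]
        nth_rewrite 1 [hTe]
        rw [← Real.exp_add]
        apply Real.exp_le_exp.2
        nlinarith
      refine hb.trans (le_trans ?_ (hfin (C m) (hC0 m) hCm (T * (N : ℝ) ^ (-(m * (2 * σ - 1))))
        (by positivity) hA))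
      have : 0 ≤ C m := hC0 m
      gcongr
    · -- power m + 1
      have hb := hC (m + 1) N (by omega) c hc T hT
      push_cast at hb
      have hA : (N : ℝ) ^ (2 * ((m : ℝ) + 1) * (1 - σ)) ≤ T ^ (rho σ) := by
        rw [hNexp, hTexp]
        apply Real.exp_le_exp.2
        nlinarith
      have hB : T * (N : ℝ) ^ (-(((m : ℝ) + 1) * (2 * σ - 1))) ≤
          (N : ℝ) ^ (2 * ((m : ℝ) + 1) * (1 - σ)) := by
        rw [hNexp, hNexp]
        nth_rewrite 1 [hTe]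
        rw [← Real.exp_add]
        apply Real.exp_le_exp.2
        nlinarith
      refine hb.trans (le_trans ?_ (hfin (C (m + 1)) (hC0 (m + 1)) hCm1
        ((N : ℝ) ^ (2 * ((m : ℝ) + 1) * (1 - σ))) (by positivity) hA))
      have : 0 ≤ C (m + 1) := hC0 (m + 1)
      gcongr

end Pool.Agent.Lib.MP_bc6037_nt.FO
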