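import Pool.Agent.Lib.MP_bc6037_nt.FO.AF
import Pool.Agent.Lib.MP_bc6037_nt.FO.Opt

set_option autoImplicit false

/-!
# Module LZ (50 min): measure of the set where `ζ(σ+it)` is large

For `0 < σ < 1`, `ε, η > 0`: `meas{t ∈ [T,2T] : |ζ(σ+it)| ≥ T^ε} ≤ C T^{rho σ + η}`.

PROOF. If `σ ≤ 1/2` then `rho σ = 1` and the measure is at most `T`. Let `σ ≥ 1/2`. By `approx`,
`|ζ(σ+it)| ≤ C₀ + |∑_{n≤T} φ n n^{-σ} n^{-it}|`. Put `c n = φ n n^{-σ}` for `n ≤ T`, `0` for `n > T`.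
Split `{2,..,⌊T⌋}` into the dyadic blocks `(2^i, 2^{i+1}]`, `0 ≤ i ≤ log_2 T` (so `2^i ≤ T`), and the
term `n = 1`. Blocks with `2^i < T^{ε/2}`: altogether at most `1 + 2 T^{ε/2}` in absolute value (at most
`2 T^{ε/2}` numbers `n`). If all the other blocks have `|D_{2^i}(t)| < 1` then
`|ζ(σ+it)| ≤ C₀ + 1 + 2 T^{ε/2} + (log_2 T + 1) < T^ε` for `T ≥ T₀(ε)`. So for `T ≥ T₀` the set is
contained in the union over the `≤ log_2 T + 1 ≤ C T^{η/2}` other blocks of the sets of `opt`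
(with `δ = ε/2`, `η/2`). For `T ≤ T₀` the measure is at most `T₀ ≤ T₀ T^{rho σ+η}`.
-/

open MeasureTheory Complex Filter Set

namespace Pool.Agent.Lib.MP_bc6037_nt.FO

private lemma lz_dyadic (f : ℕ → ℂ) (K : ℕ) : ∑ n ∈ Finset.Icc 1 (2 ^ K), f n =
    f 1 + ∑ i ∈ Finset.range K, ∑ n ∈ Finset.Ioc (2 ^ i) (2 * 2 ^ i), f n := by
  induction K with
  | zero => simp
  | succ K ih =>
    rw [Finset.sum_range_succ, ← add_assoc, ← ih]
    have h1 : Finset.Icc 1 (2 ^ (K + 1)) = Finset.Icc 1 (2 ^ K) ∪ Finset.Ioc (2 ^ K) (2 * 2 ^ K) := by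
      ext n
      simp only [Finset.mem_union, Finset.mem_Icc, Finset.mem_Ioc]
      have : 2 ^ (K + 1) = 2 * 2 ^ K := by ring
      have h2 : 1 ≤ 2 ^ K := Nat.one_le_two_pow
      omega
    have h2 : Disjoint (Finset.Icc 1 (2 ^ K)) (Finset.Ioc (2 ^ K) (2 * 2 ^ K)) := by
      rw [Finset.disjoint_left]
      intro n hn hn'
      simp only [Finset.mem_Icc, Finset.mem_Ioc] at hn hn'
      omega
    rw [h1, Finset.sum_union h2]

private lemma lz_log {a : ℝ} (ha : 0 < a) : ∃ C : ℝ, 0 ≤ C ∧ ∀ T : ℝ, 1 ≤ T →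
    ((Nat.log 2 ⌊T⌋₊ + 1 : ℕ) : ℝ) ≤ C * T ^ a := by
  have hl2 : 0 < Real.log 2 := Real.log_pos (by norm_num)
  refine ⟨1 / (a * Real.log 2) + 1, by positivity, fun T hT => ?_⟩
  have hT0 : 0 < T := by linarith
  have h1 : ⌊T⌋₊ ≠ 0 := by
    have := Nat.floor_pos.2 hT
    omega
  have h2 : ((2 : ℝ)) ^ (Nat.log 2 ⌊T⌋₊) ≤ T := by
    have h3 : 2 ^ (Nat.log 2 ⌊T⌋₊) ≤ ⌊T⌋₊ := Nat.pow_log_le_self 2 h1
    have h4 : ((2 ^ (Nat.log 2 ⌊T⌋₊) : ℕ) : ℝ) ≤ (⌊T⌋₊ : ℝ) := by exact_mod_cast h3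
    push_cast at h4
    exact h4.trans (Nat.floor_le hT0.le)
  have h5 := Real.log_le_log (by positivity) h2
  rw [Real.log_pow] at h5
  have h6 := Real.log_le_rpow_div hT0.le ha
  have h7 : 1 ≤ T ^ a := Real.one_le_rpow hT ha.le
  have h8 : (Nat.log 2 ⌊T⌋₊ : ℝ) ≤ 1 / (a * Real.log 2) * T ^ a := by
    rw [← le_div_iff₀ hl2] at h5
    refine h5.trans ?_
    rw [div_le_iff₀ hl2]
    refine h6.trans (le_of_eq ?_)
    field_simp
  push_cast
  linarith

theorem large_values {σ ε η : ℝ} (h0 : 0 < σ) (h1 : σ < 1) (hε : 0 < ε) (hη : 0 < η) :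
    ∃ C : ℝ, 0 ≤ C ∧ ∀ T : ℝ, 1 ≤ T →
      (volume {t : ℝ | t ∈ Icc T (2 * T) ∧ T ^ ε ≤ ‖riemannZeta (σ + t * I)‖}).toReal ≤
        C * T ^ (rho σ + η) := by
  have hrho : 0 ≤ rho σ := rho_nonneg h1.le
  have hfin : ∀ (T : ℝ) (P : ℝ → Prop), volume {t : ℝ | t ∈ Icc T (2 * T) ∧ P t} ≠ ⊤ := by
    intro T P
    refine ne_top_of_le_ne_top (b := volume (Icc T (2 * T))) ?_ (measure_mono fun t ht => ht.1)
    rw [Real.volume_Icc]
    exact ENNReal.ofReal_ne_top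
  have htriv : ∀ (T : ℝ) (P : ℝ → Prop), 1 ≤ T →
      (volume {t : ℝ | t ∈ Icc T (2 * T) ∧ P t}).toReal ≤ T := by
    intro T P hT
    have h2 : (volume {t : ℝ | t ∈ Icc T (2 * T) ∧ P t}).toReal ≤
        (volume (Icc T (2 * T))).toReal := by
      apply ENNReal.toReal_mono
      · rw [Real.volume_Icc]
        exact ENNReal.ofReal_ne_top
      · exact measure_mono fun t ht => ht.1
    rw [Real.volume_Icc, ENNReal.toReal_ofReal (by linarith)] at h2
    linarith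
  rcases le_or_gt σ (1 / 2) with hσ | hσ
  · refine ⟨1, zero_le_one, fun T hT => (htriv T _ hT).trans ?_⟩
    rw [rho_eq_one hσ, one_mul]
    calc T = T ^ (1 : ℝ) := (Real.rpow_one T).symm
      _ ≤ _ := Real.rpow_le_rpow_of_exponent_le hT (by linarith)
  obtain ⟨C0, hC0, happ⟩ := approx hσ.le h1
  obtain ⟨C1, hC1, hopt⟩ := opt (δ := ε / 2) hσ.le h1 (half_pos hη) (half_pos hε)
  obtain ⟨C2, hC2, hl2⟩ := lz_log (a := ε / 4) (by linarith)
  obtain ⟨C3, hC3, hl3⟩ := lz_log (half_pos hη)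
  set A : ℝ := C0 + 1 + 2 * C2 with hA
  have hA0 : 0 < A := by positivity
  set T0 : ℝ := A ^ (4 / ε) with hT0
  have hT0' : 0 ≤ T0 := by positivity
  refine ⟨T0 + C3 * C1, by positivity, fun T hT => ?_⟩
  have hTpos : 0 < T := by linarith
  have hone : 1 ≤ T ^ (rho σ + η) := Real.one_le_rpow hT (by linarith)
  have hp1 : 0 ≤ C3 * C1 * T ^ (rho σ + η) := by positivity
  rcases le_or_gt T T0 with hTT | hTT
  · have := mul_le_mul hTT hone zero_le_one hT0'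
    have h2 := htriv T (fun t => T ^ ε ≤ ‖riemannZeta (σ + t * I)‖) hT
    linarith
  obtain ⟨φ, hφ0, hφ1, hφ⟩ := happ T hT
  set K : ℕ := Nat.log 2 ⌊T⌋₊ + 1 with hK
  set c : ℕ → ℂ := fun n => if n ≤ ⌊T⌋₊ then (φ n : ℂ) * ((n : ℝ) ^ (-σ) : ℝ) else 0 with hc
  have hcn : ∀ n : ℕ, 1 ≤ n → ‖c n‖ ≤ (n : ℝ) ^ (-σ) := by
    intro n _
    have h2 : 0 ≤ (n : ℝ) ^ (-σ) := by positivity
    simp only [hc]
    split_ifs
    · rw [norm_mul, Complex.norm_real, Complex.norm_real, Real.norm_of_nonneg (hφ0 n),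
        Real.norm_of_nonneg h2]
      exact mul_le_of_le_one_left h2 (hφ1 n)
    · simpa using h2
  have hcn1 : ∀ n : ℕ, 1 ≤ n → ‖c n‖ ≤ 1 := by
    intro n hn
    refine (hcn n hn).trans ?_
    exact Real.rpow_le_one_of_one_le_of_nonpos (by exact_mod_cast hn) (by linarith)
  have hnt : ∀ (n : ℕ) (t : ℝ), 1 ≤ n → ‖(n : ℂ) ^ (-((t : ℂ) * I))‖ = 1 := by
    intro n t hn
    rw [Complex.norm_natCast_cpow_of_pos (by omega)]
    simp
  have hKn : ⌊T⌋₊ < 2 ^ K := by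
    rw [hK]
    exact Nat.lt_pow_succ_log_self (by norm_num) _
  have hKT : ∀ i ∈ Finset.range K, ((2 ^ i : ℕ) : ℝ) ≤ T := by
    intro i hi
    have hi' : i ≤ Nat.log 2 ⌊T⌋₊ := by
      have := Finset.mem_range.1 hi
      omega
    have h2 : ⌊T⌋₊ ≠ 0 := by
      have := Nat.floor_pos.2 hT
      omega
    have h3 : 2 ^ i ≤ ⌊T⌋₊ := (Nat.pow_le_pow_right (by norm_num) hi').trans
      (Nat.pow_log_le_self 2 h2)
    have h4 : ((2 ^ i : ℕ) : ℝ) ≤ (⌊T⌋₊ : ℝ) := by exact_mod_cast h3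
    exact h4.trans (Nat.floor_le hTpos.le)
  -- the decomposition
  have hdec : ∀ t : ℝ, ∑ n ∈ Finset.Icc 1 ⌊T⌋₊, (φ n : ℂ) * (n : ℂ) ^ (-((σ : ℂ) + t * I)) =
      c 1 * ((1 : ℕ) : ℂ) ^ (-((t : ℂ) * I)) + ∑ i ∈ Finset.range K,
        ∑ n ∈ Finset.Ioc (2 ^ i) (2 * 2 ^ i), c n * (n : ℂ) ^ (-((t : ℂ) * I)) := by
    intro t
    rw [← lz_dyadic (fun n => c n * (n : ℂ) ^ (-((t : ℂ) * I))) K]
    have h2 : Finset.Icc 1 ⌊T⌋₊ ⊆ Finset.Icc 1 (2 ^ K) := Finset.Icc_subset_Icc_right hKn.le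
    rw [← Finset.sum_subset h2]
    · apply Finset.sum_congr rfl
      intro n hn
      have hn1 := Finset.mem_Icc.1 hn
      have hn0 : (n : ℂ) ≠ 0 := by
        have : n ≠ 0 := by omega
        exact_mod_cast this
      simp only [hc, if_pos hn1.2]
      rw [mul_assoc, Complex.ofReal_cpow (by positivity)]
      have e : -((σ : ℂ) + t * I) = ((-σ : ℝ) : ℂ) + -((t : ℂ) * I) := by push_cast; ring
      rw [e, Complex.cpow_add _ _ hn0]
      simp
    · intro n _ hn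
      have hn' : ¬ n ≤ ⌊T⌋₊ := by
        intro h
        apply hn
        rw [Finset.mem_Icc]
        refine ⟨?_, h⟩
        have := (Finset.mem_Icc.1 ‹n ∈ Finset.Icc 1 (2 ^ K)›).1
        exact this
      simp [hc, if_neg hn']
  set D : ℕ → ℝ → ℂ := fun i t => ∑ n ∈ Finset.Ioc (2 ^ i) (2 * 2 ^ i),
    c n * (n : ℂ) ^ (-((t : ℂ) * I)) with hD
  have hDtriv : ∀ i t, ‖D i t‖ ≤ 2 ^ i := by
    intro i t
    simp only [hD]
    refine (norm_sum_le _ _).trans ?_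
    have h2 : ∀ n ∈ Finset.Ioc (2 ^ i) (2 * 2 ^ i), ‖c n * (n : ℂ) ^ (-((t : ℂ) * I))‖ ≤ 1 := by
      intro n hn
      have hn1 : 1 ≤ n := Nat.succ_le_of_lt (lt_of_le_of_lt (Nat.zero_le _) (Finset.mem_Ioc.1 hn).1)
      rw [norm_mul, hnt n t hn1, mul_one]
      exact hcn1 n hn1
    refine (Finset.sum_le_sum h2).trans ?_
    rw [Finset.sum_const, Nat.card_Ioc, nsmul_eq_mul, mul_one]
    have : 2 * 2 ^ i - 2 ^ i = 2 ^ i := by omega
    rw [this]
    push_cast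
    exact le_rfl
  -- the covering
  set B : ℕ → Set ℝ := fun i => {t : ℝ | t ∈ Icc T (2 * T) ∧ 1 ≤ ‖D i t‖ ∧ T ^ (ε / 2) ≤ (2 : ℝ) ^ i}
    with hB
  have hcov : {t : ℝ | t ∈ Icc T (2 * T) ∧ T ^ ε ≤ ‖riemannZeta (σ + t * I)‖} ⊆
      ⋃ i ∈ Finset.range K, B i := by
    rintro t ⟨ht, hz⟩
    by_contra hcon
    simp only [mem_iUnion, not_exists] at hcon
    have hDi : ∀ i ∈ Finset.range K, ‖D i t‖ ≤ T ^ (ε / 2) := by
      intro i hi
      have h2 : t ∉ B i := hcon i hi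
      have hT1 : 1 ≤ T ^ (ε / 2) := Real.one_le_rpow hT (by linarith)
      rcases le_or_gt (T ^ (ε / 2)) ((2 : ℝ) ^ i) with h3 | h3
      · have : ‖D i t‖ < 1 := by
          by_contra h4
          exact h2 ⟨ht, not_lt.1 h4, h3⟩
        linarith
      · exact (hDtriv i t).trans h3.le
    have h3 : ‖∑ n ∈ Finset.Icc 1 ⌊T⌋₊, (φ n : ℂ) * (n : ℂ) ^ (-((σ : ℂ) + t * I))‖ ≤
        1 + K * T ^ (ε / 2) := by
      rw [hdec t]
      refine (norm_add_le _ _).trans (add_le_add ?_ ?_)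
      · rw [norm_mul, hnt 1 t le_rfl, mul_one]
        exact hcn1 1 le_rfl
      · refine (norm_sum_le _ _).trans ?_
        refine (Finset.sum_le_sum hDi).trans ?_
        rw [Finset.sum_const, Finset.card_range, nsmul_eq_mul]
    have h4 := hφ t ht.1 ht.2
    have h5 : ‖riemannZeta (σ + t * I)‖ ≤ C0 + (1 + K * T ^ (ε / 2)) := by
      have := norm_sub_norm_le (riemannZeta (σ + t * I))
        (∑ n ∈ Finset.Icc 1 ⌊T⌋₊, (φ n : ℂ) * (n : ℂ) ^ (-((σ : ℂ) + t * I)))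
      linarith
    have h6 : (K : ℝ) * T ^ (ε / 2) ≤ C2 * T ^ (3 * ε / 4) := by
      have h7 := hl2 T hT
      calc (K : ℝ) * T ^ (ε / 2) ≤ (C2 * T ^ (ε / 4)) * T ^ (ε / 2) := by gcongr
        _ = C2 * T ^ (3 * ε / 4) := by
          rw [mul_assoc, ← Real.rpow_add hTpos]
          congr 2
          ring
    have h7 : 1 ≤ T ^ (3 * ε / 4) := Real.one_le_rpow hT (by positivity)
    have h8 : ‖riemannZeta (σ + t * I)‖ ≤ A * T ^ (3 * ε / 4) := by
      have h9 : (C0 + 1) * 1 ≤ (C0 + 1) * T ^ (3 * ε / 4) := by gcongr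
      have h10 : 0 ≤ C2 * T ^ (3 * ε / 4) := by positivity
      rw [hA]
      linarith
    have h9 : A < T ^ (ε / 4) := by
      have h10 := Real.rpow_lt_rpow hT0' hTT (by positivity : 0 < ε / 4)
      rwa [hT0, ← Real.rpow_mul hA0.le, show 4 / ε * (ε / 4) = 1 by field_simp, Real.rpow_one]
        at h10
    have h10 : A * T ^ (3 * ε / 4) < T ^ ε := by
      have h11 : T ^ ε = T ^ (ε / 4) * T ^ (3 * ε / 4) := by
        rw [← Real.rpow_add hTpos]
        congr 1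
        ring
      rw [h11]
      gcongr
    linarith
  have hBm : ∀ i ∈ Finset.range K, (volume (B i)).toReal ≤ C1 * T ^ (rho σ + η / 2) := by
    intro i hi
    by_cases h2 : T ^ (ε / 2) ≤ (2 : ℝ) ^ i
    · have h3 := hopt (2 ^ i) T hT (by push_cast; exact h2) (hKT i hi) c hcn
      refine le_trans ?_ h3
      apply ENNReal.toReal_mono (hfin T _)
      apply measure_mono
      rintro t ⟨h4, h5, _⟩
      exact ⟨h4, h5⟩
    · have : B i = ∅ := by
        ext t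
        simp only [hB, mem_setOf_eq, mem_empty_iff_false, iff_false]
        rintro ⟨_, _, h3⟩
        exact h2 h3
      rw [this]
      simp only [measure_empty, ENNReal.toReal_zero]
      positivity
  have hU : (volume (⋃ i ∈ Finset.range K, B i)).toReal ≤ ∑ i ∈ Finset.range K,
      (volume (B i)).toReal := measureReal_biUnion_finset_le _ _
  have hUfin : volume (⋃ i ∈ Finset.range K, B i) ≠ ⊤ := by
    refine ne_top_of_le_ne_top (b := volume (Icc T (2 * T))) ?_ (measure_mono ?_)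
    · rw [Real.volume_Icc]
      exact ENNReal.ofReal_ne_top
    · simp only [iUnion_subset_iff]
      intro i _ t ht
      exact ht.1
  calc (volume {t : ℝ | t ∈ Icc T (2 * T) ∧ T ^ ε ≤ ‖riemannZeta (σ + t * I)‖}).toReal
      ≤ (volume (⋃ i ∈ Finset.range K, B i)).toReal :=
        ENNReal.toReal_mono hUfin (measure_mono hcov)
    _ ≤ ∑ i ∈ Finset.range K, (volume (B i)).toReal := hU
    _ ≤ K * (C1 * T ^ (rho σ + η / 2)) := by
        refine (Finset.sum_le_sum hBm).trans ?_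
        rw [Finset.sum_const, Finset.card_range, nsmul_eq_mul]
    _ ≤ (C3 * T ^ (η / 2)) * (C1 * T ^ (rho σ + η / 2)) := by
        gcongr
        exact hl3 T hT
    _ = C3 * C1 * (T ^ (η / 2) * T ^ (rho σ + η / 2)) := by ring
    _ = C3 * C1 * T ^ (rho σ + η) := by
        rw [← Real.rpow_add hTpos]
        congr 2
        ring
    _ ≤ _ := by
        have : 0 ≤ T0 * T ^ (rho σ + η) := by positivity
        linarith

end Pool.Agent.Lib.MP_bc6037_nt.FO
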