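import Mathlib

set_option autoImplicit false

/-!
# Module MV (60 min, ONLY MATHLIB): weak mean value theorem for Dirichlet polynomials

`∫_T^2T |∑_{n≤M} b_n n^{-it}|² dt ≤ C (T + M (1 + log M)) ∑ |b_n|²`, `T ≥ 1`.

PROOF. `|∑ b_n n^{-it}|² = ∑_m ∑_n b_m conj(b_n) exp(i t (log n - log m))`. The diagonal integrates to
`T ∑|b_n|²`. For `m ≠ n`, `∫_T^{2T} exp(iλt) dt` has norm `≤ 2/|λ|`, `λ = log n - log m`, and
`|log n - log m| ≥ |n-m| / max(m,n)` (`log x ≥ 1 - 1/x`). So the off-diagonal part is at most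
`∑_{m≠n} |b_m||b_n| 2 max(m,n)/|m-n| ≤ ∑_m |b_m|² ∑_{n≠m, n≤M} 2M/|m-n|`
(by `|b_m b_n| ≤ (|b_m|²+|b_n|²)/2` and symmetry) `≤ 4M (1 + log M) ∑|b_m|²`
(`∑_{h≤M} 1/h ≤ 1 + log M`, Mathlib: `harmonic_le_one_add_log`).
-/

open MeasureTheory Complex Filter Set

namespace Pool.Agent.Lib.MP_bc6037_nt.FO

private lemma MV_cpow {n : ℕ} (hn : 1 ≤ n) (t : ℝ) :
    (n : ℂ) ^ (-((t : ℂ) * I)) = cexp (((-Real.log n * t : ℝ) : ℂ) * I) := by
  have h0 : (n : ℂ) ≠ 0 := by exact_mod_cast (by omega : n ≠ 0)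
  rw [Complex.cpow_def_of_ne_zero h0, ← Complex.natCast_log]
  congr 1
  push_cast
  ring

private lemma MV_prod (a b t : ℝ) :
    cexp (((-a * t : ℝ) : ℂ) * I) * (starRingEnd ℂ) (cexp (((-b * t : ℝ) : ℂ) * I)) =
      cexp ((((b - a : ℝ) : ℂ) * I) * t) := by
  rw [← Complex.exp_conj, ← Complex.exp_add]
  congr 1
  rw [map_mul, Complex.conj_ofReal, Complex.conj_I]
  push_cast
  ring

private lemma MV_int {l T : ℝ} (hl : l ≠ 0) :
    ‖∫ t in T..(2 * T), cexp (((l : ℝ) : ℂ) * I * t)‖ ≤ 2 / |l| := by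
  have hc : ((l : ℝ) : ℂ) * I ≠ 0 := mul_ne_zero (by exact_mod_cast hl) I_ne_zero
  rw [integral_exp_mul_complex hc, norm_div]
  have h1 : ‖((l : ℝ) : ℂ) * I‖ = |l| := by
    rw [norm_mul, Complex.norm_I, mul_one, Complex.norm_real, Real.norm_eq_abs]
  have h2 : ∀ x : ℝ, ‖cexp (((l : ℝ) : ℂ) * I * (x : ℂ))‖ = 1 := by
    intro x
    have : ((l : ℝ) : ℂ) * I * (x : ℂ) = ((l * x : ℝ) : ℂ) * I := by push_cast; ring
    rw [this, Complex.norm_exp_ofReal_mul_I]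
  rw [h1]
  have h3 : ‖cexp (((l : ℝ) : ℂ) * I * ((2 * T : ℝ) : ℂ)) - cexp (((l : ℝ) : ℂ) * I * (T : ℂ))‖ ≤ 2 := by
    refine (norm_sub_le _ _).trans ?_
    rw [h2, h2]
    norm_num
  gcongr

private lemma MV_log {m n M : ℕ} (hm : 1 ≤ m) (hmn : m < n) (hn : n ≤ M) :
    ((n : ℝ) - m) / M ≤ Real.log n - Real.log m := by
  have hm0 : (0 : ℝ) < m := by exact_mod_cast (by omega : 0 < m)
  have hn0 : (0 : ℝ) < n := by exact_mod_cast (by omega : 0 < n)
  have hM0 : (0 : ℝ) < M := by exact_mod_cast (by omega : 0 < M)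
  have hmn' : (m : ℝ) < n := by exact_mod_cast hmn
  have hnM : (n : ℝ) ≤ M := by exact_mod_cast hn
  have h1 := Real.one_sub_inv_le_log_of_pos (div_pos hn0 hm0)
  rw [Real.log_div hn0.ne' hm0.ne', inv_div] at h1
  refine le_trans ?_ h1
  have h2 : 1 - (m : ℝ) / n = ((n : ℝ) - m) / n := by field_simp
  rw [h2]
  exact div_le_div_of_nonneg_left (by linarith) hn0 hnM

private lemma MV_abs {m n M : ℕ} (hm : m ∈ Finset.Icc 1 M) (hn : n ∈ Finset.Icc 1 M) (hmn : m ≠ n) :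
    Real.log n - Real.log m ≠ 0 ∧
      2 / |Real.log n - Real.log m| ≤ 2 * M / |(n : ℝ) - m| := by
  obtain ⟨hm1, hm2⟩ := Finset.mem_Icc.1 hm
  obtain ⟨hn1, hn2⟩ := Finset.mem_Icc.1 hn
  have hM0 : (0 : ℝ) < M := by exact_mod_cast (by omega : 0 < M)
  have key : ∀ a b : ℕ, 1 ≤ a → a < b → b ≤ M → 0 < Real.log b - Real.log a ∧
      2 / (Real.log b - Real.log a) ≤ 2 * M / ((b : ℝ) - a) := by
    intro a b ha hab hb
    have h1 := MV_log ha hab hb
    have hab' : (0 : ℝ) < (b : ℝ) - a := by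
      have : (a : ℝ) < b := by exact_mod_cast hab
      linarith
    have h2 : 0 < ((b : ℝ) - a) / M := div_pos hab' hM0
    refine ⟨lt_of_lt_of_le h2 h1, ?_⟩
    calc 2 / (Real.log b - Real.log a) ≤ 2 / (((b : ℝ) - a) / M) :=
          div_le_div_of_nonneg_left (by norm_num) h2 h1
      _ = 2 * M / ((b : ℝ) - a) := by field_simp
  rcases Nat.lt_or_gt_of_ne hmn with h | h
  · obtain ⟨h1, h2⟩ := key m n hm1 h hn2
    refine ⟨h1.ne', ?_⟩
    have h3 : (0 : ℝ) < (n : ℝ) - m := by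
      have : (m : ℝ) < n := by exact_mod_cast h
      linarith
    rwa [abs_of_pos h1, abs_of_pos h3]
  · obtain ⟨h1, h2⟩ := key n m hn1 h hm2
    have h3 : (0 : ℝ) < (m : ℝ) - n := by
      have : (n : ℝ) < m := by exact_mod_cast h
      linarith
    refine ⟨by linarith, ?_⟩
    rw [abs_sub_comm (Real.log n), abs_sub_comm (n : ℝ), abs_of_pos h1, abs_of_pos h3]
    exact h2

private lemma MV_harm (M : ℕ) :
    ∑ h ∈ Finset.Icc 1 M, ((h : ℝ))⁻¹ ≤ 1 + Real.log M := by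
  have h1 := harmonic_le_one_add_log M
  rw [harmonic_eq_sum_Icc] at h1
  push_cast at h1
  exact h1

private lemma MV_row {m M : ℕ} (hm : m ∈ Finset.Icc 1 M) :
    ∑ n ∈ (Finset.Icc 1 M).erase m, 2 * (M : ℝ) / |(n : ℝ) - m| ≤ 4 * (M * (1 + Real.log M)) := by
  obtain ⟨hm1, hm2⟩ := Finset.mem_Icc.1 hm
  have hsplit : (Finset.Icc 1 M).erase m = Finset.Ico 1 m ∪ Finset.Ioc m M := by
    ext n
    simp only [Finset.mem_erase, Finset.mem_Icc, Finset.mem_union, Finset.mem_Ico, Finset.mem_Ioc]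
    omega
  have hdisj : Disjoint (Finset.Ico 1 m) (Finset.Ioc m M) := by
    rw [Finset.disjoint_left]
    intro n h1 h2
    rw [Finset.mem_Ico] at h1
    rw [Finset.mem_Ioc] at h2
    omega
  have hA : ∑ n ∈ Finset.Ico 1 m, (|(n : ℝ) - m|)⁻¹ ≤ ∑ h ∈ Finset.Icc 1 M, ((h : ℝ))⁻¹ := by
    have h1 : ∑ n ∈ Finset.Ico 1 m, (|(n : ℝ) - m|)⁻¹ =
        ∑ h ∈ (Finset.Ico 1 m).image (fun n => m - n), ((h : ℝ))⁻¹ := by
      rw [Finset.sum_image]
      · refine Finset.sum_congr rfl ?_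
        intro n hn
        have hn' := Finset.mem_Ico.1 hn
        have : ((m - n : ℕ) : ℝ) = m - n := by
          rw [Nat.cast_sub (by omega)]
        rw [this, abs_sub_comm, abs_of_nonneg]
        have : (n : ℝ) ≤ m := by exact_mod_cast hn'.2.le
        linarith
      · intro a ha b hb hab
        simp only [Finset.coe_Ico, Set.mem_Ico] at ha hb
        simp only at hab
        omega
    rw [h1]
    refine Finset.sum_le_sum_of_subset_of_nonneg ?_ (fun h _ _ => by positivity)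
    intro h hh
    obtain ⟨n, hn, rfl⟩ := Finset.mem_image.1 hh
    rw [Finset.mem_Ico] at hn
    rw [Finset.mem_Icc]
    omega
  have hB : ∑ n ∈ Finset.Ioc m M, (|(n : ℝ) - m|)⁻¹ ≤ ∑ h ∈ Finset.Icc 1 M, ((h : ℝ))⁻¹ := by
    have h1 : ∑ n ∈ Finset.Ioc m M, (|(n : ℝ) - m|)⁻¹ =
        ∑ h ∈ (Finset.Ioc m M).image (fun n => n - m), ((h : ℝ))⁻¹ := by
      rw [Finset.sum_image]
      · refine Finset.sum_congr rfl ?_
        intro n hn
        have hn' := Finset.mem_Ioc.1 hn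
        have : ((n - m : ℕ) : ℝ) = n - m := by
          rw [Nat.cast_sub (by omega)]
        rw [this, abs_of_nonneg]
        have : (m : ℝ) ≤ n := by exact_mod_cast hn'.1.le
        linarith
      · intro a ha b hb hab
        simp only [Finset.coe_Ioc, Set.mem_Ioc] at ha hb
        simp only at hab
        omega
    rw [h1]
    refine Finset.sum_le_sum_of_subset_of_nonneg ?_ (fun h _ _ => by positivity)
    intro h hh
    obtain ⟨n, hn, rfl⟩ := Finset.mem_image.1 hh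
    rw [Finset.mem_Ioc] at hn
    rw [Finset.mem_Icc]
    omega
  have hH := MV_harm M
  simp only [div_eq_mul_inv]
  rw [← Finset.mul_sum, hsplit, Finset.sum_union hdisj]
  have hM : (0 : ℝ) ≤ 2 * M := by positivity
  calc 2 * (M : ℝ) * (∑ n ∈ Finset.Ico 1 m, (|(n : ℝ) - m|)⁻¹ + ∑ n ∈ Finset.Ioc m M, (|(n : ℝ) - m|)⁻¹)
      ≤ 2 * (M : ℝ) * ((1 + Real.log M) + (1 + Real.log M)) := by
        refine mul_le_mul_of_nonneg_left ?_ hM
        linarith
    _ = 4 * (M * (1 + Real.log M)) := by ring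

theorem mean_value : ∃ C : ℝ, 0 ≤ C ∧ ∀ (M : ℕ) (b : ℕ → ℂ) (T : ℝ), 1 ≤ T →
    ∫ t in T..(2 * T), ‖∑ n ∈ Finset.Icc 1 M, b n * (n : ℂ) ^ (-((t : ℂ) * I))‖ ^ 2 ≤
      C * (T + M * (1 + Real.log M)) * ∑ n ∈ Finset.Icc 1 M, ‖b n‖ ^ 2 := by
  refine ⟨4, by norm_num, ?_⟩
  intro M b T hT
  -- the integral as a double sum
  have h1 : ((∫ t in T..(2 * T), ‖∑ n ∈ Finset.Icc 1 M, b n * (n : ℂ) ^ (-((t : ℂ) * I))‖ ^ 2 : ℝ) : ℂ)
      = ∑ m ∈ Finset.Icc 1 M, ∑ n ∈ Finset.Icc 1 M, (b m * (starRingEnd ℂ) (b n)) *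
        ∫ t in T..(2 * T), cexp (((Real.log n - Real.log m : ℝ) : ℂ) * I * t) := by
    rw [← intervalIntegral.integral_ofReal]
    have h2 : ∀ t : ℝ, ((‖∑ n ∈ Finset.Icc 1 M, b n * (n : ℂ) ^ (-((t : ℂ) * I))‖ ^ 2 : ℝ) : ℂ) =
        ∑ m ∈ Finset.Icc 1 M, ∑ n ∈ Finset.Icc 1 M, (b m * (starRingEnd ℂ) (b n)) *
          cexp (((Real.log n - Real.log m : ℝ) : ℂ) * I * t) := by
      intro t
      rw [Complex.ofReal_pow, ← Complex.mul_conj', map_sum, Finset.sum_mul_sum]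
      refine Finset.sum_congr rfl fun m hm => Finset.sum_congr rfl fun n hn => ?_
      rw [MV_cpow (Finset.mem_Icc.1 hm).1, MV_cpow (Finset.mem_Icc.1 hn).1, map_mul,
        ← MV_prod]
      ring
    simp_rw [h2]
    rw [intervalIntegral.integral_finsetSum]
    · refine Finset.sum_congr rfl fun m _ => ?_
      rw [intervalIntegral.integral_finsetSum]
      · refine Finset.sum_congr rfl fun n _ => ?_
        rw [intervalIntegral.integral_const_mul]
      · intro n _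
        exact Continuous.intervalIntegrable (by fun_prop) _ _
    · intro m _
      exact Continuous.intervalIntegrable (by fun_prop) _ _
  -- bound of the single integrals
  have h3 : ∀ m ∈ Finset.Icc 1 M, ∀ n ∈ Finset.Icc 1 M,
      ‖∫ t in T..(2 * T), cexp (((Real.log n - Real.log m : ℝ) : ℂ) * I * t)‖ ≤
        if n = m then T else 2 * (M : ℝ) / |(n : ℝ) - m| := by
    intro m hm n hn
    by_cases h : n = m
    · rw [if_pos h, h]
      simp only [sub_self, Complex.ofReal_zero, zero_mul, Complex.exp_zero,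
        intervalIntegral.integral_const]
      rw [norm_smul, Real.norm_eq_abs, abs_of_nonneg (by linarith), norm_one]
      linarith
    · rw [if_neg h]
      obtain ⟨h4, h5⟩ := MV_abs hm hn (fun h' => h h'.symm)
      exact (MV_int h4).trans h5
  have hI : ∫ t in T..(2 * T), ‖∑ n ∈ Finset.Icc 1 M, b n * (n : ℂ) ^ (-((t : ℂ) * I))‖ ^ 2 ≤
      ∑ m ∈ Finset.Icc 1 M, ∑ n ∈ Finset.Icc 1 M, (‖b m‖ * ‖b n‖) *
        (if n = m then T else 2 * (M : ℝ) / |(n : ℝ) - m|) := by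
    have h5 := congrArg norm h1
    rw [Complex.norm_real, Real.norm_eq_abs] at h5
    refine (le_abs_self _).trans (h5.le.trans ?_)
    refine (norm_sum_le _ _).trans (Finset.sum_le_sum fun m hm => ?_)
    refine (norm_sum_le _ _).trans (Finset.sum_le_sum fun n hn => ?_)
    rw [norm_mul, norm_mul, RCLike.norm_conj]
    exact mul_le_mul_of_nonneg_left (h3 m hm n hn) (by positivity)
  refine hI.trans ?_
  -- symmetrisation
  have hK0 : ∀ m n : ℕ, 0 ≤ (if n = m then T else 2 * (M : ℝ) / |(n : ℝ) - m|) := by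
    intro m n
    split_ifs
    · linarith
    · positivity
  have hKs : ∀ m n : ℕ, (if n = m then T else 2 * (M : ℝ) / |(n : ℝ) - m|) =
      (if m = n then T else 2 * (M : ℝ) / |(m : ℝ) - n|) := by
    intro m n
    by_cases h : n = m
    · rw [if_pos h, if_pos h.symm]
    · rw [if_neg h, if_neg (fun h' => h h'.symm), abs_sub_comm]
  have h6 : ∑ m ∈ Finset.Icc 1 M, ∑ n ∈ Finset.Icc 1 M, (‖b m‖ * ‖b n‖) *
        (if n = m then T else 2 * (M : ℝ) / |(n : ℝ) - m|) ≤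
      ∑ m ∈ Finset.Icc 1 M, ∑ n ∈ Finset.Icc 1 M, ((‖b m‖ ^ 2 + ‖b n‖ ^ 2) / 2) *
        (if n = m then T else 2 * (M : ℝ) / |(n : ℝ) - m|) := by
    refine Finset.sum_le_sum fun m _ => Finset.sum_le_sum fun n _ => ?_
    refine mul_le_mul_of_nonneg_right ?_ (hK0 m n)
    nlinarith [sq_nonneg (‖b m‖ - ‖b n‖)]
  have h7 : ∑ m ∈ Finset.Icc 1 M, ∑ n ∈ Finset.Icc 1 M, ((‖b m‖ ^ 2 + ‖b n‖ ^ 2) / 2) *
        (if n = m then T else 2 * (M : ℝ) / |(n : ℝ) - m|) =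
      ∑ m ∈ Finset.Icc 1 M, ∑ n ∈ Finset.Icc 1 M, ‖b m‖ ^ 2 *
        (if n = m then T else 2 * (M : ℝ) / |(n : ℝ) - m|) := by
    have h8 : ∑ m ∈ Finset.Icc 1 M, ∑ n ∈ Finset.Icc 1 M, ‖b n‖ ^ 2 *
        (if n = m then T else 2 * (M : ℝ) / |(n : ℝ) - m|) =
        ∑ m ∈ Finset.Icc 1 M, ∑ n ∈ Finset.Icc 1 M, ‖b m‖ ^ 2 *
        (if n = m then T else 2 * (M : ℝ) / |(n : ℝ) - m|) := by
      rw [Finset.sum_comm]
      refine Finset.sum_congr rfl fun m _ => Finset.sum_congr rfl fun n _ => ?_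
      rw [hKs]
    have h9 : ∀ m n : ℕ, ((‖b m‖ ^ 2 + ‖b n‖ ^ 2) / 2) *
        (if n = m then T else 2 * (M : ℝ) / |(n : ℝ) - m|) =
        (‖b m‖ ^ 2 * (if n = m then T else 2 * (M : ℝ) / |(n : ℝ) - m|)) / 2 +
        (‖b n‖ ^ 2 * (if n = m then T else 2 * (M : ℝ) / |(n : ℝ) - m|)) / 2 := by
      intro m n
      ring
    simp_rw [h9]
    simp_rw [Finset.sum_add_distrib, ← Finset.sum_div]
    rw [h8]
    ring
  refine h6.trans (h7.le.trans ?_)
  rw [Finset.mul_sum]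
  refine Finset.sum_le_sum fun m hm => ?_
  rw [← Finset.mul_sum, mul_comm]
  refine mul_le_mul_of_nonneg_right ?_ (by positivity)
  rw [← Finset.add_sum_erase _ _ hm, if_pos rfl]
  have h10 : ∑ n ∈ (Finset.Icc 1 M).erase m, (if n = m then T else 2 * (M : ℝ) / |(n : ℝ) - m|) =
      ∑ n ∈ (Finset.Icc 1 M).erase m, 2 * (M : ℝ) / |(n : ℝ) - m| :=
    Finset.sum_congr rfl fun n hn => if_neg (Finset.ne_of_mem_erase hn)
  rw [h10]
  have h11 := MV_row hm
  linarith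

end Pool.Agent.Lib.MP_bc6037_nt.FO
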