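import Pool.Agent.Lib.MP_bc6037_nt.FO.Base

set_option autoImplicit false

/-!
# Module Per1 (45 min): bound for the smoothed error term from a moment on a line

PROOF. Copy `Perron.smooth_bound` (Perron.lean) with `m = M - 1`. The only change: instead of the
pointwise bound `‖Z(σ₀+it)‖ ≤ C₁ (1+|t|)^{m-1}` one uses that
`‖Z(σ₀+it)‖ (1+|t|)^{-(m+ε)}` is integrable: for `|t| ≥ 1`, `‖Z‖ ≤ ‖ζ‖^j/|t| + C/|t|`
(`Z = ζ^j/s - Q`, `Perron.norm_Q_le`), so `‖Z‖ (1+|t|)^{-(m+ε)} ≤ 2‖ζ‖^j (1+|t|)^{-(M+ε)} +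
2C (1+|t|)^{-(1+m+ε)}`, for `|t| ≤ 1` bounded (`Perron.bounded_box`). With `J` its integral,
`|smooth δ (fE j P) y| ≤ C₃ J δ^{-(m+ε)} exp(σ₀ y)`: in the integral over the line `σ₀`,
`‖KK(δ s)‖ ≤ C₃ (δ(1+|t|))^{-(m+ε)}` (`KK_decay'`). The shift of the line is unchanged.
-/

open MeasureTheory Complex Filter Set

namespace Pool.Agent.Lib.MP_bc6037_nt.FO

open Perron DeltaMellin

private lemma per1_integrable {j : ℕ} {P : Polynomial ℝ} {Z : ℂ → ℂ}
    (hZ : DifferentiableOn ℂ Z {s : ℂ | 0 < s.re})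
    (hZe : ∀ s : ℂ, 0 < s.re → s ≠ 1 → Z s = riemannZeta s ^ j / s - Q P s)
    {σ₀ M : ℝ} (h0 : 0 < σ₀) (h1 : σ₀ < 1) (hM : 1 ≤ M) (h : Mom j σ₀ M)
    {ε : ℝ} (hε : 0 < ε) :
    Integrable fun t : ℝ => ‖Z (σ₀ + t * I)‖ * (1 + |t|) ^ (-(M - 1 + ε)) := by
  obtain ⟨C2, hC2, h2⟩ := norm_Q_le P
  obtain ⟨C3, hC3, h3⟩ := bounded_box hZ h0
  have i1 := (h ε hε).const_mul 2
  have i2 : Integrable (fun t : ℝ => 2 * C2 * (1 + |t|) ^ (-(1 + ε))) := by
    have := integrable_one_add_norm (E := ℝ) (μ := volume) (r := 1 + ε) (by simp; linarith)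
    simpa using this.const_mul (2 * C2)
  have i3 : Integrable (fun t : ℝ => 4 * C3 * (1 + |t|) ^ (-2 : ℝ)) := by
    have := integrable_one_add_norm (E := ℝ) (μ := volume) (r := 2) (by simp)
    simpa using this.const_mul (4 * C3)
  have hcont : Continuous fun t : ℝ => ‖Z (σ₀ + t * I)‖ * (1 + |t|) ^ (-(M - 1 + ε)) := by
    refine Continuous.mul (Continuous.norm ?_) ?_
    · refine hZ.continuousOn.comp_continuous (by fun_prop) (fun t => ?_)
      simpa using h0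
    · exact Continuous.rpow_const (by fun_prop) (fun t => Or.inl (by positivity))
  refine ((i1.add i2).add i3).mono' hcont.aestronglyMeasurable (ae_of_all _ (fun t => ?_))
  have hre : ((σ₀ : ℂ) + t * I).re = σ₀ := by simp
  have him : ((σ₀ : ℂ) + t * I).im = t := by simp
  have hw : (0 : ℝ) < 1 + |t| := by positivity
  have hw1 : (1 : ℝ) ≤ 1 + |t| := by linarith [abs_nonneg t]
  rw [Real.norm_eq_abs, abs_of_nonneg (by positivity)]
  simp only [Pi.add_apply]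
  rcases le_total |t| 1 with ht | ht
  · have e1 := h3 (σ₀ + t * I) (by rw [hre]) (by rw [hre]; linarith) (by rw [him]; exact ht)
    have e2 : (1 + |t|) ^ (-(M - 1 + ε)) ≤ 1 := Real.rpow_le_one_of_one_le_of_nonpos hw1
      (by linarith)
    have e3 : (1 / 4 : ℝ) ≤ (1 + |t|) ^ (-2 : ℝ) := by
      have : (2 : ℝ) ^ (-2 : ℝ) ≤ (1 + |t|) ^ (-2 : ℝ) :=
        Real.rpow_le_rpow_of_nonpos hw (by linarith) (by norm_num)
      refine le_trans ?_ this
      rw [Real.rpow_neg (by norm_num)]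
      norm_num
    have e4 : ‖Z (σ₀ + t * I)‖ * (1 + |t|) ^ (-(M - 1 + ε)) ≤ C3 * 1 := by gcongr
    have e5 : C3 * 1 ≤ 4 * C3 * (1 + |t|) ^ (-2 : ℝ) := by
      have := mul_le_mul_of_nonneg_left e3 (by linarith : 0 ≤ 4 * C3)
      linarith
    have e6 : 0 ≤ 2 * (‖riemannZeta (σ₀ + t * I)‖ ^ j * (1 + |t|) ^ (-(M + ε))) := by positivity
    have e7 : 0 ≤ 2 * C2 * (1 + |t|) ^ (-(1 + ε)) := by positivity
    linarith
  · have hpos : 0 < |t| := by linarith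
    have hs1 : (σ₀ : ℂ) + t * I ≠ 1 := by
      intro h
      have : ((σ₀ : ℂ) + t * I).im = 0 := by rw [h]; simp
      rw [him] at this
      rw [this] at hpos
      simp at hpos
    have hns : |t| ≤ ‖(σ₀ : ℂ) + t * I‖ := by
      have := Complex.abs_im_le_norm ((σ₀ : ℂ) + t * I)
      rwa [him] at this
    have e0 : 1 / |t| ≤ 2 * (1 + |t|) ^ (-1 : ℝ) := by
      rw [Real.rpow_neg_one, ← div_eq_mul_inv, div_le_div_iff₀ hpos hw]
      linarith
    have e1 : ‖Z (σ₀ + t * I)‖ ≤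
        (‖riemannZeta (σ₀ + t * I)‖ ^ j + C2) * (2 * (1 + |t|) ^ (-1 : ℝ)) := by
      rw [hZe _ (by rw [hre]; exact h0) hs1]
      have e2 : ‖riemannZeta (σ₀ + t * I) ^ j / (σ₀ + t * I)‖ ≤
          ‖riemannZeta (σ₀ + t * I)‖ ^ j / |t| := by
        rw [norm_div, norm_pow]
        gcongr
      have e3 : ‖Q P (σ₀ + t * I)‖ ≤ C2 / |t| := by
        have := h2 (σ₀ + t * I) (by rw [him]; exact ht)
        rwa [him] at this
      calc _ ≤ ‖riemannZeta (σ₀ + t * I)‖ ^ j / |t| + C2 / |t| :=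
            (norm_sub_le _ _).trans (add_le_add e2 e3)
        _ = (‖riemannZeta (σ₀ + t * I)‖ ^ j + C2) * (1 / |t|) := by ring
        _ ≤ _ := by gcongr
    have e2 : (1 + |t|) ^ (-1 : ℝ) * (1 + |t|) ^ (-(M - 1 + ε)) = (1 + |t|) ^ (-(M + ε)) := by
      rw [← Real.rpow_add hw]
      congr 1
      ring
    have e3 : (1 + |t|) ^ (-(M + ε)) ≤ (1 + |t|) ^ (-(1 + ε)) :=
      Real.rpow_le_rpow_of_exponent_le hw1 (by linarith)
    have e4 : 0 ≤ 4 * C3 * (1 + |t|) ^ (-2 : ℝ) := by positivity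
    have e5 := mul_le_mul_of_nonneg_left e3 (by positivity : 0 ≤ 2 * C2)
    calc ‖Z (σ₀ + t * I)‖ * (1 + |t|) ^ (-(M - 1 + ε))
        ≤ ((‖riemannZeta (σ₀ + t * I)‖ ^ j + C2) * (2 * (1 + |t|) ^ (-1 : ℝ))) *
          (1 + |t|) ^ (-(M - 1 + ε)) := by gcongr
      _ = 2 * (‖riemannZeta (σ₀ + t * I)‖ ^ j + C2) *
          ((1 + |t|) ^ (-1 : ℝ) * (1 + |t|) ^ (-(M - 1 + ε))) := by ring
      _ = 2 * (‖riemannZeta (σ₀ + t * I)‖ ^ j * (1 + |t|) ^ (-(M + ε))) +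
          2 * C2 * (1 + |t|) ^ (-(M + ε)) := by rw [e2]; ring
      _ ≤ _ := by linarith

theorem smooth_bound_of_mom {j : ℕ} {P : Polynomial ℝ} {Z : ℂ → ℂ}
    (hZ : DifferentiableOn ℂ Z {s : ℂ | 0 < s.re})
    (hZe : ∀ s : ℂ, 0 < s.re → s ≠ 1 → Z s = riemannZeta s ^ j / s - Q P s)
    {σ₀ M : ℝ} (h0 : 0 < σ₀) (h1 : σ₀ < 1) (hM : 1 ≤ M) (h : Mom j σ₀ M)
    {ε : ℝ} (hε : 0 < ε) :
    ∃ C : ℝ, 0 ≤ C ∧ ∀ δ : ℝ, 0 < δ → δ ≤ 1 → ∀ y : ℝ,
      |smooth δ (fE j P) y| ≤ C * δ ^ (-(M - 1 + ε)) * Real.exp (σ₀ * y) := by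
  have h2' : σ₀ ≤ 2 := by linarith
  obtain ⟨C2, hC2, h2⟩ := Z_strip hZ hZe h0
  obtain ⟨C3, hC3, h3⟩ := KK_decay' (M - 1 + ε) (by linarith)
  obtain ⟨C4, hC4, h4⟩ := KK_decay' ((j : ℝ) + 2) (by positivity)
  have hJi := per1_integrable hZ hZe h0 h1 hM h hε
  set J : ℝ := ∫ t : ℝ, ‖Z (σ₀ + t * I)‖ * (1 + |t|) ^ (-(M - 1 + ε)) with hJ
  have hJ0 : 0 ≤ J := integral_nonneg (fun t => by positivity)
  refine ⟨C3 * J, by positivity, fun δ hδ hδ1 y => ?_⟩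
  have hsm := smooth_eq hδ hδ1 (fE_integrable j P) (fE_laplace hZe) y
  have hshift := shift_line (G := fun s => Z s * KK (δ * s) * cexp (s * y)) (a := σ₀) (b := 2)
    h2' (U := {s : ℂ | 0 < s.re}) (fun s hs _ => lt_of_lt_of_le h0 hs) ?_
    (isOpen_lt continuous_const Complex.continuous_re)
    (C := C2 * (C4 * δ ^ (-((j : ℝ) + 2))) * Real.exp (2 * |y|)) ?_
  · have e1 : ∫ t : ℝ, Z (2 + t * I) * KK (δ * (2 + t * I)) * cexp ((2 + t * I) * y) =
        ∫ t : ℝ, Z (σ₀ + t * I) * KK (δ * (σ₀ + t * I)) * cexp ((σ₀ + t * I) * y) := by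
      have := hshift.symm
      simpa using this
    rw [e1] at hsm
    have hn : |smooth δ (fE j P) y| = ‖((smooth δ (fE j P) y : ℝ) : ℂ)‖ := by
      rw [Complex.norm_real, Real.norm_eq_abs]
    rw [hn, hsm, norm_mul]
    have hpi : ‖(1 / (2 * (Real.pi : ℂ)))‖ ≤ 1 := by
      have h2n : ‖(2 : ℂ)‖ = 2 := by simp
      rw [norm_div, norm_one, norm_mul, Complex.norm_real, Real.norm_eq_abs,
        abs_of_pos Real.pi_pos, h2n]
      rw [div_le_one (by positivity)]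
      have := Real.pi_gt_three
      linarith
    have hint : ‖∫ t : ℝ, Z (σ₀ + t * I) * KK (δ * (σ₀ + t * I)) * cexp ((σ₀ + t * I) * y)‖ ≤
        ∫ t : ℝ, (C3 * δ ^ (-(M - 1 + ε)) * Real.exp (σ₀ * y)) *
          (‖Z (σ₀ + t * I)‖ * (1 + |t|) ^ (-(M - 1 + ε))) := by
      apply norm_integral_le_of_norm_le (hJi.const_mul _)
      refine ae_of_all _ (fun t => ?_)
      have hre : ((σ₀ : ℂ) + t * I).re = σ₀ := by simp
      have him : ((σ₀ : ℂ) + t * I).im = t := by simp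
      have a2 := h3 δ hδ hδ1 (σ₀ + t * I) (by rw [hre]; exact h0.le) (by rw [hre]; exact h2')
      rw [him, Real.mul_rpow hδ.le (by positivity)] at a2
      have a3 : ‖cexp (((σ₀ : ℂ) + t * I) * y)‖ = Real.exp (σ₀ * y) := by
        rw [Complex.norm_exp]
        congr 1
        simp
      rw [norm_mul, norm_mul, a3]
      calc ‖Z (σ₀ + t * I)‖ * ‖KK (δ * (σ₀ + t * I))‖ * Real.exp (σ₀ * y)
          ≤ ‖Z (σ₀ + t * I)‖ * (C3 * (δ ^ (-(M - 1 + ε)) * (1 + |t|) ^ (-(M - 1 + ε)))) *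
            Real.exp (σ₀ * y) := by gcongr
        _ = _ := by ring
    rw [integral_const_mul, ← hJ] at hint
    calc _ ≤ 1 * (C3 * δ ^ (-(M - 1 + ε)) * Real.exp (σ₀ * y) * J) := by gcongr
      _ = _ := by ring
  · apply DifferentiableOn.mul
    · apply hZ.mul
      exact (KK_differentiable.comp ((differentiable_const _).mul differentiable_id)).differentiableOn
    · exact (by fun_prop : Differentiable ℂ (fun s : ℂ => cexp (s * y))).differentiableOn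
  · intro s hs0 hs2
    have a1 := h2 s hs0 hs2
    have a2 := h4 δ hδ hδ1 s (h0.le.trans hs0) hs2
    rw [Real.mul_rpow hδ.le (by positivity)] at a2
    have a3 : ‖cexp (s * y)‖ ≤ Real.exp (2 * |y|) := by
      rw [Complex.norm_exp]
      apply Real.exp_le_exp.mpr
      have : (s * (y : ℂ)).re = s.re * y := by simp
      rw [this]
      calc s.re * y ≤ |s.re * y| := le_abs_self _
        _ = |s.re| * |y| := abs_mul _ _
        _ ≤ 2 * |y| := by
          apply mul_le_mul_of_nonneg_right _ (abs_nonneg _)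
          rw [abs_of_nonneg (by linarith)]
          exact hs2
    have a4 : (1 + |s.im|) ^ (j : ℝ) * (1 + |s.im|) ^ (-((j : ℝ) + 2)) =
        (1 + |s.im|) ^ (-2 : ℝ) := by
      rw [← Real.rpow_add (by positivity)]
      congr 1
      ring
    rw [norm_mul, norm_mul]
    calc ‖Z s‖ * ‖KK (δ * s)‖ * ‖cexp (s * y)‖
        ≤ (C2 * (1 + |s.im|) ^ (j : ℝ)) *
          (C4 * (δ ^ (-((j : ℝ) + 2)) * (1 + |s.im|) ^ (-((j : ℝ) + 2)))) *
          Real.exp (2 * |y|) := by gcongr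
      _ = C2 * (C4 * δ ^ (-((j : ℝ) + 2))) * Real.exp (2 * |y|) *
          ((1 + |s.im|) ^ (j : ℝ) * (1 + |s.im|) ^ (-((j : ℝ) + 2))) := by ring
      _ = _ := by rw [a4]

end Pool.Agent.Lib.MP_bc6037_nt.FO
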