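import Pool.Agent.Lib.MP_bc6037_nt.FO.Base

set_option autoImplicit false

/-!
# Module UZ (45 min): bounds for `ζ` and for its exponential local maximum `U` (RecU.lean)

`U σ t = sup_u |H(σ+iu)| e^{-|u-t|}`, `H s = (s-1) ζ s`.

PROOF. `U_of_ZB`: `|H(σ+iu)| = |σ-1+iu| |ζ(σ+iu)| ≤ C (1+|u|)^{1+m}` for `|u| ≥ 1`, and for `|u| ≤ 1` by
`norm_H_line`; then `(1+|u|)^{1+m} e^{-|u-t|} ≤ C' (1+|t|)^{1+m}` since
`1+|u| ≤ (1+|t|)(1+|u-t|)` and `(1+x)^{1+m} e^{-x}` is bounded (compare `sq_exp_le`; or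
`Real.rpow` version: `(1+x)^{1+m} ≤ C e^{x}`). `zeta_le_U`: `H_le_U` and `|s-1| ≥ |t|`.
`zb_interp`: `U_interp'` (RecCompare.lean), `U_of_ZB` twice, `zeta_le_U`
(`((1+|t|)^{1+m₁})^{1-θ} ((1+|t|)^{1+m₂})^θ = (1+|t|)^{1+(1-θ)m₁+θm₂}`, `1+|t| ≤ 2|t|`).
-/

open MeasureTheory Complex Filter Set

namespace Pool.Agent.Lib.MP_bc6037_nt.FO

open Rec

private lemma uz_exp_bound {b : ℝ} (hb : 0 ≤ b) : ∃ K : ℝ, 0 < K ∧ ∀ x : ℝ, 0 ≤ x →
    (1 + x) ^ b ≤ K * Real.exp x := by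
  obtain ⟨n, hn⟩ := exists_nat_ge b
  refine ⟨n.factorial * Real.exp 1, by positivity, fun x hx => ?_⟩
  have h1 : (1 + x) ^ b ≤ (1 + x) ^ (n : ℝ) :=
    Real.rpow_le_rpow_of_exponent_le (by linarith) hn
  rw [Real.rpow_natCast] at h1
  have h2 := Real.pow_div_factorial_le_exp (x := 1 + x) (by linarith) n
  have h3 : (0 : ℝ) < n.factorial := by exact_mod_cast n.factorial_pos
  rw [div_le_iff₀ h3] at h2
  calc (1 + x) ^ b ≤ Real.exp (1 + x) * n.factorial := h1.trans h2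
    _ = _ := by rw [Real.exp_add]; ring

private lemma uz_ne_one {σ t : ℝ} (ht : 1 ≤ |t|) : (σ : ℂ) + t * I ≠ 1 := by
  intro h
  have h1 : ((σ : ℂ) + t * I).im = t := by simp
  rw [h] at h1
  simp at h1
  rw [← h1] at ht
  simp at ht
  linarith

theorem U_of_ZB {σ m : ℝ} (h0 : 0 < σ) (hm : 0 ≤ m) (h : ZB σ m) :
    ∃ C : ℝ, 0 ≤ C ∧ ∀ t : ℝ, U σ t ≤ C * (1 + |t|) ^ (1 + m) := by
  obtain ⟨C0, hC0, b⟩ := h
  obtain ⟨C1, hC1, b1⟩ := norm_H_line (σ₀ := σ) (σ₁ := σ) h0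
  obtain ⟨K, hK, hKb⟩ := uz_exp_bound (b := 1 + m) (by linarith)
  have hH : ∀ u : ℝ, ‖ZetaGrowth.H (σ + u * I)‖ ≤
      (4 * C1 + C0 * (|σ - 1| + 1)) * (1 + |u|) ^ (1 + m) := by
    intro u
    have hw : (1 : ℝ) ≤ 1 + |u| := by linarith [abs_nonneg u]
    have hone : (1 : ℝ) ≤ (1 + |u|) ^ (1 + m) := Real.one_le_rpow hw (by linarith)
    have p1 : 0 ≤ C0 * (|σ - 1| + 1) * (1 + |u|) ^ (1 + m) := by positivity
    have p2 : 0 ≤ 4 * C1 * (1 + |u|) ^ (1 + m) := by positivity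
    rcases le_total |u| 1 with hu | hu
    · have h1 := b1 σ u le_rfl le_rfl
      have h2 : (1 + |u|) ^ 2 ≤ 4 := by nlinarith [abs_nonneg u]
      have h3 : C1 * (1 + |u|) ^ 2 ≤ C1 * 4 := by gcongr
      have h4 : 4 * C1 * 1 ≤ 4 * C1 * (1 + |u|) ^ (1 + m) := by gcongr
      linarith
    · have hne := uz_ne_one (σ := σ) hu
      rw [ZetaGrowth.H_of_ne hne, norm_mul]
      have h1 : ‖(σ : ℂ) + u * I - 1‖ ≤ (|σ - 1| + 1) * (1 + |u|) := by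
        have h2 : (σ : ℂ) + u * I - 1 = ((σ - 1 : ℝ) : ℂ) + u * I := by push_cast; ring
        rw [h2]
        have h3 := norm_add_le (((σ - 1 : ℝ) : ℂ)) (u * I)
        rw [norm_mul, Complex.norm_I, mul_one, Complex.norm_real, Complex.norm_real,
          Real.norm_eq_abs, Real.norm_eq_abs] at h3
        nlinarith [abs_nonneg u, abs_nonneg (σ - 1), mul_nonneg (abs_nonneg (σ - 1)) (abs_nonneg u)]
      have h2 : ‖riemannZeta (σ + u * I)‖ ≤ C0 * (1 + |u|) ^ m := by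
        refine (b u hu).trans ?_
        have : |u| ^ m ≤ (1 + |u|) ^ m := Real.rpow_le_rpow (abs_nonneg u) (by linarith) hm
        gcongr
      have h3 : (1 + |u|) ^ (1 + m) = (1 + |u|) * (1 + |u|) ^ m := by
        rw [Real.rpow_add (by positivity), Real.rpow_one]
      calc ‖(σ : ℂ) + u * I - 1‖ * ‖riemannZeta (σ + u * I)‖
          ≤ ((|σ - 1| + 1) * (1 + |u|)) * (C0 * (1 + |u|) ^ m) := by gcongr
        _ = C0 * (|σ - 1| + 1) * (1 + |u|) ^ (1 + m) := by rw [h3]; ring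
        _ ≤ _ := by linarith
  refine ⟨(4 * C1 + C0 * (|σ - 1| + 1)) * K, by positivity, fun t => ?_⟩
  apply U_le
  intro u
  have h1 : 1 + |u| ≤ (1 + |t|) * (1 + |u - t|) := by
    have := abs_sub_abs_le_abs_sub u t
    nlinarith [abs_nonneg t, abs_nonneg (u - t), mul_nonneg (abs_nonneg t) (abs_nonneg (u - t))]
  have h2 : (1 + |u|) ^ (1 + m) ≤ (1 + |t|) ^ (1 + m) * (K * Real.exp |u - t|) := by
    calc (1 + |u|) ^ (1 + m) ≤ ((1 + |t|) * (1 + |u - t|)) ^ (1 + m) :=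
          Real.rpow_le_rpow (by positivity) h1 (by linarith)
      _ = (1 + |t|) ^ (1 + m) * (1 + |u - t|) ^ (1 + m) :=
          Real.mul_rpow (by positivity) (by positivity)
      _ ≤ _ := by
          gcongr
          exact hKb _ (abs_nonneg _)
  have h3 : Real.exp |u - t| * Real.exp (-|u - t|) = 1 := by
    rw [← Real.exp_add, add_neg_cancel, Real.exp_zero]
  calc ‖ZetaGrowth.H (σ + u * I)‖ * Real.exp (-|u - t|)
      ≤ ((4 * C1 + C0 * (|σ - 1| + 1)) * ((1 + |t|) ^ (1 + m) * (K * Real.exp |u - t|))) *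
        Real.exp (-|u - t|) := by
        gcongr
        exact (hH u).trans (by gcongr)
    _ = (4 * C1 + C0 * (|σ - 1| + 1)) * K * (1 + |t|) ^ (1 + m) *
        (Real.exp |u - t| * Real.exp (-|u - t|)) := by ring
    _ = _ := by rw [h3, mul_one]

theorem zeta_le_U {σ : ℝ} (h0 : 0 < σ) {t : ℝ} (ht : 1 ≤ |t|) :
    ‖riemannZeta (σ + t * I)‖ ≤ U σ t / |t| := by
  have hpos : 0 < |t| := by linarith
  have h1 := H_le_U h0 t
  rw [ZetaGrowth.H_of_ne (uz_ne_one ht), norm_mul] at h1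
  have h2 : |t| ≤ ‖(σ : ℂ) + t * I - 1‖ := by
    have := Complex.abs_im_le_norm ((σ : ℂ) + t * I - 1)
    simpa using this
  rw [le_div_iff₀ hpos, mul_comm]
  exact (mul_le_mul_of_nonneg_right h2 (norm_nonneg _)).trans h1

theorem zb_interp {σ₁ σ₂ θ m₁ m₂ : ℝ} (h1 : 0 < σ₁) (h2 : 0 < σ₂) (hθ0 : 0 ≤ θ) (hθ1 : θ ≤ 1)
    (hm1 : 0 ≤ m₁) (hm2 : 0 ≤ m₂) (b1 : ZB σ₁ m₁) (b2 : ZB σ₂ m₂) :
    ZB ((1 - θ) * σ₁ + θ * σ₂) ((1 - θ) * m₁ + θ * m₂) := by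
  obtain ⟨C1, hC1, c1⟩ := U_of_ZB h1 hm1 b1
  obtain ⟨C2, hC2, c2⟩ := U_of_ZB h2 hm2 b2
  set M : ℝ := (1 - θ) * m₁ + θ * m₂ with hM
  have hM0 : 0 ≤ M := add_nonneg (mul_nonneg (by linarith) hm1) (mul_nonneg hθ0 hm2)
  have hθ1' : 0 ≤ 1 - θ := by linarith
  have hσ : 0 < (1 - θ) * σ₁ + θ * σ₂ := by
    rcases hθ0.eq_or_lt with h | h
    · rw [← h]; linarith
    · exact add_pos_of_nonneg_of_pos (mul_nonneg hθ1' h1.le) (mul_pos h h2)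
  set E : ℝ := Real.exp ((σ₂ - σ₁) ^ 2 + 1) * (C1 ^ (1 - θ) * C2 ^ θ) with hE
  have hE0 : 0 ≤ E := by positivity
  refine ⟨E * 2 ^ (1 + M), by positivity, fun t ht => ?_⟩
  have hpos : 0 < |t| := by linarith
  have hw : 0 < 1 + |t| := by linarith
  have h3 := zeta_le_U hσ ht
  have h4 := U_interp' h1 h2 hθ0 hθ1 t
  have h5 : U σ₁ t ^ (1 - θ) ≤ (C1 * (1 + |t|) ^ (1 + m₁)) ^ (1 - θ) :=
    Real.rpow_le_rpow (U_nonneg t) (c1 t) hθ1'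
  have h6 : U σ₂ t ^ θ ≤ (C2 * (1 + |t|) ^ (1 + m₂)) ^ θ :=
    Real.rpow_le_rpow (U_nonneg t) (c2 t) hθ0
  have e1 : (C1 * (1 + |t|) ^ (1 + m₁)) ^ (1 - θ) * (C2 * (1 + |t|) ^ (1 + m₂)) ^ θ =
      (C1 ^ (1 - θ) * C2 ^ θ) * (1 + |t|) ^ (1 + M) := by
    rw [Real.mul_rpow hC1 (by positivity), Real.mul_rpow hC2 (by positivity),
      ← Real.rpow_mul hw.le, ← Real.rpow_mul hw.le]
    have : (1 + |t|) ^ (1 + M) =
        (1 + |t|) ^ ((1 + m₁) * (1 - θ)) * (1 + |t|) ^ ((1 + m₂) * θ) := by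
      rw [← Real.rpow_add hw]
      congr 1
      rw [hM]
      ring
    rw [this]
    ring
  have h7 : U ((1 - θ) * σ₁ + θ * σ₂) t ≤ E * (1 + |t|) ^ (1 + M) := by
    refine h4.trans ?_
    rw [hE, mul_assoc, ← e1]
    gcongr
    · exact Real.rpow_nonneg (U_nonneg t) _
  have h8 : (1 + |t|) ^ (1 + M) ≤ (2 ^ (1 + M) * |t| ^ M) * |t| := by
    calc (1 + |t|) ^ (1 + M) ≤ (2 * |t|) ^ (1 + M) :=
          Real.rpow_le_rpow hw.le (by linarith) (by linarith)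
      _ = 2 ^ (1 + M) * |t| ^ (1 + M) := Real.mul_rpow (by norm_num) hpos.le
      _ = _ := by rw [Real.rpow_add hpos, Real.rpow_one]; ring
  refine h3.trans ?_
  rw [div_le_iff₀ hpos]
  calc U ((1 - θ) * σ₁ + θ * σ₂) t ≤ E * (1 + |t|) ^ (1 + M) := h7
    _ ≤ E * ((2 ^ (1 + M) * |t| ^ M) * |t|) := by gcongr
    _ = _ := by ring

theorem zb_mono {σ m m' : ℝ} (h : m ≤ m') (b : ZB σ m) : ZB σ m' := by
  obtain ⟨C, hC, hb⟩ := b
  refine ⟨C, hC, fun t ht => (hb t ht).trans ?_⟩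
  exact mul_le_mul_of_nonneg_left (Real.rpow_le_rpow_of_exponent_le ht h) hC

theorem zb_two {σ : ℝ} (h : 2 ≤ σ) : ZB σ 0 := by
  refine ⟨∑' n : ℕ, 1 / (n : ℝ) ^ (2 : ℝ), tsum_nonneg fun n => by positivity, fun t _ => ?_⟩
  rw [Real.rpow_zero, mul_one]
  exact Growth.norm_zeta_two (s := (σ : ℂ) + t * I) (by simpa using h)

end Pool.Agent.Lib.MP_bc6037_nt.FO
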